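import Mathlib

set_option autoImplicit false

/-!
# Boolean matrices: counting sparse almost null vectors
-/

namespace Pool.Agent.H394R3

open Finset

/-- the two values of an entry -/
def vl (u v : ℝ) (t : Bool) : ℝ := if t then v else u

variable {n : ℕ} {u v : ℝ}

/-- the scalar product of a real vector and a Boolean vector -/
noncomputable def dotB (u v : ℝ) (x : Fin n → ℝ) (r : Fin n → Bool) : ℝ := ∑ i, x i * vl u v (r i)

theorem dotB_flip (x : Fin n → ℝ) (r : Fin n → Bool) (k : Fin n) :
    dotB u v x (Function.update r k (!r k)) - dotB u v x r =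
      x k * (vl u v (!r k) - vl u v (r k)) := by
  unfold dotB
  rw [← Finset.sum_sub_distrib, Finset.sum_eq_single k]
  · simp [mul_sub]
  · intro i _ hi
    simp [Function.update_of_ne hi]
  · intro h; exact absurd (Finset.mem_univ k) h

theorem abs_vl_flip (t : Bool) : |vl u v (!t) - vl u v t| = |v - u| := by
  cases t <;> simp [vl, abs_sub_comm]

/-- Half of the Boolean vectors are not almost orthogonal to a normalised vector. -/
theorem half_card (huv : 1 ≤ |v - u|) (x : Fin n → ℝ) {k : Fin n} (hk : |x k| = 1) :
    2 * (univ.filter fun r : Fin n → Bool => |dotB u v x r| < 1 / 4).card ≤ 2 ^ n := by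
  classical
  set T := univ.filter fun r : Fin n → Bool => |dotB u v x r| < 1 / 4 with hT
  have h1 : T.card ≤ (Finset.univ \ T).card := by
    apply Finset.card_le_card_of_injOn (fun r => Function.update r k (!r k))
    · intro r hr
      simp only [Finset.coe_sdiff, Finset.coe_univ, Set.mem_sdiff, Set.mem_univ, true_and,
        Finset.mem_coe]
      intro h2
      have h3 : |dotB u v x r| < 1 / 4 := (Finset.mem_filter.1 (Finset.mem_coe.1 hr)).2
      have h4 : |dotB u v x (Function.update r k (!r k))| < 1 / 4 := (Finset.mem_filter.1 h2).2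
      have h5 := dotB_flip (u := u) (v := v) x r k
      have h6 : |x k * (vl u v (!r k) - vl u v (r k))| = |v - u| := by
        rw [abs_mul, hk, one_mul, abs_vl_flip]
      rw [← h5] at h6
      have h7 := abs_sub (dotB u v x (Function.update r k (!r k))) (dotB u v x r)
      linarith
    · intro r _ s _ h
      have h' : Function.update r k (!r k) = Function.update s k (!s k) := h
      funext i
      by_cases hi : i = k
      · subst hi
        have := congrFun h' i
        simpa using this
      · have := congrFun h' i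
        rwa [Function.update_of_ne hi, Function.update_of_ne hi] at this
  rw [Finset.card_sdiff_of_subset (Finset.subset_univ T)] at h1
  have h2 : (Finset.univ : Finset (Fin n → Bool)).card = 2 ^ n := by
    rw [Finset.card_univ, Fintype.card_fun]; simp
  have h3 : T.card ≤ (Finset.univ : Finset (Fin n → Bool)).card := Finset.card_le_univ T
  omega

/-- Products of sets of rows. -/
theorem pi_card {N : ℕ} {β : Type} [Fintype β] [DecidableEq β] (T : Finset β)
    (hT : 2 * T.card ≤ Fintype.card β) (J : Finset (Fin N)) :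
    2 ^ J.card * (univ.filter fun ω : Fin N → β => ∀ j ∈ J, ω j ∈ T).card ≤
      Fintype.card (Fin N → β) := by
  classical
  have h1 : (univ.filter fun ω : Fin N → β => ∀ j ∈ J, ω j ∈ T) =
      Fintype.piFinset fun j => if j ∈ J then T else univ := by
    ext ω
    simp only [Finset.mem_filter, Finset.mem_univ, true_and, Fintype.mem_piFinset]
    constructor
    · intro h j
      by_cases hj : j ∈ J
      · simp [hj, h j hj]
      · simp [hj]
    · intro h j hj
      have := h j
      simpa [hj] using this
  rw [h1, Fintype.card_piFinset, Fintype.card_pi, ← Finset.prod_const]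
  rw [← Finset.prod_filter_mul_prod_filter_not (univ : Finset (Fin N)) (fun j => j ∈ J)
    (fun j => (if j ∈ J then T else univ).card)]
  rw [← Finset.prod_filter_mul_prod_filter_not (univ : Finset (Fin N)) (fun j => j ∈ J)
    (fun _ => Fintype.card β)]
  have h2 : (univ.filter fun j => j ∈ J) = J := by ext; simp
  rw [h2, ← mul_assoc, ← Finset.prod_mul_distrib]
  apply Nat.mul_le_mul
  · apply Finset.prod_le_prod'
    intro j hj
    simp only [hj, if_true]
    exact hT
  · apply Finset.prod_le_prod'
    intro j hj
    have : j ∉ J := by simpa using hj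
    simp [this]

/-- The net: integer vectors with few nonzero coordinates. -/
noncomputable def net (n : ℕ) (b : ℤ) : ℕ → Finset (Fin n → ℤ)
  | 0 => {0}
  | m + 1 => Finset.image (fun p : (Fin n → ℤ) × Fin n × ℤ => Function.update p.1 p.2.1 p.2.2)
      (net n b m ×ˢ (univ ×ˢ Finset.Icc (-b) b))

theorem net_card (n : ℕ) (b : ℕ) (m : ℕ) : (net n b m).card ≤ (n * (2 * b + 1)) ^ m := by
  induction m with
  | zero => simp [net]
  | succ m ih =>
    rw [net]
    refine Finset.card_image_le.trans ?_
    rw [Finset.card_product, Finset.card_product, Finset.card_univ, Fintype.card_fin, Int.card_Icc,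
      pow_succ]
    apply Nat.mul_le_mul ih
    apply Nat.mul_le_mul le_rfl
    omega

theorem mem_net {n : ℕ} (hn : 0 < n) (b : ℤ) (hb : 0 ≤ b) (m : ℕ) (z : Fin n → ℤ)
    (hz : ∀ i, |z i| ≤ b) (hm : (univ.filter fun i => z i ≠ 0).card ≤ m) : z ∈ net n b m := by
  induction m generalizing z with
  | zero =>
    rw [net, Finset.mem_singleton]
    funext i
    by_contra h
    have : i ∈ univ.filter fun i => z i ≠ 0 := by simpa using h
    rw [Nat.le_zero, Finset.card_eq_zero] at hm
    rw [hm] at this
    simp at this
  | succ m ih =>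
    rw [net, Finset.mem_image]
    by_cases he : (univ.filter fun i => z i ≠ 0).Nonempty
    · obtain ⟨j, hj⟩ := he
      refine ⟨(Function.update z j 0, j, z j), ?_, ?_⟩
      · rw [Finset.mem_product, Finset.mem_product]
        refine ⟨ih _ ?_ ?_, Finset.mem_univ _, ?_⟩
        · intro i
          by_cases hi : i = j
          · subst hi; simpa using hb
          · simp only [Function.update_of_ne hi]; exact hz i
        · have h1 : (univ.filter fun i => Function.update z j 0 i ≠ 0) ⊆
              (univ.filter fun i => z i ≠ 0).erase j := by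
            intro i hi
            rw [Finset.mem_filter] at hi
            rw [Finset.mem_erase, Finset.mem_filter]
            have hij : i ≠ j := by
              rintro rfl
              exact hi.2 (by simp)
            refine ⟨hij, Finset.mem_univ _, ?_⟩
            rw [Function.update_of_ne hij] at hi
            exact hi.2
          have h2 := Finset.card_le_card h1
          rw [Finset.card_erase_of_mem hj] at h2
          show (univ.filter fun i => Function.update z j 0 i ≠ 0).card ≤ m
          omega
        · rw [Finset.mem_Icc]; exact abs_le.1 (hz j)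
      · simp
    · have hz0 : z = 0 := by
        funext i
        by_contra h
        exact he ⟨i, by simpa using h⟩
      refine ⟨(z, ⟨0, hn⟩, 0), ?_, ?_⟩
      · rw [Finset.mem_product, Finset.mem_product]
        refine ⟨ih z hz ?_, Finset.mem_univ _, ?_⟩
        · rw [hz0]; simp
        · rw [Finset.mem_Icc]; constructor
          · show -b ≤ 0; linarith
          · exact hb
      · rw [hz0]; simp

/-- The vector `x` is normalised: its maximum norm is `1`. -/
def Nz (x : Fin n → ℝ) : Prop := (∀ i, |x i| ≤ 1) ∧ ∃ i, |x i| = 1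

/-- The number of large coordinates, at least `1 / (8 n)`. -/
noncomputable def big (x : Fin n → ℝ) : Finset (Fin n) := univ.filter fun i => 1 / (8 * n) ≤ |x i|

theorem abs_dotB_le (hu : |u| ≤ 1) (hv : |v| ≤ 1) (x : Fin n → ℝ) (r : Fin n → Bool) {c : ℝ}
    (hx : ∀ i, |x i| ≤ c) : |dotB u v x r| ≤ n * c := by
  unfold dotB
  refine (Finset.abs_sum_le_sum_abs _ _).trans ?_
  have h : ∀ i ∈ (univ : Finset (Fin n)), |x i * vl u v (r i)| ≤ c := by
    intro i _
    rw [abs_mul]
    have h1 : |vl u v (r i)| ≤ 1 := by
      unfold vl; split_ifs <;> assumption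
    have h2 := hx i
    have h3 : 0 ≤ |x i| := abs_nonneg _
    nlinarith
  refine (Finset.sum_le_sum h).trans ?_
  simp

/-- Rounding of a sparse vector. -/
theorem round_vec (hn : 0 < n) (hu : |u| ≤ 1) (hv : |v| ≤ 1) {m : ℕ} (x : Fin n → ℝ) (hx : Nz x)
    (hm : (big x).card ≤ m) :
    ∃ z ∈ net n (8 * n : ℕ) m, (∃ i, |(z i : ℝ) / (8 * n)| = 1) ∧
      ∀ r, |dotB u v x r| < 1 / 8 → |dotB u v (fun i => (z i : ℝ) / (8 * n)) r| < 1 / 4 := by
  have hn0 : (0 : ℝ) < n := by exact_mod_cast hn
  set z : Fin n → ℤ := fun i => if 1 / (8 * n) ≤ |x i| then round (8 * n * x i) else 0 with hz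
  have hclose : ∀ i, |x i - (z i : ℝ) / (8 * n)| ≤ 1 / (8 * n) := by
    intro i
    simp only [hz]
    split_ifs with h
    · have h1 := abs_sub_round (8 * n * x i)
      have e : x i - (round (8 * (n : ℝ) * x i) : ℝ) / (8 * n) =
          (8 * n * x i - round (8 * (n : ℝ) * x i)) / (8 * n) := by
        field_simp
      rw [e, abs_div, abs_of_pos (by positivity : (0 : ℝ) < 8 * n)]
      apply div_le_div_of_nonneg_right _ (by positivity)
      linarith
    · simp only [Int.cast_zero, zero_div, sub_zero]
      exact (not_le.1 h).le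
  have hb : ∀ i, |z i| ≤ ((8 * n : ℕ) : ℤ) := by
    intro i
    simp only [hz]
    split_ifs with h
    · have h1 := abs_sub_round (8 * n * x i)
      have h2 := hx.1 i
      have h3 : |8 * (n : ℝ) * x i| ≤ 8 * n := by
        rw [abs_mul, abs_of_pos (by positivity : (0 : ℝ) < 8 * n)]
        nlinarith
      rw [abs_le] at h1 h3
      have h4 : (round (8 * (n : ℝ) * x i) : ℝ) < (8 * n : ℕ) + 1 := by push_cast; linarith
      have h5 : -((8 * n : ℕ) + 1 : ℝ) < (round (8 * (n : ℝ) * x i) : ℝ) := by
        push_cast; linarith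
      rw [abs_le]
      have h6 : round (8 * (n : ℝ) * x i) < ((8 * n : ℕ) : ℤ) + 1 := by exact_mod_cast h4
      have h7 : -(((8 * n : ℕ) : ℤ) + 1) < round (8 * (n : ℝ) * x i) := by exact_mod_cast h5
      constructor <;> omega
    · simp
  refine ⟨z, ?_, ?_, ?_⟩
  · apply mem_net hn _ (by positivity) m z hb
    refine le_trans (Finset.card_le_card ?_) hm
    intro i hi
    rw [Finset.mem_filter] at hi
    unfold big
    rw [Finset.mem_filter]
    refine ⟨Finset.mem_univ _, ?_⟩
    by_contra h
    exact hi.2 (by simp only [hz]; rw [if_neg h])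
  · obtain ⟨i, hi⟩ := hx.2
    refine ⟨i, ?_⟩
    have h8 : 1 / (8 * (n : ℝ)) ≤ |x i| := by
      rw [hi, div_le_one (by positivity)]
      have : (1 : ℝ) ≤ n := by exact_mod_cast hn
      linarith
    simp only [hz, if_pos h8]
    rcases abs_eq (by norm_num : (0 : ℝ) ≤ 1) |>.1 hi with h | h
    · rw [h, mul_one]
      have : round (8 * (n : ℝ)) = ((8 * n : ℕ) : ℤ) := by
        have : (8 * (n : ℝ)) = (((8 * n : ℕ) : ℤ) : ℝ) := by push_cast; ring
        rw [this, round_intCast]
      rw [this]
      push_cast
      rw [div_self (by positivity)]; simp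
    · rw [h]
      have : round (8 * (n : ℝ) * -1) = -((8 * n : ℕ) : ℤ) := by
        have : (8 * (n : ℝ) * -1) = ((-((8 * n : ℕ) : ℤ) : ℤ) : ℝ) := by push_cast; ring
        rw [this, round_intCast]
      rw [this]
      push_cast
      rw [neg_div, div_self (by positivity)]; simp
  · intro r hr
    have h1 : dotB u v (fun i => (z i : ℝ) / (8 * n)) r =
        dotB u v x r - dotB u v (fun i => x i - (z i : ℝ) / (8 * n)) r := by
      unfold dotB
      rw [← Finset.sum_sub_distrib]
      refine Finset.sum_congr rfl fun i _ => ?_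
      ring
    have h2 := abs_dotB_le hu hv (fun i => x i - (z i : ℝ) / (8 * n)) r hclose
    have h3 : (n : ℝ) * (1 / (8 * n)) = 1 / 8 := by field_simp
    rw [h3] at h2
    rw [h1]
    have h4 := abs_sub (dotB u v x r) (dotB u v (fun i => x i - (z i : ℝ) / (8 * n)) r)
    linarith

/-- There is a sparse normalised vector that is almost orthogonal to the rows in `J`. -/
def Comp (u v : ℝ) (m : ℕ) (J : Finset (Fin n)) (ω : Fin n → Fin n → Bool) : Prop :=
  ∃ x : Fin n → ℝ, Nz x ∧ (big x).card ≤ m ∧ ∀ j ∈ J, |dotB u v x (ω j)| < 1 / 8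

open Classical in
theorem comp_card (hn : 0 < n) (hu : |u| ≤ 1) (hv : |v| ≤ 1) (huv : 1 ≤ |v - u|) (m : ℕ)
    (J : Finset (Fin n)) :
    2 ^ J.card * (univ.filter fun ω => Comp u v m J ω).card ≤
      (n * (16 * n + 1)) ^ m * Fintype.card (Fin n → Fin n → Bool) := by
  set Z := (net n (8 * n : ℕ) m).filter fun z => ∃ i, |(z i : ℝ) / (8 * n)| = 1 with hZ
  have h1 : (univ.filter fun ω => Comp u v m J ω) ⊆
      Z.biUnion fun z => univ.filter fun ω : Fin n → Fin n → Bool => ∀ j ∈ J, ω j ∈
        (univ.filter fun r : Fin n → Bool =>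
          |dotB u v (fun i => (z i : ℝ) / (8 * n)) r| < 1 / 4) := by
    intro ω hω
    obtain ⟨x, hx, hm, hJ⟩ := (Finset.mem_filter.1 hω).2
    obtain ⟨z, hz, hz1, hz2⟩ := round_vec hn hu hv x hx hm
    rw [Finset.mem_biUnion]
    refine ⟨z, Finset.mem_filter.2 ⟨hz, hz1⟩, ?_⟩
    rw [Finset.mem_filter]
    refine ⟨Finset.mem_univ _, fun j hj => ?_⟩
    rw [Finset.mem_filter]
    exact ⟨Finset.mem_univ _, hz2 _ (hJ j hj)⟩
  have h2 := (Finset.card_le_card h1).trans Finset.card_biUnion_le
  have h3 : 2 ^ J.card * (univ.filter fun ω => Comp u v m J ω).card ≤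
      ∑ z ∈ Z, Fintype.card (Fin n → Fin n → Bool) := by
    refine (Nat.mul_le_mul_left _ h2).trans ?_
    rw [Finset.mul_sum]
    refine Finset.sum_le_sum fun z hz => ?_
    obtain ⟨i, hi⟩ := (Finset.mem_filter.1 hz).2
    apply pi_card
    rw [Fintype.card_fun]
    simpa using half_card huv (fun i => (z i : ℝ) / (8 * n)) hi
  refine h3.trans ?_
  rw [Finset.sum_const, smul_eq_mul]
  apply Nat.mul_le_mul_right
  refine (Finset.card_filter_le _ _).trans ?_
  have := net_card n (8 * n) m
  rwa [show 2 * (8 * n) + 1 = 16 * n + 1 by ring] at this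

end Pool.Agent.H394R3
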