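import Pool.Agent.H394R3.Bool1

set_option autoImplicit false

/-!
# Boolean matrices: small values of linear forms, and the least singular value
-/

namespace Pool.Agent.H394R3

open Finset

variable {n : ℕ} {u v : ℝ}

theorem term_nonneg (a : ℝ) {t1 t2 : Bool}
    (h : t1 = decide (0 < a * (v - u)) → t2 = decide (0 < a * (v - u))) :
    0 ≤ a * vl u v t2 - a * vl u v t1 := by
  by_cases h0 : 0 < a * (v - u)
  · simp only [h0, decide_true] at h
    cases t1 <;> cases t2 <;> simp_all [vl]
    nlinarith
  · simp only [h0, decide_false] at h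
    cases t1 <;> cases t2 <;> simp_all [vl]
    nlinarith

theorem term_eq (a : ℝ) {t1 t2 : Bool} (h1 : t1 ≠ decide (0 < a * (v - u)))
    (h2 : t2 = decide (0 < a * (v - u))) :
    a * vl u v t2 - a * vl u v t1 = |a| * |v - u| := by
  rw [← abs_mul]
  by_cases h0 : 0 < a * (v - u)
  · simp only [h0, decide_true] at h1 h2
    rw [abs_of_pos h0]
    cases t1 <;> cases t2 <;> simp_all [vl]
    ring
  · simp only [h0, decide_false] at h1 h2
    rw [abs_of_nonpos (not_lt.1 h0)]
    cases t1 <;> cases t2 <;> simp_all [vl]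
    ring

theorem dot_mono (huv : 1 ≤ |v - u|) (a : Fin n → ℝ) {τ : ℝ} (S : Finset (Fin n))
    (hS : ∀ i ∈ S, τ ≤ |a i|) (hτ : 0 ≤ τ) {r1 r2 : Fin n → Bool} (h0 : ∀ i, i ∉ S → r1 i = r2 i)
    (h1 : ∀ i ∈ S, r1 i = decide (0 < a i * (v - u)) → r2 i = decide (0 < a i * (v - u)))
    {k : Fin n} (hk : k ∈ S) (h2 : r1 k ≠ decide (0 < a k * (v - u)))
    (h3 : r2 k = decide (0 < a k * (v - u))) :
    τ ≤ dotB u v a r2 - dotB u v a r1 := by
  unfold dotB
  rw [← Finset.sum_sub_distrib]
  have h4 : ∀ i ∈ (univ : Finset (Fin n)), 0 ≤ a i * vl u v (r2 i) - a i * vl u v (r1 i) := by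
    intro i _
    by_cases hi : i ∈ S
    · exact term_nonneg (a i) (h1 i hi)
    · rw [h0 i hi, sub_self]
  refine le_trans ?_ (Finset.single_le_sum h4 (Finset.mem_univ k))
  rw [term_eq (a k) h2 h3]
  have h5 := hS k hk
  nlinarith [abs_nonneg (a k)]

open Classical in
/-- The theorem of Littlewood, Offord and Erdős. -/
theorem lo_card (huv : 1 ≤ |v - u|) (a : Fin n → ℝ) {τ η : ℝ} (hη : 2 * η < τ) (hτ : 0 ≤ τ)
    (S : Finset (Fin n)) (hS : ∀ i ∈ S, τ ≤ |a i|) :
    2 ^ S.card * (univ.filter fun r : Fin n → Bool => |dotB u v a r| ≤ η).card ≤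
      2 ^ n * S.card.choose (S.card / 2) := by
  set E := Equiv.piEquivPiSubtypeProd (fun i : Fin n => i ∈ S) (fun _ => Bool) with hE
  set up : {i // i ∈ S} → Bool := fun i => decide (0 < a i * (v - u)) with hup
  have hfib : ∀ g : {i // ¬ i ∈ S} → Bool,
      (univ.filter fun f : {i // i ∈ S} → Bool => |dotB u v a (E.symm (f, g))| ≤ η).card ≤
        S.card.choose (S.card / 2) := by
    intro g
    set F := univ.filter fun f : {i // i ∈ S} → Bool => |dotB u v a (E.symm (f, g))| ≤ η with hF
    set φ : ({i // i ∈ S} → Bool) → Finset {i // i ∈ S} :=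
      fun f => univ.filter fun i => f i = up i with hφ
    have hinj : Set.InjOn φ F := by
      intro f1 _ f2 _ h
      funext i
      have h1 : i ∈ φ f1 ↔ i ∈ φ f2 := by rw [h]
      simp only [hφ, Finset.mem_filter, Finset.mem_univ, true_and] at h1
      generalize up i = c at h1
      revert h1
      cases f1 i <;> cases f2 i <;> cases c <;> simp
    rw [← Finset.card_image_of_injOn hinj]
    have hac : IsAntichain (· ⊆ ·) ((F.image φ : Finset (Finset {i // i ∈ S})) :
        Set (Finset {i // i ∈ S})) := by
      intro s1 hs1 s2 hs2 hne hsub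
      rw [Finset.mem_coe, Finset.mem_image] at hs1 hs2
      obtain ⟨f1, hf1, rfl⟩ := hs1
      obtain ⟨f2, hf2, rfl⟩ := hs2
      have hf1' := (Finset.mem_filter.1 hf1).2
      have hf2' := (Finset.mem_filter.1 hf2).2
      obtain ⟨k, hk2, hk1⟩ : ∃ k ∈ φ f2, k ∉ φ f1 := by
        by_contra hcon
        push Not at hcon
        exact hne (Finset.Subset.antisymm hsub hcon)
      have hk2' : f2 k = up k := by simpa [hφ] using hk2
      have hk1' : f1 k ≠ up k := by simpa [hφ] using hk1
      have key := dot_mono huv a S hS hτ (r1 := E.symm (f1, g)) (r2 := E.symm (f2, g))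
        (k := k.1) ?_ ?_ k.2 ?_ ?_
      · rw [abs_le] at hf1' hf2'
        linarith
      · intro i hi
        simp [hE, Equiv.piEquivPiSubtypeProd, hi]
      · intro i hi
        simp only [hE, Equiv.piEquivPiSubtypeProd, Equiv.coe_fn_symm_mk, hi, dif_pos]
        intro h1
        have : (⟨i, hi⟩ : {i // i ∈ S}) ∈ φ f2 := hsub (by simp [hφ, hup, h1])
        simpa [hφ, hup] using this
      · have := k.2
        simp only [hE, Equiv.piEquivPiSubtypeProd, Equiv.coe_fn_symm_mk, this, dif_pos]
        exact hk1'
      · have := k.2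
        simp only [hE, Equiv.piEquivPiSubtypeProd, Equiv.coe_fn_symm_mk, this, dif_pos]
        exact hk2'
    have := hac.sperner
    rwa [Fintype.card_coe] at this
  have h1 : (univ.filter fun r : Fin n → Bool => |dotB u v a r| ≤ η).card =
      ∑ g : {i // ¬ i ∈ S} → Bool,
        (univ.filter fun f : {i // i ∈ S} → Bool => |dotB u v a (E.symm (f, g))| ≤ η).card := by
    have h2 : (univ.filter fun r : Fin n → Bool => |dotB u v a r| ≤ η).card =
        (univ.filter fun p : ({i // i ∈ S} → Bool) × ({i // ¬ i ∈ S} → Bool) =>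
          |dotB u v a (E.symm p)| ≤ η).card := by
      apply Finset.card_bij (fun r _ => E r)
      · intro r hr
        simpa using hr
      · intro r1 _ r2 _ h
        exact E.injective h
      · intro p hp
        exact ⟨E.symm p, by simpa using hp, by simp⟩
    rw [h2, Finset.card_filter, Fintype.sum_prod_type_right]
    refine Finset.sum_congr rfl fun g _ => ?_
    rw [Finset.card_filter]
  rw [h1]
  have h3 : ∑ g : {i // ¬ i ∈ S} → Bool,
        (univ.filter fun f : {i // i ∈ S} → Bool => |dotB u v a (E.symm (f, g))| ≤ η).card ≤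
      2 ^ (n - S.card) * S.card.choose (S.card / 2) := by
    refine (Finset.sum_le_sum fun g _ => hfib g).trans ?_
    rw [Finset.sum_const, smul_eq_mul, Finset.card_univ, Fintype.card_fun]
    have : Fintype.card {i // ¬ i ∈ S} = n - S.card := by
      rw [Fintype.card_subtype_compl, Fintype.card_fin, Fintype.card_coe]
    rw [this]; simp
  refine (Nat.mul_le_mul_left _ h3).trans ?_
  have hSn : S.card ≤ n := by
    have := Finset.card_le_univ S
    simpa using this
  rw [← mul_assoc, ← pow_add, Nat.add_sub_cancel' hSn]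

theorem centralBinom_sq (k : ℕ) : (2 * k + 1) * k.centralBinom ^ 2 ≤ 16 ^ k := by
  induction k with
  | zero => simp
  | succ k ih =>
    have h1 := Nat.succ_mul_centralBinom_succ k
    have h2 : (k + 1) ^ 2 * ((2 * (k + 1) + 1) * (k + 1).centralBinom ^ 2) ≤
        (k + 1) ^ 2 * 16 ^ (k + 1) := by
      calc (k + 1) ^ 2 * ((2 * (k + 1) + 1) * (k + 1).centralBinom ^ 2)
          = (2 * k + 3) * ((k + 1) * (k + 1).centralBinom) ^ 2 := by ring
        _ = (2 * k + 3) * (2 * (2 * k + 1) * k.centralBinom) ^ 2 := by rw [h1]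
        _ = (4 * (2 * k + 1) * (2 * k + 3)) * ((2 * k + 1) * k.centralBinom ^ 2) := by ring
        _ ≤ (16 * (k + 1) ^ 2) * 16 ^ k := Nat.mul_le_mul (by nlinarith) ih
        _ = (k + 1) ^ 2 * 16 ^ (k + 1) := by ring
    exact Nat.le_of_mul_le_mul_left h2 (by positivity)

/-- Averaging over one column. -/
theorem fiber_card {N : ℕ} {β : Type} [Fintype β] [DecidableEq β] (k : Fin N)
    (P : (Fin N → β) → Prop) [DecidablePred P] (B c : ℕ)
    (h : ∀ ω, c * (univ.filter fun r => P (Function.update ω k r)).card ≤ Fintype.card β * B) :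
    c * (univ.filter P).card ≤ Fintype.card (Fin N → β) * B := by
  rcases isEmpty_or_nonempty β with he | hne
  · have : IsEmpty (Fin N → β) := ⟨fun f => he.elim (f k)⟩
    simp
  have h1 : (univ.filter fun p : (Fin N → β) × β => P (Function.update p.1 k p.2)).card =
      (univ.filter fun p : (Fin N → β) × β => P p.1).card := by
    apply Finset.card_bij (fun p _ => (Function.update p.1 k p.2, p.1 k))
    · intro p hp
      simpa using hp
    · intro p _ q _ h
      rw [Prod.mk.injEq] at h
      obtain ⟨h2, h3⟩ := h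
      have h4 : p.2 = q.2 := by
        have := congrFun h2 k
        simpa using this
      have h5 : p.1 = q.1 := by
        funext i
        by_cases hi : i = k
        · subst hi; exact h3
        · have := congrFun h2 i
          rwa [Function.update_of_ne hi, Function.update_of_ne hi] at this
      exact Prod.ext h5 h4
    · intro p hp
      refine ⟨(Function.update p.1 k p.2, p.1 k), ?_, ?_⟩
      · simpa using hp
      · simp
  have h2 : (univ.filter fun p : (Fin N → β) × β => P p.1).card =
      (univ.filter P).card * Fintype.card β := by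
    have : (univ.filter fun p : (Fin N → β) × β => P p.1) = (univ.filter P) ×ˢ univ := by
      ext p; simp
    rw [this, Finset.card_product, Finset.card_univ]
  have h3 : (univ.filter fun p : (Fin N → β) × β => P (Function.update p.1 k p.2)).card =
      ∑ ω, (univ.filter fun r => P (Function.update ω k r)).card := by
    rw [Finset.card_filter, Fintype.sum_prod_type]
    refine Finset.sum_congr rfl fun ω _ => ?_
    rw [Finset.card_filter]
  have h4 : c * ((univ.filter P).card * Fintype.card β) ≤
      Fintype.card (Fin N → β) * (Fintype.card β * B) := by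
    rw [← h2, ← h1, h3, Finset.mul_sum]
    refine (Finset.sum_le_sum fun ω _ => h ω).trans ?_
    rw [Finset.sum_const, smul_eq_mul, Finset.card_univ]
  have h5 : 0 < Fintype.card β := Fintype.card_pos
  refine Nat.le_of_mul_le_mul_left ?_ h5
  calc Fintype.card β * (c * (univ.filter P).card)
      = c * ((univ.filter P).card * Fintype.card β) := by ring
    _ ≤ Fintype.card (Fin N → β) * (Fintype.card β * B) := h4
    _ = Fintype.card β * (Fintype.card (Fin N → β) * B) := by ring

/-- A normalised vector orthogonal to all rows but one. -/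
theorem exists_normal (u v : ℝ) (ω : Fin n → Fin n → Bool) (k : Fin n) :
    ∃ a : Fin n → ℝ, Nz a ∧ ∀ j, j ≠ k → dotB u v a (ω j) = 0 := by
  set M : Matrix (Fin n) (Fin n) ℝ :=
    Matrix.of fun j i => if j = k then 0 else vl u v (ω j i) with hM
  have hdet : M.det = 0 := Matrix.det_eq_zero_of_row_eq_zero k fun j => by simp [hM]
  obtain ⟨a, ha, hMa⟩ := Matrix.exists_mulVec_eq_zero_iff.2 hdet
  obtain ⟨i, _, hi⟩ := Finset.exists_max_image univ (fun i => |a i|) ⟨k, Finset.mem_univ k⟩
  have hpos : 0 < |a i| := by
    by_contra h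
    apply ha
    funext j
    have h1 := hi j (Finset.mem_univ j)
    have h2 : |a j| = 0 := le_antisymm (by linarith) (abs_nonneg _)
    simpa using h2
  refine ⟨fun j => a j / |a i|, ⟨?_, ⟨i, ?_⟩⟩, ?_⟩
  · intro j
    rw [abs_div, abs_abs, div_le_one hpos]
    exact hi j (Finset.mem_univ j)
  · rw [abs_div, abs_abs, div_self hpos.ne']
  · intro j hj
    have h1 := congrFun hMa j
    simp only [Matrix.mulVec, dotProduct, hM, Matrix.of_apply, if_neg hj, Pi.zero_apply] at h1
    unfold dotB
    have h2 : ∀ l, a l / |a i| * vl u v (ω j l) = (vl u v (ω j l) * a l) / |a i| := by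
      intro l; ring
    simp only [h2]
    rw [← Finset.sum_div, h1, zero_div]

/-- the normal vector, which does not depend on the row `k` -/
noncomputable def normal (u v : ℝ) (ω : Fin n → Fin n → Bool) (k : Fin n) : Fin n → ℝ :=
  Classical.choose (exists_normal u v (Function.update ω k fun _ => false) k)

theorem normal_nz (u v : ℝ) (ω : Fin n → Fin n → Bool) (k : Fin n) : Nz (normal u v ω k) :=
  (Classical.choose_spec (exists_normal u v (Function.update ω k fun _ => false) k)).1

theorem normal_orth (u v : ℝ) (ω : Fin n → Fin n → Bool) (k : Fin n) {j : Fin n} (hj : j ≠ k) :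
    dotB u v (normal u v ω k) (ω j) = 0 := by
  have h := (Classical.choose_spec
    (exists_normal u v (Function.update ω k fun _ => false) k)).2 j hj
  rwa [Function.update_of_ne hj] at h

theorem normal_update (u v : ℝ) (ω : Fin n → Fin n → Bool) (k : Fin n) (r : Fin n → Bool) :
    normal u v (Function.update ω k r) k = normal u v ω k := by
  unfold normal
  congr 1
  funext a
  rw [Function.update_idem]

/-- The row `k` is almost orthogonal to the normal vector of the other rows. -/
def BadRow (u v : ℝ) (η : ℝ) (k : Fin n) (ω : Fin n → Fin n → Bool) : Prop :=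
  |dotB u v (normal u v ω k) (ω k)| ≤ η

open Classical in
theorem badRow_card (hn : 0 < n) (hu : |u| ≤ 1) (hv : |v| ≤ 1) (huv : 1 ≤ |v - u|) (q : ℕ)
    {η : ℝ} (hη : 2 * η < 1 / (8 * n)) (k : Fin n) :
    ((univ.filter fun ω => BadRow u v η k ω).card : ℝ) ≤
      ((n * (16 * n + 1) : ℕ) ^ (2 * q) / 2 ^ (n - 1) + 1 / Real.sqrt (2 * q + 1)) *
        Fintype.card (Fin n → Fin n → Bool) := by
  set W := Fintype.card (Fin n → Fin n → Bool) with hW
  set J : Finset (Fin n) := univ.erase k with hJ
  have hJc : J.card = n - 1 := by rw [hJ, Finset.card_erase_of_mem (Finset.mem_univ k)]; simp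
  have h1 := comp_card (u := u) (v := v) hn hu hv huv (2 * q) J
  rw [hJc] at h1
  set L : (Fin n → Fin n → Bool) → Prop := fun ω =>
    BadRow u v η k ω ∧ 2 * q ≤ (big (normal u v ω k)).card with hL
  have h2 : 2 ^ (2 * q) * (univ.filter L).card ≤ W * (2 * q).choose q := by
    apply fiber_card k L
    intro ω
    by_cases hb : 2 * q ≤ (big (normal u v ω k)).card
    · obtain ⟨S, hSb, hSc⟩ := Finset.exists_subset_card_eq hb
      have h3 := lo_card huv (normal u v ω k) hη (by positivity) S
        (fun i hi => (Finset.mem_filter.1 (hSb hi)).2)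
      rw [hSc, Nat.mul_div_cancel_left q (by norm_num : 0 < 2)] at h3
      have h4 : Fintype.card (Fin n → Bool) = 2 ^ n := by rw [Fintype.card_fun]; simp
      rw [h4]
      refine le_trans (Nat.mul_le_mul_left _ (Finset.card_le_card ?_)) h3
      intro r hr
      rw [Finset.mem_filter] at hr ⊢
      refine ⟨Finset.mem_univ _, ?_⟩
      have := hr.2.1
      unfold BadRow at this
      rwa [normal_update, Function.update_self] at this
    · have : (univ.filter fun r => L (Function.update ω k r)) = ∅ := by
        rw [Finset.filter_eq_empty_iff]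
        intro r _ h
        apply hb
        have := h.2
        rwa [normal_update] at this
      rw [this]; simp
  have h3 : (univ.filter fun ω => BadRow u v η k ω) ⊆
      (univ.filter fun ω => Comp u v (2 * q) J ω) ∪ univ.filter L := by
    intro ω hω
    rw [Finset.mem_filter] at hω
    rw [Finset.mem_union, Finset.mem_filter, Finset.mem_filter]
    by_cases hb : 2 * q ≤ (big (normal u v ω k)).card
    · exact Or.inr ⟨Finset.mem_univ _, hω.2, hb⟩
    · refine Or.inl ⟨Finset.mem_univ _, normal u v ω k, normal_nz u v ω k, by omega, ?_⟩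
      intro j hj
      have hjk : j ≠ k := (Finset.mem_erase.1 hj).1
      rw [normal_orth u v ω k hjk]
      norm_num
  have h4 := (Finset.card_le_card h3).trans (Finset.card_union_le _ _)
  have h5 : ((univ.filter fun ω => Comp u v (2 * q) J ω).card : ℝ) ≤
      (n * (16 * n + 1) : ℕ) ^ (2 * q) / 2 ^ (n - 1) * W := by
    rw [div_mul_eq_mul_div, le_div_iff₀ (by positivity), mul_comm]
    exact_mod_cast h1
  have h6 : ((univ.filter L).card : ℝ) ≤ 1 / Real.sqrt (2 * q + 1) * W := by
    have h7 : (2 : ℝ) ^ (2 * q) * (univ.filter L).card ≤ W * (2 * q).choose q := by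
      exact_mod_cast h2
    have h8 : Real.sqrt (2 * q + 1) * ((2 * q).choose q : ℝ) ≤ 2 ^ (2 * q) := by
      have h9 := centralBinom_sq q
      rw [Nat.centralBinom_eq_two_mul_choose] at h9
      have h10 : ((2 : ℝ) * q + 1) * ((2 * q).choose q : ℝ) ^ 2 ≤ 16 ^ q := by exact_mod_cast h9
      have h11 : (Real.sqrt (2 * q + 1) * ((2 * q).choose q : ℝ)) ^ 2 ≤ (2 ^ (2 * q)) ^ 2 := by
        rw [mul_pow, Real.sq_sqrt (by positivity)]
        refine h10.trans (le_of_eq ?_)
        rw [← pow_mul, show 2 * q * 2 = 4 * q by ring, pow_mul]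
        norm_num
      exact (abs_le_of_sq_le_sq' h11 (by positivity)).2
    have hs : 0 < Real.sqrt (2 * q + 1) := Real.sqrt_pos.2 (by positivity)
    rw [div_mul_eq_mul_div, one_mul, le_div_iff₀ hs]
    have h12 : (2 : ℝ) ^ (2 * q) * ((univ.filter L).card * Real.sqrt (2 * q + 1)) ≤
        2 ^ (2 * q) * W := by
      calc (2 : ℝ) ^ (2 * q) * ((univ.filter L).card * Real.sqrt (2 * q + 1))
          = (2 : ℝ) ^ (2 * q) * (univ.filter L).card * Real.sqrt (2 * q + 1) := by ring
        _ ≤ W * (2 * q).choose q * Real.sqrt (2 * q + 1) :=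
            mul_le_mul_of_nonneg_right h7 hs.le
        _ = W * (Real.sqrt (2 * q + 1) * (2 * q).choose q) := by ring
        _ ≤ W * 2 ^ (2 * q) := mul_le_mul_of_nonneg_left h8 (by positivity)
        _ = 2 ^ (2 * q) * W := by ring
    exact le_of_mul_le_mul_left h12 (by positivity)
  have h7 : ((univ.filter fun ω => BadRow u v η k ω).card : ℝ) ≤
      (univ.filter fun ω => Comp u v (2 * q) J ω).card + (univ.filter L).card := by
    exact_mod_cast h4
  rw [add_mul]
  linarith

end Pool.Agent.H394R3
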