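import Pool.Agent.H394R3.Bool2

set_option autoImplicit false

/-!
# Boolean matrices: the probability of an almost null vector
-/

namespace Pool.Agent.H394R3

open Finset Filter Topology

variable {n : ℕ} {u v : ℝ}

/-- The matrix with the columns `ω j` almost annihilates a normalised vector. -/
def BadMat (u v : ℝ) (ω : Fin n → Fin n → Bool) : Prop :=
  ∃ x : Fin n → ℝ, Nz x ∧ ∀ i, |∑ j, vl u v (ω j i) * x j| ≤ 1 / (256 * n ^ 3)

theorem bad_split (hn : 0 < n) (m : ℕ) {ω : Fin n → Fin n → Bool} (h : BadMat u v ω) :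
    Comp u v m univ (fun i j => ω j i) ∨
      ∃ S : Finset (Fin n), m ≤ S.card ∧ ∀ k ∈ S, BadRow u v (1 / (32 * n)) k ω := by
  obtain ⟨x, hx, hxi⟩ := h
  have hn0 : (1 : ℝ) ≤ n := by exact_mod_cast hn
  by_cases hb : (big x).card ≤ m
  · left
    refine ⟨x, hx, hb, fun i _ => ?_⟩
    have h1 : dotB u v x (fun j => ω j i) = ∑ j, vl u v (ω j i) * x j := by
      unfold dotB
      exact Finset.sum_congr rfl fun j _ => mul_comm _ _
    rw [h1]
    refine (hxi i).trans_lt ?_
    rw [div_lt_div_iff₀ (by positivity) (by norm_num)]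
    have : (1 : ℝ) ≤ n ^ 3 := one_le_pow₀ hn0
    linarith
  · right
    refine ⟨big x, by omega, fun k hk => ?_⟩
    have hxk : 1 / (8 * (n : ℝ)) ≤ |x k| := (Finset.mem_filter.1 hk).2
    set a := normal u v ω k with ha
    have h1 : dotB u v a (ω k) * x k = ∑ i, a i * ∑ j, vl u v (ω j i) * x j := by
      calc dotB u v a (ω k) * x k = ∑ j, dotB u v a (ω j) * x j := by
            rw [Finset.sum_eq_single k]
            · intro j _ hj
              rw [ha, normal_orth u v ω k hj, zero_mul]
            · intro h; exact absurd (Finset.mem_univ k) h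
        _ = ∑ i, a i * ∑ j, vl u v (ω j i) * x j := by
            unfold dotB
            simp only [Finset.sum_mul, Finset.mul_sum]
            rw [Finset.sum_comm]
            refine Finset.sum_congr rfl fun i _ => Finset.sum_congr rfl fun j _ => ?_
            ring
    have h2 : |dotB u v a (ω k) * x k| ≤ n * (1 / (256 * n ^ 3)) := by
      rw [h1]
      refine (Finset.abs_sum_le_sum_abs _ _).trans ?_
      have h3 : ∀ i ∈ (univ : Finset (Fin n)), |a i * ∑ j, vl u v (ω j i) * x j| ≤
          1 / (256 * n ^ 3) := by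
        intro i _
        rw [abs_mul]
        have h4 := (normal_nz u v ω k).1 i
        rw [← ha] at h4
        have h5 := hxi i
        calc |a i| * |∑ j, vl u v (ω j i) * x j| ≤ 1 * |∑ j, vl u v (ω j i) * x j| :=
              mul_le_mul_of_nonneg_right h4 (abs_nonneg _)
          _ ≤ 1 / (256 * n ^ 3) := by rw [one_mul]; exact h5
      refine (Finset.sum_le_sum h3).trans ?_
      simp
    unfold BadRow
    rw [← ha]
    rw [abs_mul] at h2
    have h3 : |dotB u v a (ω k)| * (1 / (8 * (n : ℝ))) ≤ n * (1 / (256 * n ^ 3)) :=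
      (mul_le_mul_of_nonneg_left hxk (abs_nonneg _)).trans h2
    have h4 : |dotB u v a (ω k)| = |dotB u v a (ω k)| * (1 / (8 * (n : ℝ))) * (8 * n) := by
      field_simp
    rw [h4]
    refine (mul_le_mul_of_nonneg_right h3 (by positivity)).trans (le_of_eq ?_)
    field_simp
    norm_num

open Classical in
theorem badMat_card (hn : 0 < n) (hu : |u| ≤ 1) (hv : |v| ≤ 1) (huv : 1 ≤ |v - u|) {q : ℕ}
    (hq : 0 < q) :
    ((univ.filter fun ω : Fin n → Fin n → Bool => BadMat u v ω).card : ℝ) ≤
      ((n * (16 * n + 1) : ℕ) ^ (2 * q) / 2 ^ n + n / (2 * q) *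
        ((n * (16 * n + 1) : ℕ) ^ (2 * q) / 2 ^ (n - 1) + 1 / Real.sqrt (2 * q + 1))) *
        Fintype.card (Fin n → Fin n → Bool) := by
  set W := Fintype.card (Fin n → Fin n → Bool) with hW
  set η : ℝ := 1 / (32 * n) with hη
  have hn0 : (0 : ℝ) < n := by exact_mod_cast hn
  set S1 := univ.filter fun ω : Fin n → Fin n → Bool => Comp u v (2 * q) univ (fun i j => ω j i)
    with hS1
  set S2 := univ.filter fun ω : Fin n → Fin n → Bool =>
    2 * q ≤ (univ.filter fun k => BadRow u v η k ω).card with hS2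
  have h1 : (univ.filter fun ω : Fin n → Fin n → Bool => BadMat u v ω) ⊆ S1 ∪ S2 := by
    intro ω hω
    rw [Finset.mem_filter] at hω
    rw [Finset.mem_union, hS1, hS2, Finset.mem_filter, Finset.mem_filter]
    rcases bad_split hn (2 * q) hω.2 with h | ⟨S, hS, hk⟩
    · exact Or.inl ⟨Finset.mem_univ _, h⟩
    · refine Or.inr ⟨Finset.mem_univ _, hS.trans (Finset.card_le_card ?_)⟩
      intro k hkS
      rw [Finset.mem_filter]
      exact ⟨Finset.mem_univ _, hk k hkS⟩
  have h2 : (S1.card : ℝ) ≤ (n * (16 * n + 1) : ℕ) ^ (2 * q) / 2 ^ n * W := by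
    have h3 : S1.card = (univ.filter fun ω : Fin n → Fin n → Bool =>
        Comp u v (2 * q) univ ω).card := by
      apply Finset.card_bij (fun ω _ => fun i j => ω j i)
      · intro ω hω
        rw [hS1, Finset.mem_filter] at hω
        rw [Finset.mem_filter]
        exact ⟨Finset.mem_univ _, hω.2⟩
      · intro ω1 _ ω2 _ h
        funext i j
        exact congrFun (congrFun h j) i
      · intro ω hω
        rw [Finset.mem_filter] at hω
        exact ⟨fun i j => ω j i, by rw [hS1, Finset.mem_filter]; exact ⟨Finset.mem_univ _, hω.2⟩,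
          rfl⟩
    have h4 := comp_card (u := u) (v := v) hn hu hv huv (2 * q) (univ : Finset (Fin n))
    rw [Finset.card_univ, Fintype.card_fin, ← h3] at h4
    rw [div_mul_eq_mul_div, le_div_iff₀ (by positivity), mul_comm]
    exact_mod_cast h4
  have h3 : (2 * q) * S2.card ≤ ∑ k : Fin n, (univ.filter fun ω => BadRow u v η k ω).card := by
    have h4 : ∑ k : Fin n, (univ.filter fun ω => BadRow u v η k ω).card =
        ∑ ω : Fin n → Fin n → Bool, (univ.filter fun k => BadRow u v η k ω).card := by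
      simp only [Finset.card_filter]
      rw [Finset.sum_comm]
    rw [h4]
    calc (2 * q) * S2.card = ∑ ω ∈ S2, 2 * q := by rw [Finset.sum_const, smul_eq_mul, mul_comm]
      _ ≤ ∑ ω ∈ S2, (univ.filter fun k => BadRow u v η k ω).card :=
          Finset.sum_le_sum fun ω hω => (Finset.mem_filter.1 hω).2
      _ ≤ ∑ ω : Fin n → Fin n → Bool, (univ.filter fun k => BadRow u v η k ω).card :=
          Finset.sum_le_sum_of_subset (Finset.subset_univ _)
  have hη2 : 2 * η < 1 / (8 * n) := by
    rw [hη, mul_one_div, div_lt_div_iff₀ (by positivity) (by positivity)]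
    linarith
  set Y : ℝ := (n * (16 * n + 1) : ℕ) ^ (2 * q) / 2 ^ (n - 1) + 1 / Real.sqrt (2 * q + 1) with hY
  have h4 : ((2 * q : ℕ) : ℝ) * S2.card ≤ n * (Y * W) := by
    calc ((2 * q : ℕ) : ℝ) * S2.card
        ≤ ∑ k : Fin n, ((univ.filter fun ω => BadRow u v η k ω).card : ℝ) := by exact_mod_cast h3
      _ ≤ ∑ _k : Fin n, Y * W :=
          Finset.sum_le_sum fun k _ => badRow_card hn hu hv huv q hη2 k
      _ = n * (Y * W) := by simp
  have hq0 : (0 : ℝ) < 2 * q := by positivity
  have h5 : (S2.card : ℝ) ≤ n / (2 * q) * Y * W := by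
    rw [mul_assoc, div_mul_eq_mul_div, le_div_iff₀ hq0, mul_comm]
    push_cast at h4
    exact h4
  have h6 : ((univ.filter fun ω : Fin n → Fin n → Bool => BadMat u v ω).card : ℝ) ≤
      S1.card + S2.card := by
    exact_mod_cast (Finset.card_le_card h1).trans (Finset.card_union_le _ _)
  rw [add_mul]
  linarith

/-- the bound for the probability of a bad matrix -/
noncomputable def badBound (n q : ℕ) : ℝ :=
  (n * (16 * n + 1) : ℕ) ^ (2 * q) / 2 ^ n + n / (2 * q) *
        ((n * (16 * n + 1) : ℕ) ^ (2 * q) / 2 ^ (n - 1) + 1 / Real.sqrt (2 * q + 1))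

end Pool.Agent.H394R3
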