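import Pool.Agent.H394R3.Bool3

set_option autoImplicit false

/-!
# The bound for the probability of a bad matrix tends to zero
-/

namespace Pool.Agent.H394R3

open Finset Filter Topology

/-- about the fourth root of `n` -/
def rt (n : ℕ) : ℕ := Nat.sqrt (Nat.sqrt n)

theorem rt_le (n : ℕ) : rt n ^ 4 ≤ n := by
  have h1 : rt n ^ 2 ≤ Nat.sqrt n := Nat.sqrt_le' _
  have h2 : Nat.sqrt n ^ 2 ≤ n := Nat.sqrt_le' _
  calc rt n ^ 4 = (rt n ^ 2) ^ 2 := by ring
    _ ≤ Nat.sqrt n ^ 2 := Nat.pow_le_pow_left h1 2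
    _ ≤ n := h2

theorem lt_rt (n : ℕ) : n < (rt n + 1) ^ 4 := by
  have h1 : Nat.sqrt n < (rt n + 1) ^ 2 := Nat.lt_succ_sqrt' _
  have h2 : n < (Nat.sqrt n + 1) ^ 2 := Nat.lt_succ_sqrt' _
  calc n < (Nat.sqrt n + 1) ^ 2 := h2
    _ ≤ ((rt n + 1) ^ 2) ^ 2 := Nat.pow_le_pow_left h1 2
    _ = (rt n + 1) ^ 4 := by ring

theorem tendsto_rt : Tendsto rt atTop atTop := by
  rw [tendsto_atTop_atTop]
  intro b
  refine ⟨b ^ 4, fun n hn => ?_⟩
  unfold rt
  rw [Nat.le_sqrt', Nat.le_sqrt']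
  calc (b ^ 2) ^ 2 = b ^ 4 := by ring
    _ ≤ n := hn

theorem pow_small : ∀ᶠ t : ℕ in atTop, (4352 * t ^ 8) ^ 4 ≤ 2 ^ t := by
  have h := tendsto_pow_const_div_const_pow_of_one_lt 32 (show (1 : ℝ) < 2 by norm_num)
  have h1 : ∀ᶠ t : ℕ in atTop, (t : ℝ) ^ 32 / 2 ^ t < 1 / 4352 ^ 4 :=
    h.eventually (gt_mem_nhds (by norm_num))
  filter_upwards [h1] with t ht
  rw [div_lt_div_iff₀ (by positivity) (by norm_num), one_mul] at ht
  have h2 : ((4352 * t ^ 8 : ℕ) : ℝ) ^ 4 ≤ 2 ^ t := by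
    push_cast
    calc (4352 * (t : ℝ) ^ 8) ^ 4 = t ^ 32 * 4352 ^ 4 := by ring
      _ ≤ 2 ^ t := ht.le
  exact_mod_cast h2

theorem tendsto_badBound : Tendsto (fun n => badBound n (rt n ^ 3)) atTop (𝓝 0) := by
  have hs2 : (1 : ℝ) < Real.sqrt 2 := by
    rw [show (1 : ℝ) = Real.sqrt 1 by simp]
    exact Real.sqrt_lt_sqrt (by norm_num) (by norm_num)
  have hr0 : 0 ≤ 1 / Real.sqrt 2 := by positivity
  have hr1 : 1 / Real.sqrt 2 < 1 := by rw [div_lt_one (by positivity)]; exact hs2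
  have hlim : Tendsto (fun n : ℕ => ((1 / Real.sqrt 2) ^ n + 2 * (n * (1 / Real.sqrt 2) ^ n)) +
      8 / Real.sqrt (rt n)) atTop (𝓝 0) := by
    have a1 := tendsto_pow_atTop_nhds_zero_of_lt_one hr0 hr1
    have a2 := (tendsto_self_mul_const_pow_of_lt_one hr0 hr1).const_mul 2
    have a3 : Tendsto (fun n : ℕ => 8 / Real.sqrt (rt n)) atTop (𝓝 0) := by
      apply Tendsto.div_atTop tendsto_const_nhds
      exact Real.tendsto_sqrt_atTop.comp (tendsto_natCast_atTop_atTop.comp tendsto_rt)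
    have := (a1.add a2).add a3
    simpa using this
  refine squeeze_zero' ?_ ?_ hlim
  · filter_upwards with n
    unfold badBound; positivity
  · filter_upwards [tendsto_rt.eventually pow_small, tendsto_rt.eventually (eventually_ge_atTop 1),
      eventually_ge_atTop 1] with n h1 h2 h3
    set t := rt n with ht
    have hn0 : (1 : ℝ) ≤ n := by exact_mod_cast h3
    have ht0 : (1 : ℝ) ≤ t := by exact_mod_cast h2
    have hnt : n ≤ 16 * t ^ 4 := by
      have := lt_rt n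
      rw [← ht] at this
      have h4 : (t + 1) ^ 4 ≤ (2 * t) ^ 4 := Nat.pow_le_pow_left (by omega) 4
      have h5 : (2 * t) ^ 4 = 16 * t ^ 4 := by ring
      omega
    have htn : t ^ 4 ≤ n := rt_le n
    set X : ℝ := ((n * (16 * n + 1) : ℕ) : ℝ) ^ (2 * t ^ 3) with hX
    have hX2 : X ^ 2 ≤ 2 ^ n := by
      have h4 : n * (16 * n + 1) ≤ 4352 * t ^ 8 := by
        calc n * (16 * n + 1) ≤ n * (17 * n) := Nat.mul_le_mul le_rfl (by omega)
          _ = 17 * n ^ 2 := by ring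
          _ ≤ 17 * (16 * t ^ 4) ^ 2 := Nat.mul_le_mul le_rfl (Nat.pow_le_pow_left hnt 2)
          _ = 4352 * t ^ 8 := by ring
      have h5 : ((n * (16 * n + 1)) ^ (2 * t ^ 3)) ^ 2 ≤ 2 ^ n := by
        calc ((n * (16 * n + 1)) ^ (2 * t ^ 3)) ^ 2
            ≤ ((4352 * t ^ 8) ^ (2 * t ^ 3)) ^ 2 :=
              Nat.pow_le_pow_left (Nat.pow_le_pow_left h4 _) 2
          _ = ((4352 * t ^ 8) ^ 4) ^ (t ^ 3) := by
              rw [← pow_mul, ← pow_mul]; congr 1; ring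
          _ ≤ (2 ^ t) ^ (t ^ 3) := Nat.pow_le_pow_left h1 _
          _ = 2 ^ (t ^ 4) := by rw [← pow_mul]; congr 1; ring
          _ ≤ 2 ^ n := Nat.pow_le_pow_right (by norm_num) htn
      rw [hX]; exact_mod_cast h5
    have hXs : X ≤ Real.sqrt 2 ^ n := by
      refine (abs_le_of_sq_le_sq' (hX2.trans (le_of_eq ?_)) (by positivity)).2
      rw [← pow_mul, mul_comm n 2, pow_mul, Real.sq_sqrt (by norm_num)]
    have h2n : (2 : ℝ) ^ n = Real.sqrt 2 ^ n * Real.sqrt 2 ^ n := by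
      rw [← mul_pow, Real.mul_self_sqrt (by norm_num)]
    have hsp : 0 < Real.sqrt 2 ^ n := by positivity
    have e1 : X / 2 ^ n ≤ (1 / Real.sqrt 2) ^ n := by
      rw [div_pow, one_pow, div_le_div_iff₀ (by positivity) hsp, h2n, one_mul]
      exact mul_le_mul_of_nonneg_right hXs hsp.le
    have e2 : X / 2 ^ (n - 1) ≤ 2 * (1 / Real.sqrt 2) ^ n := by
      have : (2 : ℝ) ^ n = 2 ^ (n - 1) * 2 := by
        rw [← pow_succ]; congr 1; omega
      rw [this] at e1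
      have h4 : X / (2 ^ (n - 1) * 2) = X / 2 ^ (n - 1) / 2 := by rw [div_div]
      rw [h4] at e1
      linarith
    have h6 : (t : ℝ) ^ 3 ≥ 1 := one_le_pow₀ ht0
    have e3 : (n : ℝ) / (2 * (t ^ 3 : ℕ)) ≤ n := by
      apply div_le_self (by positivity)
      push_cast; linarith
    have e4 : (n : ℝ) / (2 * (t ^ 3 : ℕ)) ≤ 8 * t := by
      rw [div_le_iff₀ (by positivity)]
      have : (n : ℝ) ≤ 16 * t ^ 4 := by exact_mod_cast hnt
      push_cast
      calc (n : ℝ) ≤ 16 * t ^ 4 := this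
        _ = 8 * t * (2 * t ^ 3) := by ring
    have hst : 0 < Real.sqrt t := Real.sqrt_pos.2 (by linarith)
    have e5 : 1 / Real.sqrt (2 * (t ^ 3 : ℕ) + 1) ≤ 1 / (t * Real.sqrt t) := by
      apply one_div_le_one_div_of_le (by positivity)
      apply Real.le_sqrt_of_sq_le
      rw [mul_pow, Real.sq_sqrt (by linarith)]
      push_cast
      have h7 : (t : ℝ) ^ 2 * t = t ^ 3 := by ring
      rw [h7]; linarith
    unfold badBound
    rw [← hX]
    have hY0 : 0 ≤ X / 2 ^ (n - 1) := by positivity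
    calc X / 2 ^ n + n / (2 * (t ^ 3 : ℕ)) * (X / 2 ^ (n - 1) +
          1 / Real.sqrt (2 * (t ^ 3 : ℕ) + 1))
        = X / 2 ^ n + (n / (2 * (t ^ 3 : ℕ)) * (X / 2 ^ (n - 1)) +
          n / (2 * (t ^ 3 : ℕ)) * (1 / Real.sqrt (2 * (t ^ 3 : ℕ) + 1))) := by ring
      _ ≤ (1 / Real.sqrt 2) ^ n + (n * (2 * (1 / Real.sqrt 2) ^ n) +
          (8 * t) * (1 / (t * Real.sqrt t))) := by
          gcongr
      _ = ((1 / Real.sqrt 2) ^ n + 2 * (n * (1 / Real.sqrt 2) ^ n)) + 8 / Real.sqrt t := by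
          have : (8 * (t : ℝ)) * (1 / (t * Real.sqrt t)) = 8 / Real.sqrt t := by
            field_simp
          rw [this]; ring

end Pool.Agent.H394R3
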