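import Pool.Agent.H394R3.Solver

set_option autoImplicit false

/-!
# Singular values and the cost of the solver
-/

namespace Pool.Agent.H394R3

open Matrix
open scoped Matrix.Norms.L2Operator

variable {n : ℕ}

theorem norm_sq_eq (A : Matrix (Fin n) (Fin n) ℝ) (x : EuclideanSpace ℝ (Fin n)) :
    ‖Matrix.toEuclideanLin A x‖ ^ 2 = ∑ i : Fin n, sv A i ^ 2 *
      ((Matrix.toEuclideanLin A).isSymmetric_adjoint_comp_self.eigenvectorBasis
        (finrank_euclideanSpace_fin (𝕜 := ℝ) (n := n)) |>.repr x i) ^ 2 := by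
  set T := Matrix.toEuclideanLin A with hT
  have hn : Module.finrank ℝ (EuclideanSpace ℝ (Fin n)) = n := finrank_euclideanSpace_fin
  set hS := T.isSymmetric_adjoint_comp_self with hS'
  set e := hS.eigenvectorBasis hn with he
  have h1 : ‖T x‖ ^ 2 = inner ℝ ((T.adjoint ∘ₗ T) x) x := by
    rw [LinearMap.comp_apply, LinearMap.adjoint_inner_left, real_inner_self_eq_norm_sq]
  rw [h1]
  have h2 : inner ℝ ((T.adjoint ∘ₗ T) x) x =
      ∑ i, inner ℝ ((T.adjoint ∘ₗ T) x) (e i) * inner ℝ (e i) x := by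
    rw [e.sum_inner_mul_inner]
  rw [h2]
  refine Finset.sum_congr rfl fun i _ => ?_
  have h3 : inner ℝ ((T.adjoint ∘ₗ T) x) (e i) = sv A i ^ 2 * inner ℝ x (e i) := by
    rw [hS x (e i), hS.apply_eigenvectorBasis hn i, inner_smul_right, sv,
      T.sq_singularValues_fin hn i]
    rfl
  rw [h3, e.repr_apply_apply, real_inner_comm x (e i)]
  ring

theorem sum_repr_sq (A : Matrix (Fin n) (Fin n) ℝ) (x : EuclideanSpace ℝ (Fin n)) :
    ∑ i : Fin n, ((Matrix.toEuclideanLin A).isSymmetric_adjoint_comp_self.eigenvectorBasis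
        (finrank_euclideanSpace_fin (𝕜 := ℝ) (n := n)) |>.repr x i) ^ 2 = ‖x‖ ^ 2 := by
  set e := (Matrix.toEuclideanLin A).isSymmetric_adjoint_comp_self.eigenvectorBasis
        (finrank_euclideanSpace_fin (𝕜 := ℝ) (n := n))
  rw [← e.repr.norm_map x, EuclideanSpace.norm_sq_eq]
  simp

theorem sv_nonneg (A : Matrix (Fin n) (Fin n) ℝ) (i : ℕ) : 0 ≤ sv A i :=
  LinearMap.singularValues_nonneg _ _

theorem sv_anti (A : Matrix (Fin n) (Fin n) ℝ) {i j : ℕ} (h : i ≤ j) : sv A j ≤ sv A i :=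
  LinearMap.singularValues_antitone _ h

theorem nrm_mulVec_le_sv (A : Matrix (Fin n) (Fin n) ℝ) (x : Fin n → ℝ) :
    nrm (A *ᵥ x) ≤ sv A 0 * nrm x := by
  rw [nrm_eq, nrm_eq]
  have h := norm_sq_eq A (WithLp.toLp 2 x)
  have h' := sum_repr_sq A (WithLp.toLp 2 x)
  have e1 : Matrix.toEuclideanLin A (WithLp.toLp 2 x) = WithLp.toLp 2 (A *ᵥ x) := rfl
  rw [e1] at h
  refine (abs_le_of_sq_le_sq' ?_ (mul_nonneg (sv_nonneg A 0) (norm_nonneg _))).2
  rw [h, mul_pow, ← h', Finset.mul_sum]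
  refine Finset.sum_le_sum fun i _ => ?_
  apply mul_le_mul_of_nonneg_right _ (sq_nonneg _)
  exact pow_le_pow_left₀ (sv_nonneg A i) (sv_anti A (Nat.zero_le _)) 2

theorem sv_le_nrm_mulVec (A : Matrix (Fin n) (Fin n) ℝ) (x : Fin n → ℝ) :
    sv A (n - 1) * nrm x ≤ nrm (A *ᵥ x) := by
  rw [nrm_eq, nrm_eq]
  have h := norm_sq_eq A (WithLp.toLp 2 x)
  have h' := sum_repr_sq A (WithLp.toLp 2 x)
  have e1 : Matrix.toEuclideanLin A (WithLp.toLp 2 x) = WithLp.toLp 2 (A *ᵥ x) := rfl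
  rw [e1] at h
  refine (abs_le_of_sq_le_sq' ?_ (norm_nonneg _)).2
  rw [h, mul_pow, ← h', Finset.mul_sum]
  refine Finset.sum_le_sum fun i _ => ?_
  apply mul_le_mul_of_nonneg_right _ (sq_nonneg _)
  exact pow_le_pow_left₀ (sv_nonneg A _) (sv_anti A (by have := i.2; omega)) 2

theorem sv_pos {A : Matrix (Fin n) (Fin n) ℝ} (hA : IsUnit A.det) {i : ℕ} (hi : i < n) :
    0 < sv A i := by
  unfold sv
  refine (LinearMap.injective_iff_forall_lt_finrank_singularValues_pos _).1 ?_ i ?_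
  · intro x y hxy
    have h1 : A *ᵥ (WithLp.ofLp x) = A *ᵥ (WithLp.ofLp y) := by
      have : WithLp.toLp 2 (A *ᵥ (WithLp.ofLp x)) = (WithLp.toLp 2 (A *ᵥ (WithLp.ofLp y)) :
          EuclideanSpace ℝ (Fin n)) := hxy
      exact (WithLp.toLp_injective 2) this
    have h2 := congrArg (fun v => A⁻¹ *ᵥ v) h1
    simp only [Matrix.mulVec_mulVec, Matrix.nonsing_inv_mul A hA, Matrix.one_mulVec] at h2
    exact WithLp.ofLp_injective 2 h2
  · rw [finrank_euclideanSpace_fin]; exact hi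

theorem norm_le_sv (A : Matrix (Fin n) (Fin n) ℝ) : ‖A‖ ≤ sv A 0 :=
  norm_le_of_forall A (sv_nonneg A 0) (nrm_mulVec_le_sv A)

theorem norm_inv_le {A : Matrix (Fin n) (Fin n) ℝ} (hn : 1 ≤ n) (hA : IsUnit A.det) :
    ‖A⁻¹‖ ≤ 1 / sv A (n - 1) := by
  have hp := sv_pos hA (show n - 1 < n by omega)
  apply norm_le_of_forall _ (by positivity)
  intro x
  have h := sv_le_nrm_mulVec A (A⁻¹ *ᵥ x)
  rw [Matrix.mulVec_mulVec, Matrix.mul_nonsing_inv A hA, Matrix.one_mulVec] at h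
  rw [div_mul_eq_mul_div, one_mul, le_div_iff₀ hp]
  linarith

theorem one_le_kappaBar {p : ℝ} (hp : 0 < p) {A : Matrix (Fin n) (Fin n) ℝ} (hn : 1 ≤ n)
    (hA : IsUnit A.det) : 1 ≤ kappaBar p A := by
  have h0 := sv_pos hA (show n - 1 < n by omega)
  unfold kappaBar
  apply Real.one_le_rpow _ (by positivity)
  have h1 : (n : ℝ) ≤ ∑ i ∈ Finset.range n, (sv A i / sv A (n - 1)) ^ p := by
    calc (n : ℝ) = ∑ _i ∈ Finset.range n, (1 : ℝ) := by simp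
      _ ≤ _ := by
        refine Finset.sum_le_sum fun i hi => ?_
        apply Real.one_le_rpow _ hp.le
        rw [le_div_iff₀ h0, one_mul]
        exact sv_anti A (by have := Finset.mem_range.1 hi; omega)
  have hn0 : (0 : ℝ) < n := by exact_mod_cast hn
  rw [one_div, inv_mul_eq_div, le_div_iff₀ hn0, one_mul]
  exact h1

theorem kappa_le {p : ℝ} (hp : 0 < p) {A : Matrix (Fin n) (Fin n) ℝ} (hn : 1 ≤ n)
    (hA : IsUnit A.det) : sv A 0 / sv A (n - 1) ≤ (n : ℝ) ^ (1 / p) * kappaBar p A := by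
  have h0 := sv_pos hA (show n - 1 < n by omega)
  have hn0 : (0 : ℝ) < n := by exact_mod_cast hn
  have hx : 0 ≤ sv A 0 / sv A (n - 1) := div_nonneg (sv_nonneg A 0) h0.le
  have hS : (sv A 0 / sv A (n - 1)) ^ p ≤
      ∑ i ∈ Finset.range n, (sv A i / sv A (n - 1)) ^ p := by
    refine Finset.single_le_sum (f := fun i => (sv A i / sv A (n - 1)) ^ p) ?_
      (Finset.mem_range.2 hn)
    intro i _
    exact Real.rpow_nonneg (div_nonneg (sv_nonneg A i) h0.le) _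
  unfold kappaBar
  have hS0 : 0 ≤ 1 / (n : ℝ) * ∑ i ∈ Finset.range n, (sv A i / sv A (n - 1)) ^ p :=
    mul_nonneg (by positivity) (Finset.sum_nonneg fun i _ =>
      Real.rpow_nonneg (div_nonneg (sv_nonneg A i) h0.le) _)
  rw [← Real.mul_rpow hn0.le hS0]
  have e1 : (n : ℝ) * (1 / n * ∑ i ∈ Finset.range n, (sv A i / sv A (n - 1)) ^ p) =
      ∑ i ∈ Finset.range n, (sv A i / sv A (n - 1)) ^ p := by
    field_simp
  rw [e1]
  calc sv A 0 / sv A (n - 1) = ((sv A 0 / sv A (n - 1)) ^ p) ^ (1 / p) := by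
        rw [← Real.rpow_mul hx, mul_one_div, div_self hp.ne', Real.rpow_one]
    _ ≤ _ := Real.rpow_le_rpow (Real.rpow_nonneg hx _) hS (by positivity)

/-- A natural number `Λ` with `y ≤ 2 ^ Λ` and `Λ ≤ 2 log y + 1`. -/
theorem exists_pow {y : ℝ} (hy : 1 ≤ y) : ∃ Λ : ℕ, y ≤ 2 ^ Λ ∧ (Λ : ℝ) ≤ 2 * Real.log y + 1 := by
  refine ⟨⌈Real.log y / Real.log 2⌉₊, ?_, ?_⟩
  · have h2 : 0 < Real.log 2 := Real.log_pos (by norm_num)
    have h3 : Real.log y / Real.log 2 ≤ ⌈Real.log y / Real.log 2⌉₊ := Nat.le_ceil _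
    rw [div_le_iff₀ h2] at h3
    have h4 : Real.log y ≤ Real.log (2 ^ ⌈Real.log y / Real.log 2⌉₊) := by
      rw [Real.log_pow]; exact h3
    exact (Real.log_le_log_iff (by linarith) (by positivity)).1 h4
  · have hl : 0 ≤ Real.log y := Real.log_nonneg hy
    have h2 : (1 : ℝ) / 2 < Real.log 2 := by
      have := Real.log_two_gt_d9; linarith
    have h3 : Real.log y / Real.log 2 ≤ 2 * Real.log y := by
      rw [div_le_iff₀ (by linarith)]
      nlinarith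
    have := (Nat.ceil_lt_add_one (show 0 ≤ Real.log y / Real.log 2 by positivity)).le
    linarith

/-- The general form of the result on the solver: the number of steps is at most a constant times
`n ^ 2 (1 + log n + log (1 / ε) + log κ) ^ 3`, where `κ` is at least the condition number. -/
theorem solve_log_gen {n : ℕ} (hn : 1 ≤ n) (A : Matrix (Fin n) (Fin n) ℝ) (hA : IsUnit A.det)
    (b : Fin n → ℝ) {ε κ : ℝ} (hε : 0 < ε) (hε1 : ε < 1) (hκ : 1 ≤ κ)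
    (hκA : ‖A‖ * ‖A⁻¹‖ ≤ κ)
    (σ0 : Mem) (hA0 : toM n (σ0 0) = A) (hb0 : ∀ i : Fin n, σ0 1 i 0 = b i)
    (hε0 : σ0 2 0 0 = ε) :
    ∃ σ t, Exec n 0 cSolve σ0 σ t ∧
      nrm (A *ᵥ outputVec n σ - b) ≤ ε * nrm b ∧
      nrm (outputVec n σ - A⁻¹ *ᵥ b) ≤ ε * nrm (A⁻¹ *ᵥ b) ∧
      (t : ℝ) ≤ 10 ^ 10 * (n ^ 2 * (1 + Real.log n + Real.log (1 / ε) + Real.log κ) ^ 3) := by
  have hn0 : (1 : ℝ) ≤ n := by exact_mod_cast hn
  have hie : 1 ≤ 1 / ε := by rw [le_div_iff₀ hε]; linarith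
  set y : ℝ := n ^ 2 * (1 / ε) * κ with hy
  have hn2 : (1 : ℝ) ≤ n ^ 2 := one_le_pow₀ hn0
  have h1 : 1 ≤ (n : ℝ) ^ 2 * (1 / ε) := by nlinarith
  have hy1 : 1 ≤ y := by rw [hy]; nlinarith
  obtain ⟨Λ, hΛ, hΛ'⟩ := exists_pow hy1
  have hn3 : (n : ℝ) ≤ n ^ 2 := by nlinarith
  have k1 : (n : ℝ) ≤ y := by
    rw [hy]
    calc (n : ℝ) ≤ n ^ 2 := hn3
      _ ≤ n ^ 2 * (1 / ε) := by nlinarith
      _ ≤ n ^ 2 * (1 / ε) * κ := by nlinarith
  have k2 : S1 A * ‖A⁻¹‖ ≤ y := by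
    have h2 := S1_le_norm A
    calc S1 A * ‖A⁻¹‖ ≤ (n * n * ‖A‖) * ‖A⁻¹‖ := mul_le_mul_of_nonneg_right h2 (norm_nonneg _)
      _ = n ^ 2 * (‖A‖ * ‖A⁻¹‖) := by ring
      _ ≤ n ^ 2 * κ := mul_le_mul_of_nonneg_left hκA (by positivity)
      _ ≤ n ^ 2 * κ * (1 / ε) := le_mul_of_one_le_right (by positivity) hie
      _ = y := by rw [hy]; ring
  have k3 : 1 / ε ≤ y := by
    rw [hy]
    calc 1 / ε ≤ n ^ 2 * (1 / ε) := le_mul_of_one_le_left (by positivity) hn2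
      _ ≤ n ^ 2 * (1 / ε) * κ := le_mul_of_one_le_right (by positivity) hκ
  have hnΛ : n ≤ 2 ^ Λ := by
    have : (n : ℝ) ≤ 2 ^ Λ := k1.trans hΛ
    exact_mod_cast this
  have hεΛ : 1 ≤ ε * 2 ^ Λ := by
    have := k3.trans hΛ
    rw [div_le_iff₀ hε] at this
    linarith
  obtain ⟨σ, t, h3, h4, h5, h6⟩ :=
    solve_run_gen hn A hA b Λ hnΛ (k2.trans hΛ) hεΛ σ0 hA0 hb0 hε0
  refine ⟨σ, t, h3, h5, h6, ?_⟩
  have h7 : (t : ℝ) ≤ 10 ^ 7 * (n ^ 2 * ((Λ : ℝ) + 1) ^ 3) := by exact_mod_cast h4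
  refine h7.trans ?_
  have hlog : Real.log y = 2 * Real.log n + Real.log (1 / ε) + Real.log κ := by
    rw [hy, Real.log_mul (by positivity) (by positivity),
      Real.log_mul (by positivity) (by positivity), Real.log_pow]
    push_cast; ring
  have hl1 : 0 ≤ Real.log n := Real.log_nonneg hn0
  have hl2 : 0 ≤ Real.log (1 / ε) := Real.log_nonneg hie
  have hl3 : 0 ≤ Real.log κ := Real.log_nonneg hκ
  set z := 1 + Real.log n + Real.log (1 / ε) + Real.log κ with hz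
  have h8 : (Λ : ℝ) + 1 ≤ 4 * z := by rw [hlog] at hΛ'; linarith
  have hz1 : 1 ≤ z := by linarith
  have h9 : ((Λ : ℝ) + 1) ^ 3 ≤ (4 * z) ^ 3 := pow_le_pow_left₀ (by positivity) h8 3
  have h10 : (n : ℝ) ^ 2 * ((Λ : ℝ) + 1) ^ 3 ≤ n ^ 2 * (4 * z) ^ 3 :=
    mul_le_mul_of_nonneg_left h9 (by positivity)
  have h11 : (n : ℝ) ^ 2 * (4 * z) ^ 3 = 64 * (n ^ 2 * z ^ 3) := by ring
  have h12 : 0 ≤ (n : ℝ) ^ 2 * z ^ 3 := by positivity
  nlinarith

end Pool.Agent.H394R3
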