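import Pool.Agent.H394R3.Lang

set_option autoImplicit false

/-!
# Input, output, norm and condition numbers
-/

namespace Pool.Agent.H394R3

/-- The input: `A`, `b`, `ε` in the arrays 0, 1, 2, and zeros. -/
noncomputable def inputMem {n : ℕ} (A : Matrix (Fin n) (Fin n) ℝ) (b : Fin n → ℝ) (ε : ℝ) : Mem :=
  fun a i j =>
    if a = 0 then (if h : i < n ∧ j < n then A ⟨i, h.1⟩ ⟨j, h.2⟩ else 0)
    else if a = 1 then (if h : i < n ∧ j = 0 then b ⟨i, h.1⟩ else 0)
    else if a = 2 then (if i = 0 ∧ j = 0 then ε else 0)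
    else 0

/-- The output: the column 0 of array 3. -/
def outputVec (n : ℕ) (σ : Mem) : Fin n → ℝ := fun i => σ 3 i 0

variable {n : ℕ}

/-- The Euclidean norm. -/
noncomputable def nrm (x : Fin n → ℝ) : ℝ := Real.sqrt (∑ i, x i ^ 2)

/-- The singular values `σ₁ ≥ σ₂ ≥ ... ≥ σₙ` of a square matrix, numbered from `0` to `n - 1`. -/
noncomputable def sv (A : Matrix (Fin n) (Fin n) ℝ) (i : ℕ) : ℝ :=
  (Matrix.toEuclideanLin A).singularValues i

/-- The `p`-averaged condition number `(1/n ∑ (σᵢ / σₙ) ^ p) ^ (1/p)`. -/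
noncomputable def kappaBar (p : ℝ) (A : Matrix (Fin n) (Fin n) ℝ) : ℝ :=
  (1 / n * ∑ i ∈ Finset.range n, (sv A i / sv A (n - 1)) ^ p) ^ (1 / p)

end Pool.Agent.H394R3
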