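import Pool.Agent.H394R3.Gauss
import Pool.Agent.H394R3.Bool4

set_option autoImplicit false

/-!
# Random matrices with independent entries have small condition numbers
-/

namespace Pool.Agent.H394R3

open MeasureTheory ProbabilityTheory Filter Topology
open scoped ENNReal

/-- The good matrices: invertible with moderate entries of the matrix and of its inverse. -/
def GoodM (n : ℕ) : Set (Fin n × Fin n → ℝ) :=
  {a | 2 ≤ n ∧ (mat a).det ≠ 0 ∧ S1 (mat a) * S1 (mat a)⁻¹ ≤ (n : ℝ) ^ 15}

theorem measurableSet_goodM (n : ℕ) : MeasurableSet (GoodM n) := by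
  apply MeasurableSet.inter
  · exact MeasurableSet.const _
  apply MeasurableSet.inter
  · exact (measurableSet_eq_fun continuous_mat.matrix_det.measurable measurable_const).compl
  · have h1 : Measurable fun a : Fin n × Fin n → ℝ => S1 (mat a) := by
      unfold S1
      exact Finset.measurable_sum _ fun i _ => Finset.measurable_sum _ fun j _ =>
        (measurable_pi_apply (i, j)).abs
    have h2 : Measurable fun a : Fin n × Fin n → ℝ => S1 (mat a)⁻¹ := by
      unfold S1
      refine Finset.measurable_sum _ fun i _ => Finset.measurable_sum _ fun j _ => ?_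
      have e : ∀ a : Fin n × Fin n → ℝ, |(mat a)⁻¹ i j| =
          |(mat a).det⁻¹ * (mat a).adjugate i j| := by
        intro a
        rw [Matrix.inv_def, Ring.inverse_eq_inv', Matrix.smul_apply, smul_eq_mul]
      simp only [e]
      have h3 := (continuous_mat (n := n)).matrix_adjugate
      have h4 : Continuous fun a : Fin n × Fin n → ℝ => (mat a).adjugate i j :=
        (continuous_apply j).comp ((continuous_apply i).comp h3)
      exact (continuous_mat.matrix_det.measurable.inv.mul h4.measurable).abs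
    exact measurableSet_le (h1.mul h2) measurable_const

/-- Gaussian matrices are good. -/
theorem gauss_good {n : ℕ} (hn : 2 ≤ n) : gl n (GoodM n)ᶜ ≤ ENNReal.ofReal (2 / n) := by
  classical
  have hn0 : (0 : ℝ) < n := by positivity
  set M : ℝ := n ^ 3 with hM
  set K : ℝ := n ^ 2 with hK
  have hM0 : 0 < M := by positivity
  have hK0 : 0 < K := by positivity
  set B1 : Set (Fin n × Fin n → ℝ) := ⋃ p : Fin n × Fin n,
    {a | M * |(mat a).det| < |(mat a).adjugate p.2 p.1|} with hB1
  set B2 : Set (Fin n × Fin n → ℝ) := ⋃ p : Fin n × Fin n, {a | K ≤ |a (p.1, p.2)|} with hB2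
  have hsub : (GoodM n)ᶜ ⊆ {a | (mat a).det = 0} ∪ (B1 ∪ B2) := by
    intro a ha
    by_contra hcon
    apply ha
    simp only [Set.mem_union, hB1, hB2, Set.mem_iUnion, not_or, not_exists, Set.mem_ofPred_eq,
      not_lt, not_le] at hcon
    obtain ⟨h1, h2, h3⟩ := hcon
    refine ⟨hn, h1, ?_⟩
    have hd : 0 < |(mat a).det| := abs_pos.2 h1
    have k1 : S1 (mat a) ≤ n * n * K := S1_le_of fun i j => (h3 (i, j)).le
    have k2 : S1 (mat a)⁻¹ ≤ n * n * M := by
      apply S1_le_of
      intro i j
      rw [Matrix.inv_def, Ring.inverse_eq_inv', Matrix.smul_apply, smul_eq_mul, abs_mul, abs_inv,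
        inv_mul_le_iff₀ hd, mul_comm]
      exact h2 (j, i)
    have k3 : 0 ≤ S1 (mat a)⁻¹ := by
      unfold S1
      exact Finset.sum_nonneg fun i _ => Finset.sum_nonneg fun j _ => abs_nonneg _
    have hn1 : (1 : ℝ) ≤ n := by exact_mod_cast (by omega : 1 ≤ n)
    calc S1 (mat a) * S1 (mat a)⁻¹ ≤ (n * n * K) * (n * n * M) :=
          mul_le_mul k1 k2 k3 (by positivity)
      _ = (n : ℝ) ^ 9 := by rw [hM, hK]; ring
      _ ≤ (n : ℝ) ^ 15 := pow_le_pow_right₀ hn1 (by norm_num)
  have m1 : gl n B1 ≤ ENNReal.ofReal (1 / n) := by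
    refine (measure_iUnion_fintype_le _ _).trans ?_
    refine (Finset.sum_le_sum fun p _ => gauss_adj p.1 p.2 hM0).trans ?_
    rw [Finset.sum_const, nsmul_eq_mul, ← ENNReal.ofReal_natCast, ← ENNReal.ofReal_mul (by positivity)]
    apply ENNReal.ofReal_le_ofReal
    rw [Finset.card_univ, Fintype.card_prod, Fintype.card_fin, hM]
    push_cast
    apply le_of_eq
    field_simp
  have m2 : gl n B2 ≤ ENNReal.ofReal (1 / n) := by
    refine (measure_iUnion_fintype_le _ _).trans ?_
    refine (Finset.sum_le_sum fun p _ => gauss_entry p.1 p.2 hK0).trans ?_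
    rw [Finset.sum_const, nsmul_eq_mul, ← ENNReal.ofReal_natCast, ← ENNReal.ofReal_mul (by positivity)]
    apply ENNReal.ofReal_le_ofReal
    rw [Finset.card_univ, Fintype.card_prod, Fintype.card_fin, hK]
    push_cast
    have hn1 : (1 : ℝ) ≤ n := by exact_mod_cast (by omega : 1 ≤ n)
    rw [← pow_mul, mul_one_div, div_le_div_iff₀ (by positivity) hn0, one_mul]
    calc (n : ℝ) * n * n = n ^ 3 := by ring
      _ ≤ n ^ (2 * 2) := pow_le_pow_right₀ hn1 (by norm_num)
  refine (measure_mono hsub).trans ((measure_union_le _ _).trans ?_)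
  rw [gauss_det, zero_add]
  refine (measure_union_le _ _).trans ((add_le_add m1 m2).trans (le_of_eq ?_))
  rw [← ENNReal.ofReal_add (by positivity) (by positivity)]
  congr 1
  ring

/-- A matrix that does not almost annihilate a normalised vector has a moderate inverse. -/
theorem inv_of_lower {n : ℕ} {A : Matrix (Fin n) (Fin n) ℝ} {θ : ℝ} (hθ : 0 < θ)
    (h : ∀ x : Fin n → ℝ, Nz x → ∃ i, θ < |(A.mulVec x) i|) :
    A.det ≠ 0 ∧ ∀ i j, |A⁻¹ i j| ≤ 1 / θ := by
  -- homogeneous form
  have hom : ∀ x : Fin n → ℝ, (∀ i, |(A.mulVec x) i| ≤ 1) → ∀ i, |x i| ≤ 1 / θ := by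
    intro x hx i
    obtain ⟨k, _, hk⟩ := Finset.exists_max_image Finset.univ (fun i => |x i|)
      ⟨i, Finset.mem_univ i⟩
    refine (hk i (Finset.mem_univ i)).trans ?_
    by_contra hcon
    push Not at hcon
    have hpos : 0 < |x k| := lt_trans (by positivity) hcon
    have hnz : Nz fun j => x j / |x k| := by
      refine ⟨fun j => ?_, k, ?_⟩
      · rw [abs_div, abs_abs, div_le_one hpos]
        exact hk j (Finset.mem_univ j)
      · rw [abs_div, abs_abs, div_self hpos.ne']
    obtain ⟨l, hl⟩ := h _ hnz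
    have e : A.mulVec (fun j => x j / |x k|) l = A.mulVec x l / |x k| := by
      simp only [Matrix.mulVec, dotProduct]
      rw [Finset.sum_div]
      exact Finset.sum_congr rfl fun j _ => by ring
    rw [e, abs_div, abs_abs, lt_div_iff₀ hpos] at hl
    have h1 := hx l
    rw [div_lt_iff₀ hθ] at hcon
    linarith
  have hdet : A.det ≠ 0 := by
    intro h0
    obtain ⟨x, hx, hAx⟩ := Matrix.exists_mulVec_eq_zero_iff.2 h0
    obtain ⟨i, hi⟩ : ∃ i, x i ≠ 0 := by
      by_contra hcon
      push Not at hcon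
      exact hx (funext hcon)
    have h1 := hom (fun j => x j * ((2 / θ) / |x i|)) ?_ i
    · have hpos : 0 < |x i| := abs_pos.2 hi
      rw [abs_mul, abs_of_pos (by positivity : 0 < (2 / θ) / |x i|)] at h1
      have e : |x i| * ((2 / θ) / |x i|) = 2 / θ := by field_simp
      rw [e, div_le_div_iff_of_pos_right hθ] at h1
      linarith
    · intro l
      have e : A.mulVec (fun j => x j * ((2 / θ) / |x i|)) l =
          A.mulVec x l * ((2 / θ) / |x i|) := by
        simp only [Matrix.mulVec, dotProduct]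
        rw [Finset.sum_mul]
        exact Finset.sum_congr rfl fun j _ => by ring
      rw [e, hAx]; simp
  refine ⟨hdet, fun i j => ?_⟩
  have hu : IsUnit A.det := isUnit_iff_ne_zero.2 hdet
  apply hom (fun i => A⁻¹ i j)
  intro l
  have e : A.mulVec (fun i => A⁻¹ i j) l = (A * A⁻¹) l j := by
    simp only [Matrix.mulVec, dotProduct, Matrix.mul_apply]
  rw [e, Matrix.mul_nonsing_inv A hu, Matrix.one_apply]
  split_ifs <;> simp

/-- the uniform distribution on two values -/
noncomputable def two (u v : ℝ) : Measure ℝ :=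
  (2⁻¹ : ℝ≥0∞) • Measure.dirac u + (2⁻¹ : ℝ≥0∞) • Measure.dirac v

/-- the uniform distribution on truth values -/
noncomputable def coin : Measure Bool :=
  (2⁻¹ : ℝ≥0∞) • Measure.dirac false + (2⁻¹ : ℝ≥0∞) • Measure.dirac true

instance : IsProbabilityMeasure coin := by
  refine ⟨?_⟩
  simp [coin, ENNReal.inv_two_add_inv_two]

instance (u v : ℝ) : IsProbabilityMeasure (two u v) := by
  refine ⟨?_⟩
  simp [two, ENNReal.inv_two_add_inv_two]

theorem coin_map (u v : ℝ) : coin.map (vl u v) = two u v := by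
  unfold coin two
  rw [Measure.map_add _ _ (measurable_of_countable _), Measure.map_smul, Measure.map_smul,
    Measure.map_dirac' (measurable_of_countable _), Measure.map_dirac' (measurable_of_countable _)]
  simp [vl]

theorem coin_singleton (t : Bool) : coin {t} = 2⁻¹ := by
  cases t <;> simp [coin]

open Classical in
theorem coins_card {ι : Type} [Fintype ι] (S : Finset (ι → Bool)) :
    (Measure.pi fun _ : ι => coin) S = ENNReal.ofReal (S.card / 2 ^ Fintype.card ι) := by
  rw [← sum_measure_singleton]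
  have h1 : ∀ x ∈ S, (Measure.pi fun _ : ι => coin) {x} = 2⁻¹ ^ Fintype.card ι := by
    intro x _
    rw [Measure.pi_singleton]
    simp [coin_singleton]
  rw [Finset.sum_congr rfl h1, Finset.sum_const, nsmul_eq_mul, ENNReal.ofReal_div_of_pos
    (by positivity), ENNReal.ofReal_natCast, div_eq_mul_inv, ENNReal.ofReal_pow (by norm_num)]
  congr 1
  rw [← ENNReal.inv_pow]
  simp

/-- the law of the entries of a matrix with two values -/
noncomputable def tl (u v : ℝ) (n : ℕ) : Measure (Fin n × Fin n → ℝ) :=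
  Measure.pi fun _ : Fin n × Fin n => two u v

theorem two_good {u v : ℝ} (hu : |u| ≤ 1) (hv : |v| ≤ 1) (huv : 1 ≤ |v - u|) {n : ℕ} (hn : 2 ≤ n)
    {q : ℕ} (hq : 0 < q) : tl u v n (GoodM n)ᶜ ≤ ENNReal.ofReal (badBound n q) := by
  classical
  have hn0 : (0 : ℝ) < n := by positivity
  have e1 : tl u v n = (Measure.pi fun _ : Fin n × Fin n => coin).map
      (fun (x : Fin n × Fin n → Bool) p => vl u v (x p)) := by
    rw [Measure.pi_map_pi (fun _ => (measurable_of_countable _).aemeasurable)]
    simp only [coin_map]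
    rfl
  rw [e1, Measure.map_apply (measurable_of_countable _) (measurableSet_goodM n).compl]
  set T : Finset (Fin n × Fin n → Bool) :=
    Finset.univ.filter fun x => BadMat u v (fun j i => x (i, j)) with hT
  have hsub : (fun (x : Fin n × Fin n → Bool) p => vl u v (x p)) ⁻¹' (GoodM n)ᶜ ⊆ T := by
    intro x hx
    rw [hT, Finset.coe_filter]
    refine ⟨Finset.mem_univ _, ?_⟩
    by_contra hbad
    apply hx
    set a : Fin n × Fin n → ℝ := fun p => vl u v (x p) with ha
    have hlow : ∀ y : Fin n → ℝ, Nz y → ∃ i, 1 / (256 * (n : ℝ) ^ 3) < |((mat a).mulVec y) i| := by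
      intro y hy
      by_contra hcon
      push Not at hcon
      exact hbad ⟨y, hy, fun i => hcon i⟩
    obtain ⟨k1, k2⟩ := inv_of_lower (by positivity) hlow
    refine ⟨hn, k1, ?_⟩
    have k3 : S1 (mat a) ≤ n * n * 1 := by
      apply S1_le_of
      intro i j
      simp only [mat, ha, Matrix.of_apply, vl]
      split_ifs <;> assumption
    have k4 : S1 (mat a)⁻¹ ≤ n * n * (1 / (1 / (256 * (n : ℝ) ^ 3))) := S1_le_of k2
    have k5 : 0 ≤ S1 (mat a)⁻¹ := by
      unfold S1
      exact Finset.sum_nonneg fun i _ => Finset.sum_nonneg fun j _ => abs_nonneg _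
    have h2n : (2 : ℝ) ≤ n := by exact_mod_cast hn
    calc S1 (mat a) * S1 (mat a)⁻¹ ≤ (n * n * 1) * (n * n * (1 / (1 / (256 * (n : ℝ) ^ 3)))) :=
          mul_le_mul k3 k4 k5 (by positivity)
      _ = 2 ^ 8 * (n : ℝ) ^ 7 := by rw [one_div_one_div]; ring
      _ ≤ (n : ℝ) ^ 8 * (n : ℝ) ^ 7 :=
          mul_le_mul_of_nonneg_right (pow_le_pow_left₀ (by norm_num) h2n 8) (by positivity)
      _ = (n : ℝ) ^ 15 := by ring
  refine (measure_mono hsub).trans ?_
  rw [coins_card]
  apply ENNReal.ofReal_le_ofReal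
  have h1 := badMat_card (n := n) (by omega) hu hv huv hq
  have h2 : T.card = (Finset.univ.filter fun ω : Fin n → Fin n → Bool => BadMat u v ω).card := by
    apply Finset.card_bij (fun x _ => fun j i => x (i, j))
    · intro x hx
      rw [hT, Finset.mem_filter] at hx
      rw [Finset.mem_filter]
      exact ⟨Finset.mem_univ _, hx.2⟩
    · intro x _ y _ h
      funext p
      exact congrFun (congrFun h p.2) p.1
    · intro ω hω
      rw [Finset.mem_filter] at hω
      refine ⟨fun p => ω p.2 p.1, ?_, rfl⟩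
      rw [hT, Finset.mem_filter]
      exact ⟨Finset.mem_univ _, hω.2⟩
  have h3 : (Fintype.card (Fin n → Fin n → Bool) : ℝ) = 2 ^ Fintype.card (Fin n × Fin n) := by
    rw [Fintype.card_fun, Fintype.card_fun, Fintype.card_bool, Fintype.card_fin, ← pow_mul,
      Fintype.card_prod, Fintype.card_fin]
    push_cast; rfl
  rw [h2, div_le_iff₀ (by positivity), ← h3]
  exact h1

instance (n : ℕ) : IsProbabilityMeasure (gl n) := by unfold gl; infer_instance

instance (u v : ℝ) (n : ℕ) : IsProbabilityMeasure (tl u v n) := by unfold tl; infer_instance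

/-- If the complements have small probability then the probabilities tend to one. -/
theorem tendsto_meas_one {X : ℕ → Type} [∀ n, MeasurableSpace (X n)] (P : (n : ℕ) → Measure (X n))
    [∀ n, IsProbabilityMeasure (P n)] (E : (n : ℕ) → Set (X n)) (hE : ∀ n, MeasurableSet (E n))
    {f : ℕ → ℝ} (hf : Tendsto f atTop (𝓝 0))
    (h : ∀ᶠ n in atTop, P n (E n)ᶜ ≤ ENNReal.ofReal (f n)) :
    Tendsto (fun n => P n (E n)) atTop (𝓝 1) := by
  have h1 : Tendsto (fun n => ENNReal.ofReal (f n)) atTop (𝓝 0) := by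
    have := ENNReal.tendsto_ofReal hf
    simpa using this
  have h2 : Tendsto (fun n => P n (E n)ᶜ) atTop (𝓝 0) :=
    tendsto_of_tendsto_of_tendsto_of_le_of_le' tendsto_const_nhds h1
      (Eventually.of_forall fun _ => zero_le) h
  have h3 : ∀ n, P n (E n) = 1 - P n (E n)ᶜ := by
    intro n
    rw [← prob_compl_eq_one_sub (hE n).compl, compl_compl]
  simp only [h3]
  have h4 := ENNReal.Tendsto.sub (tendsto_const_nhds (x := (1 : ℝ≥0∞)) (f := atTop)) h2
    (Or.inl ENNReal.one_ne_top)
  simpa using h4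

end Pool.Agent.H394R3
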