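import Pool.Agent.H394R3.Newton

set_option autoImplicit false

/-!
# The inverse of a Gaussian matrix
-/

namespace Pool.Agent.H394R3

open MeasureTheory ProbabilityTheory Filter Topology
open scoped ENNReal

/-- A set all of whose sections in one coordinate have small measure has small measure. -/
theorem fiber_measure {ι : Type} [Fintype ι] [DecidableEq ι] (μ : ι → Measure ℝ)
    [∀ i, IsProbabilityMeasure (μ i)] {S : Set (ι → ℝ)} (hS : MeasurableSet S) (k : ι) (c : ℝ≥0∞)
    (h : ∀ x, μ k {t | Function.update x k t ∈ S} ≤ c) : Measure.pi μ S ≤ c := by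
  have hf : Measurable (S.indicator (fun _ => (1 : ℝ≥0∞))) := measurable_const.indicator hS
  rw [← lintegral_indicator_one hS]
  have e1 : (S.indicator 1 : (ι → ℝ) → ℝ≥0∞) = S.indicator (fun _ => (1 : ℝ≥0∞)) := rfl
  rw [e1, lintegral_eq_lmarginal_univ (fun _ => (0 : ℝ)),
    lmarginal_erase' (S.indicator (fun _ => (1 : ℝ≥0∞))) hf (Finset.mem_univ k)]
  have h1 : (fun x : ι → ℝ => ∫⁻ t, S.indicator (fun _ => (1 : ℝ≥0∞)) (Function.update x k t) ∂μ k)
      ≤ fun _ => c := by
    intro x
    have hm : MeasurableSet {t | Function.update x k t ∈ S} := (measurable_update x) hS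
    have e2 : (fun t => S.indicator (fun _ => (1 : ℝ≥0∞)) (Function.update x k t)) =
        {t | Function.update x k t ∈ S}.indicator 1 := by
      funext t
      rfl
    show ∫⁻ t, S.indicator (fun _ => (1 : ℝ≥0∞)) (Function.update x k t) ∂μ k ≤ c
    rw [e2, lintegral_indicator_one hm]
    exact h x
  refine (lmarginal_mono h1 (fun _ => 0)).trans ?_
  simp [lmarginal]

/-- the matrix with the entries `a (i, j)` -/
def mat {n : ℕ} (a : Fin n × Fin n → ℝ) : Matrix (Fin n) (Fin n) ℝ := Matrix.of fun i j => a (i, j)

theorem det_row_add {n : ℕ} (M : Matrix (Fin n) (Fin n) ℝ) (i j : Fin n) (s : ℝ) :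
    (M.updateRow i (M i + s • Pi.single j (1 : ℝ))).det = M.det + s * M.adjugate j i := by
  rw [Matrix.det_updateRow_add, Matrix.updateRow_eq_self, Matrix.det_updateRow_smul,
    Matrix.adjugate_apply]

theorem mat_update {n : ℕ} (a : Fin n × Fin n → ℝ) (i j : Fin n) (t : ℝ) :
    mat (Function.update a (i, j) t) =
      (mat a).updateRow i (mat a i + (t - a (i, j)) • Pi.single j (1 : ℝ)) := by
  ext k l
  simp only [mat, Matrix.of_apply, Matrix.updateRow_apply]
  by_cases hk : k = i
  · subst hk
    by_cases hl : l = j
    · subst hl; simp
    · simp [hl]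
  · simp [hk]

theorem adj_update {n : ℕ} (a : Fin n × Fin n → ℝ) (i j : Fin n) (t : ℝ) :
    (mat (Function.update a (i, j) t)).adjugate j i = (mat a).adjugate j i := by
  rw [mat_update, Matrix.adjugate_apply, Matrix.adjugate_apply, Matrix.updateRow_idem]

theorem det_update {n : ℕ} (a : Fin n × Fin n → ℝ) (i j : Fin n) (t : ℝ) :
    (mat (Function.update a (i, j) t)).det =
      (mat a).det + (t - a (i, j)) * (mat a).adjugate j i := by
  rw [mat_update, det_row_add]

theorem continuous_mat {n : ℕ} : Continuous (mat (n := n)) :=
  continuous_pi fun i => continuous_pi fun j => continuous_apply (i, j)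

/-- the standard Gaussian measure of a short interval -/
theorem gauss_interval (t0 : ℝ) {d : ℝ} (hd : 0 ≤ d) :
    gaussianReal 0 1 {t | |t - t0| < d} ≤ ENNReal.ofReal d := by
  rw [gaussianReal_apply 0 one_ne_zero]
  have h1 : ∀ x, gaussianPDF 0 1 x ≤ ENNReal.ofReal (1 / 2) := by
    intro x
    unfold gaussianPDF gaussianPDFReal
    apply ENNReal.ofReal_le_ofReal
    have h2 : (2 : ℝ) ≤ Real.sqrt (2 * Real.pi * ((1 : NNReal) : ℝ)) := by
      apply Real.le_sqrt_of_sq_le
      have := Real.pi_gt_three
      norm_num
      linarith
    have h3 : Real.exp (-(x - 0) ^ 2 / (2 * ((1 : NNReal) : ℝ))) ≤ 1 := by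
      rw [Real.exp_le_one_iff]
      apply div_nonpos_of_nonpos_of_nonneg
      · have := sq_nonneg (x - 0); linarith
      · positivity
    have h4 : (Real.sqrt (2 * Real.pi * ((1 : NNReal) : ℝ)))⁻¹ ≤ 1 / 2 := by
      rw [← one_div]
      exact one_div_le_one_div_of_le (by norm_num) h2
    calc (Real.sqrt (2 * Real.pi * ((1 : NNReal) : ℝ)))⁻¹ *
          Real.exp (-(x - 0) ^ 2 / (2 * ((1 : NNReal) : ℝ)))
        ≤ (1 / 2) * 1 := mul_le_mul h4 h3 (Real.exp_nonneg _) (by norm_num)
      _ = 1 / 2 := mul_one _
  have h5 : {t : ℝ | |t - t0| < d} = Set.Ioo (t0 - d) (t0 + d) := by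
    ext t
    simp only [Set.mem_ofPred_eq, Set.mem_Ioo, abs_lt]
    constructor
    · rintro ⟨h, h'⟩; constructor <;> linarith
    · rintro ⟨h, h'⟩; constructor <;> linarith
  refine (lintegral_mono fun x => h1 x).trans ?_
  rw [lintegral_const, Measure.restrict_apply_univ, h5, Real.volume_Ioo,
    ← ENNReal.ofReal_mul (by norm_num)]
  apply ENNReal.ofReal_le_ofReal
  linarith

/-- the law of the entries of a Gaussian matrix -/
noncomputable def gl (n : ℕ) : Measure (Fin n × Fin n → ℝ) :=
  Measure.pi fun _ : Fin n × Fin n => gaussianReal 0 1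

theorem gauss_adj {n : ℕ} (i j : Fin n) {M : ℝ} (hM : 0 < M) :
    gl n {a | M * |(mat a).det| < |(mat a).adjugate j i|} ≤ ENNReal.ofReal (1 / M) := by
  apply fiber_measure _ _ (i, j)
  · intro a
    simp only [Set.mem_ofPred_eq, adj_update, det_update]
    set D := (mat a).det
    set c := (mat a).adjugate j i
    rcases eq_or_ne c 0 with hc | hc
    · have : {t : ℝ | M * |D + (t - a (i, j)) * c| < |c|} = ∅ := by
        ext t
        simp only [Set.mem_ofPred_eq, Set.mem_empty_iff_false, iff_false, not_lt, hc, abs_zero]
        positivity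
      rw [this]; simp
    · refine le_trans (measure_mono ?_) (gauss_interval (a (i, j) - D / c) (by positivity))
      intro t ht
      simp only [Set.mem_ofPred_eq] at ht ⊢
      have hc' : 0 < |c| := abs_pos.2 hc
      have e : D + (t - a (i, j)) * c = c * (t - (a (i, j) - D / c)) := by
        field_simp; ring
      rw [e, abs_mul] at ht
      rw [lt_div_iff₀ hM]
      have h1 : |c| * (|t - (a (i, j) - D / c)| * M) < |c| * 1 := by
        calc |c| * (|t - (a (i, j) - D / c)| * M) = M * (|c| * |t - (a (i, j) - D / c)|) := by ring
          _ < |c| := ht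
          _ = |c| * 1 := (mul_one _).symm
      exact lt_of_mul_lt_mul_left h1 hc'.le
  · apply IsOpen.measurableSet
    apply isOpen_lt
    · exact continuous_const.mul (continuous_mat.matrix_det).abs
    · have := (continuous_mat (n := n)).matrix_adjugate
      exact ((continuous_apply i).comp ((continuous_apply j).comp this)).abs

theorem gauss_entry {n : ℕ} (i j : Fin n) {K : ℝ} (hK : 0 < K) :
    gl n {a | K ≤ |a (i, j)|} ≤ ENNReal.ofReal (1 / K ^ 2) := by
  apply fiber_measure _ _ (i, j)
  · intro a
    simp only [Set.mem_ofPred_eq, Function.update_self]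
    have h := meas_ge_le_variance_div_sq (μ := gaussianReal 0 1)
      (memLp_id_gaussianReal (μ := 0) (v := 1) 2) hK
    rw [variance_id_gaussianReal] at h
    simp only [id, integral_id_gaussianReal, sub_zero] at h
    simpa using h
  · exact measurableSet_le measurable_const (measurable_pi_apply (i, j)).abs

/-- the matrix whose rows from `k` on are replaced by the rows of the unit matrix -/
def cut {n : ℕ} (k : ℕ) (a : Fin n × Fin n → ℝ) : Matrix (Fin n) (Fin n) ℝ :=
  Matrix.of fun i j => if i.1 < k then a (i, j) else if i = j then 1 else 0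

theorem cut_succ {n : ℕ} (i : Fin n) (a : Fin n × Fin n → ℝ) :
    (cut (i.1 + 1) a).updateRow i (Pi.single i 1) = cut i.1 a := by
  ext k l
  simp only [cut, Matrix.updateRow_apply, Matrix.of_apply]
  by_cases hk : k = i
  · subst hk
    simp [Pi.single_apply, eq_comm]
  · have h1 : (k : ℕ) ≠ i := fun h => hk (Fin.ext h)
    have h2 : (k : ℕ) < i.1 + 1 ↔ (k : ℕ) < i.1 := by omega
    simp only [hk, if_false, h2]

theorem cut_update {n : ℕ} (a : Fin n × Fin n → ℝ) (i : Fin n) (t : ℝ) :
    cut (i.1 + 1) (Function.update a (i, i) t) =
      (cut (i.1 + 1) a).updateRow i (cut (i.1 + 1) a i + (t - a (i, i)) • Pi.single i (1 : ℝ)) := by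
  ext k l
  simp only [cut, Matrix.of_apply, Matrix.updateRow_apply]
  by_cases hk : k = i
  · subst hk
    by_cases hl : l = k
    · subst hl; simp
    · simp [hl]
  · simp [hk]

theorem continuous_cut {n : ℕ} (k : ℕ) : Continuous (cut (n := n) k) := by
  refine continuous_pi fun i => continuous_pi fun j => ?_
  by_cases h : i.1 < k
  · simp only [cut, Matrix.of_apply, h, if_true]
    exact continuous_apply (i, j)
  · simp only [cut, Matrix.of_apply, h, if_false]
    exact continuous_const

theorem gauss_det {n : ℕ} : gl n {a | (mat a).det = 0} = 0 := by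
  have key : ∀ k ≤ n, gl n {a | (cut k a).det = 0} = 0 := by
    intro k
    induction k with
    | zero =>
      intro _
      have : {a : Fin n × Fin n → ℝ | (cut 0 a).det = 0} = ∅ := by
        ext a
        have : cut 0 a = 1 := by
          ext i j
          simp [cut, Matrix.one_apply]
        simp [this]
      rw [this]; simp
    | succ k ih =>
      intro hk
      have hk' : k < n := hk
      set i : Fin n := ⟨k, hk'⟩
      have h1 : {a : Fin n × Fin n → ℝ | (cut (k + 1) a).det = 0} ⊆
          {a | (cut k a).det = 0} ∪ {a | (cut (k + 1) a).det = 0 ∧ (cut k a).det ≠ 0} := by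
        intro a ha
        by_cases h : (cut k a).det = 0
        · exact Or.inl h
        · exact Or.inr ⟨ha, h⟩
      have h2 : gl n {a | (cut (k + 1) a).det = 0 ∧ (cut k a).det ≠ 0} = 0 := by
        apply le_antisymm _ (zero_le)
        apply fiber_measure _ _ (i, i)
        · intro a
          have hd : ∀ t, (cut (k + 1) (Function.update a (i, i) t)).det =
              (cut (k + 1) a).det + (t - a (i, i)) * (cut k a).det := by
            intro t
            have e1 := cut_update a i t
            have e2 : i.1 = k := rfl
            rw [e2] at e1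
            rw [e1, det_row_add, Matrix.adjugate_apply]
            have e3 := cut_succ i a
            rw [e2] at e3
            rw [e3]
          have hd' : ∀ t, (cut k (Function.update a (i, i) t)).det = (cut k a).det := by
            intro t
            congr 1
            ext p l
            simp only [cut, Matrix.of_apply]
            split_ifs with h3 h4
            · rw [Function.update_of_ne]
              intro h4
              have : p = i := (Prod.mk.inj h4).1
              rw [this] at h3
              exact absurd h3 (lt_irrefl _)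
            · rfl
            · rfl
          rcases eq_or_ne (cut k a).det 0 with hc | hc
          · have : {t | Function.update a (i, i) t ∈
                {a : Fin n × Fin n → ℝ | (cut (k + 1) a).det = 0 ∧ (cut k a).det ≠ 0}} = ∅ := by
              ext t
              simp only [Set.mem_ofPred_eq, hd', hc, ne_eq, not_true_eq_false, and_false,
                Set.mem_empty_iff_false]
            rw [this]; simp
          · have hsub : {t | Function.update a (i, i) t ∈
                {a : Fin n × Fin n → ℝ | (cut (k + 1) a).det = 0 ∧ (cut k a).det ≠ 0}} ⊆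
                {a (i, i) - (cut (k + 1) a).det / (cut k a).det} := by
              intro t ht
              simp only [Set.mem_ofPred_eq, hd, hd'] at ht
              rw [Set.mem_singleton_iff]
              have := ht.1
              field_simp
              linarith
            refine (measure_mono hsub).trans (le_of_eq ?_)
            exact gaussianReal_absolutelyContinuous 0 one_ne_zero (by simp)
        · apply MeasurableSet.inter
          · exact measurableSet_eq_fun (continuous_cut _).matrix_det.measurable measurable_const
          · exact (measurableSet_eq_fun (continuous_cut _).matrix_det.measurable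
              measurable_const).compl
      apply le_antisymm _ (zero_le)
      refine (measure_mono h1).trans ((measure_union_le _ _).trans ?_)
      rw [ih (by omega), h2, add_zero]
  have h := key n le_rfl
  have e : ∀ a : Fin n × Fin n → ℝ, cut n a = mat a := by
    intro a
    ext i j
    simp [cut, mat]
  simpa only [e] using h

end Pool.Agent.H394R3
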