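import Mathlib

set_option autoImplicit false

/-!
# A uniform real random access machine with exact arithmetic

Programs of a small imperative language which computes with real numbers exactly. A program is one
finite text, which does not depend on the size `n` of the input. The memory holds arrays of real
numbers with two indices; initially there are the input and zeros. Every arithmetic operation
`+, -, *, /`, every comparison, every access to a cell, every assignment to a cell and every step of
a loop costs (at least) one unit. The only constants are natural numbers.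
-/

namespace Pool.Agent.H394R3

/-- The memory: array `a` has the real entries `σ a i j`. -/
abbrev Mem := ℕ → ℕ → ℕ → ℝ

/-- The indices which can be used in an expression: the row `i` and the column `j` of the cell that
is being assigned, the summation index `k`, the counter `m` of the surrounding loop, and zero. -/
inductive Ix
  | i | j | k | m | z

/-- The values of the indices. -/
def Ix.val (i j k m : ℕ) : Ix → ℕ
  | .i => i
  | .j => j
  | .k => k
  | .m => m
  | .z => 0

/-- Arithmetic expressions. -/
inductive Ex
  /-- the cell of the array `a` in row `r` and column `c` -/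
  | cell (a : ℕ) (r c : Ix)
  /-- a natural number -/
  | const (q : ℕ)
  /-- `1` if the two indices are equal, `0` otherwise -/
  | eq (r c : Ix)
  | add (x y : Ex)
  | sub (x y : Ex)
  | mul (x y : Ex)
  | div (x y : Ex)
  /-- `if x ≤ y then u else v` -/
  | ite (x y u v : Ex)
  /-- the sum of the values of `x` for `k = 0, ..., n - 1` -/
  | sum (x : Ex)

/-- The value of an expression. -/
noncomputable def Ex.eval (n m : ℕ) (σ : Mem) : Ex → ℕ → ℕ → ℕ → ℝ
  | .cell a r c, i, j, k => σ a (r.val i j k m) (c.val i j k m)
  | .const q, _, _, _ => q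
  | .eq r c, i, j, k => if r.val i j k m = c.val i j k m then 1 else 0
  | .add x y, i, j, k => x.eval n m σ i j k + y.eval n m σ i j k
  | .sub x y, i, j, k => x.eval n m σ i j k - y.eval n m σ i j k
  | .mul x y, i, j, k => x.eval n m σ i j k * y.eval n m σ i j k
  | .div x y, i, j, k => x.eval n m σ i j k / y.eval n m σ i j k
  | .ite x y u v, i, j, k =>
      if x.eval n m σ i j k ≤ y.eval n m σ i j k then u.eval n m σ i j k else v.eval n m σ i j k
  | .sum x, i, j, _ => ∑ k ∈ Finset.range n, x.eval n m σ i j k

/-- The number of steps that are charged for one evaluation of an expression; in a conditional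
expression both branches are charged. -/
def Ex.cost (n : ℕ) : Ex → ℕ
  | .cell _ _ _ => 1
  | .const _ => 1
  | .eq _ _ => 1
  | .add x y => x.cost n + y.cost n + 1
  | .sub x y => x.cost n + y.cost n + 1
  | .mul x y => x.cost n + y.cost n + 1
  | .div x y => x.cost n + y.cost n + 1
  | .ite x y u v => x.cost n + y.cost n + u.cost n + v.cost n + 1
  | .sum x => n * (x.cost n + 1) + 1

/-- The rows (or columns) to which a value is assigned: all numbers below `n`, the counter of the
surrounding loop, or zero. -/
inductive Tgt
  | all | cur | zero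

/-- `x` is one of the rows (or columns). -/
def Tgt.has (n m : ℕ) : Tgt → ℕ → Prop
  | .all, x => x < n
  | .cur, x => x = m
  | .zero, x => x = 0

instance (n m : ℕ) (r : Tgt) (x : ℕ) : Decidable (r.has n m x) := by
  cases r <;> simp only [Tgt.has] <;> infer_instance

/-- The number of rows (or columns). -/
def Tgt.count (n : ℕ) : Tgt → ℕ
  | .all => n
  | .cur => 1
  | .zero => 1

/-- Assign the value of `e` to the cells of the array `a` in the rows `r` and columns `c`. -/
noncomputable def Mem.asg (n m : ℕ) (σ : Mem) (a : ℕ) (r c : Tgt) (e : Ex) : Mem :=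
  fun a' x y => if a' = a ∧ r.has n m x ∧ c.has n m y then e.eval n m σ x y 0 else σ a' x y

/-- Programs. -/
inductive Cmd
  /-- assign the value of `e` to the cells of `a` in the rows `r` and columns `c` -/
  | asg (a : ℕ) (r c : Tgt) (e : Ex)
  | seq (c d : Cmd)
  /-- while `x < y` do `c` -/
  | whl (x y : Ex) (c : Cmd)
  /-- for `m = 0, ..., n - 1` do `c` -/
  | loop (c : Cmd)

/-- `Exec n m c σ σ' t`: for inputs of size `n`, when the counter of the surrounding loop is `m`,
the command `c` leads from the memory `σ` to the memory `σ'` in `t` steps. -/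
inductive Exec (n : ℕ) : ℕ → Cmd → Mem → Mem → ℕ → Prop
  | asg (m : ℕ) (σ : Mem) (a : ℕ) (r c : Tgt) (e : Ex) :
      Exec n m (.asg a r c e) σ (σ.asg n m a r c e) (r.count n * c.count n * (e.cost n + 1))
  | seq {m : ℕ} {c d : Cmd} {σ σ' σ'' : Mem} {t t' : ℕ} :
      Exec n m c σ σ' t → Exec n m d σ' σ'' t' → Exec n m (.seq c d) σ σ'' (t + t')
  | whlF {m : ℕ} {x y : Ex} {c : Cmd} {σ : Mem} : ¬ x.eval n m σ 0 0 0 < y.eval n m σ 0 0 0 →
      Exec n m (.whl x y c) σ σ (x.cost n + y.cost n + 1)
  | whlT {m : ℕ} {x y : Ex} {c : Cmd} {σ σ' σ'' : Mem} {t t' : ℕ} :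
      x.eval n m σ 0 0 0 < y.eval n m σ 0 0 0 →
      Exec n m c σ σ' t → Exec n m (.whl x y c) σ' σ'' t' →
      Exec n m (.whl x y c) σ σ'' (x.cost n + y.cost n + 1 + t + t')
  | loop {m : ℕ} {c : Cmd} (s : ℕ → Mem) (t : ℕ → ℕ) :
      (∀ k < n, Exec n k c (s k) (s (k + 1)) (t k)) →
      Exec n m (.loop c) (s 0) (s n) (∑ k ∈ Finset.range n, (t k + 1) + 1)

/-- The semantics is deterministic. -/
theorem Exec.det {n m : ℕ} {c : Cmd} {σ σ' σ'' : Mem} {t t' : ℕ} (h : Exec n m c σ σ' t)
    (h' : Exec n m c σ σ'' t') : σ' = σ'' ∧ t = t' := by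
  induction h generalizing σ'' t' with
  | asg => cases h'; exact ⟨rfl, rfl⟩
  | seq _ _ ih1 ih2 =>
    cases h' with
    | seq h1 h2 =>
      obtain ⟨rfl, rfl⟩ := ih1 h1
      obtain ⟨rfl, rfl⟩ := ih2 h2
      exact ⟨rfl, rfl⟩
  | whlF hn =>
    cases h' with
    | whlF _ => exact ⟨rfl, rfl⟩
    | whlT hp _ _ => exact absurd hp hn
  | whlT hp _ _ ih1 ih2 =>
    cases h' with
    | whlF hn => exact absurd hp hn
    | whlT _ h1 h2 =>
      obtain ⟨rfl, rfl⟩ := ih1 h1
      obtain ⟨rfl, rfl⟩ := ih2 h2
      exact ⟨rfl, rfl⟩
  | @loop m c s t hs ih =>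
    generalize hσ : s 0 = σ0 at h'
    cases h' with
    | loop s' t'' hs' =>
      have key : ∀ k ≤ n, s k = s' k ∧ ∀ l < k, t l = t'' l := by
        intro k
        induction k with
        | zero => intro _; exact ⟨hσ, fun l hl => absurd hl (Nat.not_lt_zero l)⟩
        | succ k ihk =>
          intro hk
          obtain ⟨e1, e2⟩ := ihk (by omega)
          have h1 := hs' k (by omega)
          rw [← e1] at h1
          obtain ⟨e3, e4⟩ := ih k (by omega) h1
          refine ⟨e3, fun l hl => ?_⟩
          rcases Nat.lt_succ_iff_lt_or_eq.1 hl with h2 | rfl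
          · exact e2 l h2
          · exact e4
      obtain ⟨e1, e2⟩ := key n le_rfl
      refine ⟨e1, ?_⟩
      congr 1
      refine Finset.sum_congr rfl fun k hk => ?_
      rw [e2 k (Finset.mem_range.1 hk)]

end Pool.Agent.H394R3
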