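import Pool.Agent.H394R3.Pack

set_option autoImplicit false

/-!
# Rounded products
-/

namespace Pool.Agent.H394R3

open Finset

/-- round the arrays `a` and `b` and multiply the results; the rounded arrays are 17 and 18, the
product is 23 -/
def cMul (a b : ℕ) : Cmd := .seq (cRC a 17) (.seq (cRC b 18) cPM)

/-- the rounding unit -/
noncomputable def dl (r : ℕ) : ℝ := 1 / 2 ^ (3 * r)

/-- The scalars 4-10 hold the parameters `2 ^ p ≥ n`, `β = 2 ^ (-r)`, `H = 2 ^ r`, `δ = 2 ^ (-3 r)`,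
`c = 2 ^ p H ^ 2`, `w₀ = 2 c`, `ζ = δ ^ 2 / (4 w₀)`. -/
structure Par (n p r : ℕ) (σ : Mem) : Prop where
  hp : n ≤ 2 ^ p
  s4 : σ 4 0 0 = 2 ^ p
  s5 : σ 5 0 0 = 1 / 2 ^ r
  s6 : σ 6 0 0 = 2 ^ r
  s7 : σ 7 0 0 = dl r
  s8 : σ 8 0 0 = 2 ^ p * (2 ^ r * 2 ^ r)
  s9 : σ 9 0 0 = 2 * (2 ^ p * (2 ^ r * 2 ^ r))
  s10 : σ 10 0 0 = dl r * dl r / (4 * (2 * (2 ^ p * (2 ^ r * 2 ^ r))))

theorem Par.congr {n p r : ℕ} {σ σ' : Mem} (h : Par n p r σ)
    (e : ∀ a, 4 ≤ a → a ≤ 10 → σ' a = σ a) : Par n p r σ' := by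
  refine ⟨h.hp, ?_, ?_, ?_, ?_, ?_, ?_, ?_⟩
  · rw [e 4 (by norm_num) (by norm_num)]; exact h.s4
  · rw [e 5 (by norm_num) (by norm_num)]; exact h.s5
  · rw [e 6 (by norm_num) (by norm_num)]; exact h.s6
  · rw [e 7 (by norm_num) (by norm_num)]; exact h.s7
  · rw [e 8 (by norm_num) (by norm_num)]; exact h.s8
  · rw [e 9 (by norm_num) (by norm_num)]; exact h.s9
  · rw [e 10 (by norm_num) (by norm_num)]; exact h.s10

theorem dl_pos (r : ℕ) : 0 < dl r := by unfold dl; positivity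

theorem two_H (r : ℕ) : 2 * (2 : ℝ) ^ r = dl r * 2 ^ (4 * r + 1) := by
  unfold dl
  have : (2 : ℝ) ^ (4 * r + 1) = 2 ^ (3 * r) * 2 ^ r * 2 := by
    rw [← pow_add, ← pow_succ]; congr 1; ring
  rw [this]
  field_simp

theorem w_eq (p r : ℕ) : 2 * ((2 : ℝ) ^ p * (2 ^ r * 2 ^ r)) = dl r * dl r * 2 ^ (p + 8 * r + 1) := by
  unfold dl
  have : (2 : ℝ) ^ (p + 8 * r + 1) = 2 ^ p * (2 ^ r * 2 ^ r) * (2 ^ (3 * r) * 2 ^ (3 * r)) * 2 := by
    rw [← pow_add, ← pow_add, ← pow_add, ← pow_add, ← pow_succ]; congr 1; ring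
  rw [this]
  field_simp

/-- cost of a rounded product -/
def mulCost (n p r : ℕ) : ℕ := (p + 16 * r + 13) * (n * n * 48 + 40)

theorem cMul_run {n m p r a b : ℕ} (ha : a < 15) (hb : b < 15) (σ : Mem) (h : Par n p r σ) :
    Run n m (cMul a b) σ (mulCost n p r)
      (fun σ' => (∀ c, c < 15 ∨ 23 < c → σ' c = σ c) ∧
        (∀ i < n, ∀ j < n, Rounded (2 ^ r) (dl r) (σ a i j) (σ' 17 i j)) ∧
        (∀ i < n, ∀ j < n, Rounded (2 ^ r) (dl r) (σ b i j) (σ' 18 i j)) ∧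
        ∀ i < n, ∀ j < n, σ' 23 i j = ∑ k ∈ range n, σ' 17 i k * σ' 18 k j) := by
  have key : Run n m (cMul a b) σ ((4 * r + 1 + 3) * (n * n * 24 + 20) +
      ((4 * r + 1 + 3) * (n * n * 24 + 20) + (p + 8 * r + 1 + 4) * (n * n * 40 + 40)))
      (fun σ' => (∀ c, c < 15 ∨ 23 < c → σ' c = σ c) ∧
        (∀ i < n, ∀ j < n, Rounded (2 ^ r) (dl r) (σ a i j) (σ' 17 i j)) ∧
        (∀ i < n, ∀ j < n, Rounded (2 ^ r) (dl r) (σ b i j) (σ' 18 i j)) ∧
        ∀ i < n, ∀ j < n, σ' 23 i j = ∑ k ∈ range n, σ' 17 i k * σ' 18 k j) := by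
    refine Run.seq ((cRC_run (by norm_num) (by norm_num) (by norm_num) (by norm_num) (dl_pos r)
      (two_H r) (by omega) σ h.s6 h.s7).mono le_rfl ?_)
    rintro σ1 ⟨f1, f2⟩
    have h1 : Par n p r σ1 := h.congr fun a ha hb => f1 a (by omega) (by omega) (by omega)
    refine Run.seq ((cRC_run (by norm_num) (by norm_num) (by norm_num) (by norm_num) (dl_pos r)
      (two_H r) (by omega) σ1 h1.s6 h1.s7).mono le_rfl ?_)
    rintro σ2 ⟨g1, g2⟩
    have h2 : Par n p r σ2 := h1.congr fun a ha hb => g1 a (by omega) (by omega) (by omega)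
    have e17 : σ2 17 = σ1 17 := g1 17 (by norm_num) (by norm_num) (by norm_num)
    have eb : σ1 b = σ b := f1 b (by omega) (by omega) (by omega)
    refine (cPM_run (H := 2 ^ r) (dl_pos r) (w_eq p r) (by omega) rfl rfl ?_ σ2 h2.s7 h2.s8 h2.s9
      h2.s10 ?_ ?_).mono le_rfl ?_
    · have : (n : ℝ) ≤ 2 ^ p := by exact_mod_cast h.hp
      exact mul_le_mul_of_nonneg_right this (by positivity)
    · intro i hi j hj
      rw [e17]
      exact ⟨(f2 i hi j hj).1, (f2 i hi j hj).2.2⟩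
    · intro i hi j hj
      exact ⟨(g2 i hi j hj).1, (g2 i hi j hj).2.2⟩
    · rintro σ3 ⟨k1, k2⟩
      refine ⟨?_, ?_, ?_, ?_⟩
      · intro c hc
        rw [k1 c (by omega), g1 c (by omega) (by omega) (by omega),
          f1 c (by omega) (by omega) (by omega)]
      · intro i hi j hj
        rw [k1 17 (by omega), e17]; exact f2 i hi j hj
      · intro i hi j hj
        rw [k1 18 (by omega), ← eb]; exact g2 i hi j hj
      · intro i hi j hj
        rw [k2 i hi j hj, k1 17 (by omega), k1 18 (by omega)]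
  refine key.mono ?_ fun _ h => h
  unfold mulCost
  nlinarith [Nat.zero_le (r * (n * n)), Nat.zero_le (p * (n * n)), Nat.zero_le (n * n),
    Nat.zero_le r, Nat.zero_le p]

/-- set the parameters: halve `β` and compute the others -/
def cPar : Cmd :=
  .seq (.asg 5 .zero .zero (.div (eS 5) (.const 2)))
  (.seq (.asg 6 .zero .zero (.div (.const 1) (eS 5)))
  (.seq (.asg 7 .zero .zero (.mul (eS 5) (.mul (eS 5) (eS 5))))
  (.seq (.asg 8 .zero .zero (.mul (eS 4) (.mul (eS 6) (eS 6))))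
  (.seq (.asg 9 .zero .zero (.mul (.const 2) (eS 8)))
    (.asg 10 .zero .zero (.div (.mul (eS 7) (eS 7)) (.mul (.const 4) (eS 9))))))))

theorem cPar_run {n m p r : ℕ} (σ : Mem) (hp : n ≤ 2 ^ p) (h4 : σ 4 0 0 = 2 ^ p)
    (h5 : σ 5 0 0 = 1 / 2 ^ r) :
    Run n m cPar σ 40 (fun σ' => Par n p (r + 1) σ' ∧ ∀ a, a < 5 ∨ 10 < a → σ' a = σ a) := by
  have key : Run n m cPar σ (4 + (4 + (6 + (6 + (4 + 8)))))
      (fun σ' => Par n p (r + 1) σ' ∧ ∀ a, a < 5 ∨ 10 < a → σ' a = σ a) := by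
    refine Run.seq (Run.asg ?_ (by simp [Tgt.count, Ex.cost]))
    refine Run.seq (Run.asg ?_ (by simp [Tgt.count, Ex.cost]))
    refine Run.seq (Run.asg ?_ (by simp [Tgt.count, Ex.cost]))
    refine Run.seq (Run.asg ?_ (by simp [Tgt.count, Ex.cost]))
    refine Run.seq (Run.asg ?_ (by simp [Tgt.count, Ex.cost]))
    refine Run.asg ?_ (by simp [Tgt.count, Ex.cost])
    refine ⟨⟨hp, ?_, ?_, ?_, ?_, ?_, ?_, ?_⟩, ?_⟩
    · simp [Mem.asg, Tgt.has, h4]
    · simp [Mem.asg, Tgt.has, Ex.eval, Ix.val, h5, pow_succ]; ring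
    · simp [Mem.asg, Tgt.has, Ex.eval, Ix.val, h5, pow_succ]; ring
    · simp [Mem.asg, Tgt.has, Ex.eval, Ix.val, h5, dl]
      rw [show 3 * (r + 1) = 3 * r + 3 by ring, pow_add, pow_mul']
      field_simp
    · simp [Mem.asg, Tgt.has, Ex.eval, Ix.val, h4, h5, pow_succ]; ring
    · simp [Mem.asg, Tgt.has, Ex.eval, Ix.val, h4, h5, pow_succ]; ring
    · simp [Mem.asg, Tgt.has, Ex.eval, Ix.val, h4, h5, dl]
      rw [show 3 * (r + 1) = 3 * r + 3 by ring, pow_add, pow_mul']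
      field_simp
      ring
    · intro a ha
      rw [asg_other (by omega), asg_other (by omega), asg_other (by omega), asg_other (by omega),
        asg_other (by omega), asg_other (by omega)]
  exact key.mono (by norm_num) fun _ h => h

end Pool.Agent.H394R3
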