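import Pool.Agent.H394R3.Norm

set_option autoImplicit false

/-!
# Newton iteration with rounding errors
-/

namespace Pool.Agent.H394R3

open Matrix
open scoped Matrix.Norms.L2Operator

variable {n : ℕ}

/-- `B` is obtained from `A` by rounding the entries -/
def RdM (H δ : ℝ) (A B : Matrix (Fin n) (Fin n) ℝ) : Prop :=
  ∀ i j, |B i j| ≤ H ∧ (|A i j| ≤ H → |B i j - A i j| ≤ δ)

/-- the sum of the absolute values of the entries -/
noncomputable def S1 (M : Matrix (Fin n) (Fin n) ℝ) : ℝ := ∑ i, ∑ j, |M i j|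

theorem norm_le_S1 (M : Matrix (Fin n) (Fin n) ℝ) : ‖M‖ ≤ S1 M := norm_le_sum M

theorem S1_le_of {M : Matrix (Fin n) (Fin n) ℝ} {c : ℝ} (h : ∀ i j, |M i j| ≤ c) :
    S1 M ≤ n * n * c := by
  unfold S1
  calc ∑ i, ∑ j, |M i j| ≤ ∑ _i : Fin n, ∑ _j : Fin n, c :=
        Finset.sum_le_sum fun i _ => Finset.sum_le_sum fun j _ => h i j
    _ = n * n * c := by simp; ring

theorem S1_le_norm (M : Matrix (Fin n) (Fin n) ℝ) : S1 M ≤ n * n * ‖M‖ :=
  S1_le_of fun i j => abs_entry_le M i j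

theorem S1_add (M N : Matrix (Fin n) (Fin n) ℝ) : S1 (M + N) ≤ S1 M + S1 N := by
  unfold S1
  rw [← Finset.sum_add_distrib]
  refine Finset.sum_le_sum fun i _ => ?_
  rw [← Finset.sum_add_distrib]
  exact Finset.sum_le_sum fun j _ => abs_add_le _ _

theorem RdM.norm_sub {H δ : ℝ} {A B : Matrix (Fin n) (Fin n) ℝ} (h : RdM H δ A B)
    (hA : ‖A‖ ≤ H) : ‖B - A‖ ≤ n * n * δ := by
  refine (norm_le_S1 _).trans (S1_le_of fun i j => ?_)
  exact (h i j).2 ((abs_entry_le A i j).trans hA)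

/-- One step of the iteration with rounding. -/
def StepRel (H δ : ℝ) (A X X' : Matrix (Fin n) (Fin n) ℝ) : Prop :=
  ∃ A1 X1 X2 Y1 : Matrix (Fin n) (Fin n) ℝ, RdM H δ A A1 ∧ RdM H δ X X1 ∧ RdM H δ X X2 ∧
    RdM H δ (2 - A1 * X1) Y1 ∧ X' = X2 * Y1

theorem norm_two_le : ‖(2 : Matrix (Fin n) (Fin n) ℝ)‖ ≤ 2 := by
  have h : (2 : Matrix (Fin n) (Fin n) ℝ) = 1 + 1 := by norm_num
  rw [h]
  refine (norm_add_le _ _).trans ?_
  have := one_norm_le (n := n)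
  linarith

/-- `X` is close to the inverse: its norm is bounded. -/
theorem norm_X_le {A B X : Matrix (Fin n) (Fin n) ℝ} {K : ℝ} (hBA : B * A = 1) (hB : ‖B‖ ≤ K)
    (hR : ‖1 - X * A‖ ≤ 1) : ‖X‖ ≤ 2 * K := by
  have hAB : A * B = 1 := mul_eq_one_comm.1 hBA
  have e : X = (1 - (1 - X * A)) * B := by
    rw [sub_sub_cancel, Matrix.mul_assoc, hAB, Matrix.mul_one]
  have h1 : ‖(1 : Matrix (Fin n) (Fin n) ℝ) - (1 - X * A)‖ ≤ 2 := by
    refine (norm_sub_le _ _).trans ?_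
    have := one_norm_le (n := n)
    linarith
  calc ‖X‖ = ‖(1 - (1 - X * A)) * B‖ := by rw [← e]
    _ ≤ ‖(1 : Matrix (Fin n) (Fin n) ℝ) - (1 - X * A)‖ * ‖B‖ := norm_mul_le _ _
    _ ≤ 2 * K := mul_le_mul h1 hB (norm_nonneg _) (by norm_num)

theorem step_bound {H δ K : ℝ} {A B X X' : Matrix (Fin n) (Fin n) ℝ} (hA : ‖A‖ ≤ 1)
    (hBA : B * A = 1) (hB : ‖B‖ ≤ K) (hK : 1 ≤ K) (hH : 8 * K ≤ H) (hδ : 0 ≤ δ)
    (he : n * n * δ ≤ 1) (hR : ‖1 - X * A‖ ≤ 1) (h : StepRel H δ A X X') :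
    ‖1 - X' * A‖ ≤ ‖1 - X * A‖ ^ 2 + 20 * K ^ 2 * (n * n * δ) := by
  obtain ⟨A1, X1, X2, Y1, hA1, hX1, hX2, hY1, rfl⟩ := h
  set e : ℝ := n * n * δ with he'
  have he0 : 0 ≤ e := by positivity
  have hX : ‖X‖ ≤ 2 * K := norm_X_le hBA hB hR
  have k1 : ‖X1 - X‖ ≤ e := hX1.norm_sub (by linarith)
  have k2 : ‖X2 - X‖ ≤ e := hX2.norm_sub (by linarith)
  have k3 : ‖A1 - A‖ ≤ e := hA1.norm_sub (by linarith)
  have hX1n : ‖X1‖ ≤ 2 * K + e := by
    have : X1 = X + (X1 - X) := by abel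
    rw [this]
    exact (norm_add_le _ _).trans (add_le_add hX k1)
  set F1 := A1 * X1 - A * X with hF1
  have eF1 : F1 = (A1 - A) * X1 + A * (X1 - X) := by
    rw [hF1, sub_mul, mul_sub]; abel
  have hF1n : ‖F1‖ ≤ 4 * K * e := by
    rw [eF1]
    have h1 : ‖(A1 - A) * X1‖ ≤ e * (2 * K + e) :=
      (norm_mul_le _ _).trans (mul_le_mul k3 hX1n (norm_nonneg _) he0)
    have h2 : ‖A * (X1 - X)‖ ≤ 1 * e :=
      (norm_mul_le _ _).trans (mul_le_mul hA k1 (norm_nonneg _) (by norm_num))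
    refine (norm_add_le _ _).trans ((add_le_add h1 h2).trans ?_)
    nlinarith
  have hAX : ‖A * X‖ ≤ 2 * K := by
    refine (norm_mul_le _ _).trans ?_
    have := mul_le_mul hA hX (norm_nonneg _) (by norm_num : (0 : ℝ) ≤ 1)
    linarith
  have hF1' : ‖F1‖ ≤ 4 * K := by nlinarith
  have eY : 2 - A1 * X1 = 2 - A * X - F1 := by rw [hF1]; abel
  have hYn : ‖2 - A1 * X1‖ ≤ 8 * K := by
    rw [eY]
    refine (norm_sub_le _ _).trans ?_
    have := norm_sub_le (2 : Matrix (Fin n) (Fin n) ℝ) (A * X)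
    have h2 := norm_two_le (n := n)
    linarith
  have k4 : ‖Y1 - (2 - A1 * X1)‖ ≤ e := hY1.norm_sub (by linarith)
  have hY1n : ‖Y1‖ ≤ 8 * K + e := by
    have : Y1 = (2 - A1 * X1) + (Y1 - (2 - A1 * X1)) := by abel
    rw [this]
    exact (norm_add_le _ _).trans (add_le_add hYn k4)
  set G := (X2 - X) * Y1 + X * ((Y1 - (2 - A1 * X1)) - F1) with hG
  have hGn : ‖G‖ ≤ 20 * K ^ 2 * e := by
    have h1 : ‖(X2 - X) * Y1‖ ≤ e * (8 * K + e) :=
      (norm_mul_le _ _).trans (mul_le_mul k2 hY1n (norm_nonneg _) he0)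
    have h2 : ‖(Y1 - (2 - A1 * X1)) - F1‖ ≤ e + 4 * K * e :=
      (norm_sub_le _ _).trans (add_le_add k4 hF1n)
    have h3 : ‖X * ((Y1 - (2 - A1 * X1)) - F1)‖ ≤ 2 * K * (e + 4 * K * e) :=
      (norm_mul_le _ _).trans (mul_le_mul hX h2 (norm_nonneg _) (by linarith))
    refine (norm_add_le _ _).trans ((add_le_add h1 h3).trans ?_)
    nlinarith [mul_nonneg he0 (by linarith : (0 : ℝ) ≤ K - 1), sq_nonneg K,
      mul_nonneg he0 (sq_nonneg (K - 1))]
  have e1 : 1 - X2 * Y1 * A = (1 - X * A) * (1 - X * A) - G * A := by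
    rw [hG, eY]
    noncomm_ring
  rw [e1]
  refine (norm_sub_le _ _).trans (add_le_add ?_ ?_)
  · rw [sq]; exact norm_mul_le _ _
  · refine (norm_mul_le _ _).trans ?_
    calc ‖G‖ * ‖A‖ ≤ (20 * K ^ 2 * e) * 1 :=
          mul_le_mul hGn hA (norm_nonneg _) (by positivity)
      _ = 20 * K ^ 2 * e := by ring

/-- the sequence of bounds for the norms of the residuals -/
noncomputable def rho (g η : ℝ) : ℕ → ℝ
  | 0 => 1 - g
  | t + 1 => rho g η t ^ 2 + η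

theorem rho_phase1 {g η : ℝ} (hg : 0 < g) (hg1 : g ≤ 1 / 2) (hη : 0 ≤ η) (hη1 : η ≤ g / 4)
    (t : ℕ) : 0 ≤ rho g η t ∧ rho g η t ≤ 1 - min (1 / 2) (g * (5 / 4) ^ t) := by
  induction t with
  | zero =>
    refine ⟨by simp only [rho]; linarith, ?_⟩
    simp only [rho, pow_zero, mul_one]
    have := min_le_right (1 / 2) g
    linarith
  | succ t ih =>
    obtain ⟨h0, h1⟩ := ih
    set m := min (1 / 2) (g * (5 / 4) ^ t) with hm
    have hm1 : m ≤ 1 / 2 := min_le_left _ _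
    have hm2 : g ≤ m := by
      apply le_min hg1
      have : (1 : ℝ) ≤ (5 / 4) ^ t := one_le_pow₀ (by norm_num)
      nlinarith
    have hm3 : min (1 / 2) (g * (5 / 4) ^ (t + 1)) ≤ 5 / 4 * m := by
      rw [hm, mul_min_of_nonneg _ _ (by norm_num : (0 : ℝ) ≤ 5 / 4), pow_succ]
      apply min_le_min
      · norm_num
      · apply le_of_eq; ring
    refine ⟨by simp only [rho]; positivity, ?_⟩
    simp only [rho]
    have h2 : rho g η t ^ 2 ≤ (1 - m) ^ 2 := pow_le_pow_left₀ h0 h1 2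
    nlinarith

theorem rho_le_one {g η : ℝ} (hg : 0 < g) (hg1 : g ≤ 1 / 2) (hη : 0 ≤ η) (hη1 : η ≤ g / 4)
    (t : ℕ) : rho g η t ≤ 1 := by
  have h := (rho_phase1 hg hg1 hη hη1 t).2
  have : 0 ≤ min (1 / 2) (g * (5 / 4) ^ t) := le_min (by norm_num) (by positivity)
  linarith

theorem rho_phase2 {g η : ℝ} (hg : 0 < g) (hg1 : g ≤ 1 / 2) (hη : 0 ≤ η) (hη1 : η ≤ g / 4)
    {t : ℕ} (ht : 1 / 2 ≤ g * (5 / 4) ^ t) (s : ℕ) :
    rho g η (t + s) ≤ 1 / 2 ∧ rho g η (t + s) ≤ 1 / 2 ^ (s + 1) + 2 * η := by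
  have h0 := fun t => (rho_phase1 hg hg1 hη hη1 t).1
  induction s with
  | zero =>
    have h1 := (rho_phase1 hg hg1 hη hη1 t).2
    rw [min_eq_left ht] at h1
    refine ⟨by simpa using (by linarith : rho g η t ≤ 1 / 2), ?_⟩
    simp only [add_zero, zero_add, pow_one]
    linarith
  | succ s ih =>
    obtain ⟨h1, h2⟩ := ih
    have h3 := h0 (t + s)
    have h4 : rho g η (t + (s + 1)) = rho g η (t + s) ^ 2 + η := rfl
    have h5 : rho g η (t + s) ^ 2 ≤ rho g η (t + s) * (1 / 2) := by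
      rw [sq]; exact mul_le_mul_of_nonneg_left h1 h3
    rw [h4]
    refine ⟨by linarith, ?_⟩
    have h6 : (1 : ℝ) / 2 ^ (s + 1 + 1) = 1 / 2 ^ (s + 1) / 2 := by
      rw [pow_succ]; field_simp
    rw [h6]
    linarith

/-- the final check -/
def CheckRel (H δ : ℝ) (A X X' : Matrix (Fin n) (Fin n) ℝ) (s e : ℝ) : Prop :=
  ∃ A1 A2 X2 : Matrix (Fin n) (Fin n) ℝ, RdM H δ X X' ∧ RdM H δ A A1 ∧ RdM H δ A A2 ∧
    RdM H δ X' X2 ∧ s = S1 (X' * A1 - 1) + S1 (A2 * X2 - 1) + 3 * e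

theorem abs_mul_entry {M N : Matrix (Fin n) (Fin n) ℝ} {a b : ℝ} (hM : ∀ i j, |M i j| ≤ a)
    (hN : ∀ i j, |N i j| ≤ b) (i j : Fin n) : |(M * N) i j| ≤ n * (a * b) := by
  rw [Matrix.mul_apply]
  refine (Finset.abs_sum_le_sum_abs (fun k => M i k * N k j) Finset.univ).trans ?_
  calc ∑ k, |M i k * N k j| ≤ ∑ _k : Fin n, a * b := by
        refine Finset.sum_le_sum fun k _ => ?_
        rw [abs_mul]
        exact mul_le_mul (hM i k) (hN k j) (abs_nonneg _) ((abs_nonneg _).trans (hM i k))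
    _ = n * (a * b) := by simp

/-- The check is sound. -/
theorem check_sound {H δ s e : ℝ} {A X X' : Matrix (Fin n) (Fin n) ℝ} (hA : ‖A‖ ≤ 1)
    (hH : 1 ≤ H) (hδ : 0 ≤ δ) (he : (n : ℝ) ^ 3 * (H * δ) ≤ e)
    (h : CheckRel H δ A X X' s e) : ‖1 - X' * A‖ ≤ s ∧ ‖1 - A * X'‖ ≤ s := by
  obtain ⟨A1, A2, X2, hX', hA1, hA2, hX2, rfl⟩ := h
  have hAe : ∀ i j, |A i j| ≤ H := fun i j => (abs_entry_le A i j).trans (hA.trans hH)
  have hA1' : ∀ i j, |(A1 - A) i j| ≤ δ := fun i j => (hA1 i j).2 (hAe i j)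
  have hA2' : ∀ i j, |(A2 - A) i j| ≤ δ := fun i j => (hA2 i j).2 (hAe i j)
  have hX2' : ∀ i j, |(X2 - X') i j| ≤ δ := fun i j => (hX2 i j).2 (hX' i j).1
  have he0 : 0 ≤ (n : ℝ) ^ 3 * (H * δ) := by positivity
  have hS0 : ∀ M : Matrix (Fin n) (Fin n) ℝ, 0 ≤ S1 M := fun M =>
    (norm_nonneg M).trans (norm_le_S1 M)
  constructor
  · have e1 : 1 - X' * A = -(X' * A1 - 1) + X' * (A1 - A) := by noncomm_ring
    rw [e1]
    refine (norm_add_le _ _).trans ?_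
    rw [norm_neg]
    have h1 : ‖X' * (A1 - A)‖ ≤ n * n * (n * (H * δ)) :=
      (norm_le_S1 _).trans (S1_le_of (abs_mul_entry (fun i j => (hX' i j).1) hA1'))
    have h2 := norm_le_S1 (X' * A1 - 1)
    have h3 := hS0 (A2 * X2 - 1)
    have h4 : (n : ℝ) * n * (n * (H * δ)) = n ^ 3 * (H * δ) := by ring
    rw [h4] at h1
    linarith
  · have e1 : 1 - A * X' = -(A2 * X2 - 1) + ((A2 - A) * X2 + A * (X2 - X')) := by noncomm_ring
    rw [e1]
    refine (norm_add_le _ _).trans ?_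
    rw [norm_neg]
    have h1 : ‖(A2 - A) * X2‖ ≤ n * n * (n * (δ * H)) :=
      (norm_le_S1 _).trans (S1_le_of (abs_mul_entry hA2' (fun i j => (hX2 i j).1)))
    have h1' : ‖A * (X2 - X')‖ ≤ n * n * (n * (H * δ)) :=
      (norm_le_S1 _).trans (S1_le_of (abs_mul_entry hAe hX2'))
    have h2 := norm_le_S1 (A2 * X2 - 1)
    have h3 := hS0 (X' * A1 - 1)
    have h4 : (n : ℝ) * n * (n * (H * δ)) = n ^ 3 * (H * δ) := by ring
    have h5 : (n : ℝ) * n * (n * (δ * H)) = n ^ 3 * (H * δ) := by ring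
    rw [h4] at h1'
    rw [h5] at h1
    have h6 := norm_add_le ((A2 - A) * X2) (A * (X2 - X'))
    linarith

/-- The check is passed if the residual is small. -/
theorem check_complete {H δ s e K ρ : ℝ} {A B X X' : Matrix (Fin n) (Fin n) ℝ} (hA : ‖A‖ ≤ 1)
    (hBA : B * A = 1) (hB : ‖B‖ ≤ K) (hK : 1 ≤ K) (hH : 8 * K ≤ H) (hδ : 0 ≤ δ)
    (he : n * n * δ ≤ 1) (hρ : ρ ≤ 1) (hR : ‖1 - X * A‖ ≤ ρ)
    (h : CheckRel H δ A X X' s e) :
    s ≤ n * n * (2 * K * ρ + 10 * K * (n * n * δ)) + 3 * e := by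
  obtain ⟨A1, A2, X2, hX', hA1, hA2, hX2, rfl⟩ := h
  have hAB : A * B = 1 := mul_eq_one_comm.1 hBA
  set d : ℝ := n * n * δ with hd
  have hd0 : 0 ≤ d := by positivity
  have hρ0 : 0 ≤ ρ := (norm_nonneg _).trans hR
  have hX : ‖X‖ ≤ 2 * K := norm_X_le hBA hB (hR.trans hρ)
  have k1 : ‖X' - X‖ ≤ d := hX'.norm_sub (by linarith)
  have k2 : ‖A1 - A‖ ≤ d := hA1.norm_sub (by linarith)
  have k3 : ‖A2 - A‖ ≤ d := hA2.norm_sub (by linarith)
  have hX'n : ‖X'‖ ≤ 2 * K + d := by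
    have : X' = X + (X' - X) := by abel
    rw [this]
    exact (norm_add_le _ _).trans (add_le_add hX k1)
  have k4 : ‖X2 - X'‖ ≤ d := hX2.norm_sub (by linarith)
  have hX2n : ‖X2‖ ≤ 2 * K + 2 * d := by
    have : X2 = X' + (X2 - X') := by abel
    rw [this]
    refine (norm_add_le _ _).trans ((add_le_add hX'n k4).trans (le_of_eq (by ring)))
  have e1 : X' * A1 - 1 = -(1 - X * A) + ((X' - X) * A + X' * (A1 - A)) := by noncomm_ring
  have e2 : A2 * X2 - 1 = -(1 - A * X) + ((A2 - A) * X2 + (A * (X' - X) + A * (X2 - X'))) := by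
    noncomm_ring
  have hR2 : ‖1 - A * X‖ ≤ K * ρ := by
    have e3 : 1 - A * X = A * (1 - X * A) * B := by
      have : A * (1 - X * A) * B = A * B - A * X * (A * B) := by noncomm_ring
      rw [this, hAB, Matrix.mul_one]
    rw [e3]
    refine (norm_mul_le _ _).trans ?_
    have h1 : ‖A * (1 - X * A)‖ ≤ 1 * ρ :=
      (norm_mul_le _ _).trans (mul_le_mul hA hR (norm_nonneg _) (by norm_num))
    calc ‖A * (1 - X * A)‖ * ‖B‖ ≤ (1 * ρ) * K := mul_le_mul h1 hB (norm_nonneg _) (by linarith)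
      _ = K * ρ := by ring
  have n1 : ‖X' * A1 - 1‖ ≤ ρ + (d + (2 * K + d) * d) := by
    rw [e1]
    refine (norm_add_le _ _).trans (add_le_add (by rw [norm_neg]; exact hR) ?_)
    refine (norm_add_le _ _).trans (add_le_add ?_ ?_)
    · refine (norm_mul_le _ _).trans ?_
      calc ‖X' - X‖ * ‖A‖ ≤ d * 1 := mul_le_mul k1 hA (norm_nonneg _) hd0
        _ = d := by ring
    · exact (norm_mul_le _ _).trans (mul_le_mul hX'n k2 (norm_nonneg _) (by positivity))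
  have n2 : ‖A2 * X2 - 1‖ ≤ K * ρ + (d * (2 * K + 2 * d) + (d + d)) := by
    rw [e2]
    refine (norm_add_le _ _).trans (add_le_add (by rw [norm_neg]; exact hR2) ?_)
    refine (norm_add_le _ _).trans (add_le_add ?_ ?_)
    · exact (norm_mul_le _ _).trans (mul_le_mul k3 hX2n (norm_nonneg _) hd0)
    · refine (norm_add_le _ _).trans (add_le_add ?_ ?_)
      · refine (norm_mul_le _ _).trans ?_
        calc ‖A‖ * ‖X' - X‖ ≤ 1 * d := mul_le_mul hA k1 (norm_nonneg _) (by norm_num)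
          _ = d := by ring
      · refine (norm_mul_le _ _).trans ?_
        calc ‖A‖ * ‖X2 - X'‖ ≤ 1 * d := mul_le_mul hA k4 (norm_nonneg _) (by norm_num)
          _ = d := by ring
  have m1 := (S1_le_norm (X' * A1 - 1)).trans (mul_le_mul_of_nonneg_left n1 (by positivity))
  have m2 := (S1_le_norm (A2 * X2 - 1)).trans (mul_le_mul_of_nonneg_left n2 (by positivity))
  have hnn : (0 : ℝ) ≤ n * n := by positivity
  have m3 : (ρ + (d + (2 * K + d) * d)) + (K * ρ + (d * (2 * K + 2 * d) + (d + d))) ≤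
      2 * K * ρ + 10 * K * d + 0 := by
    have q1 : ρ ≤ K * ρ := by nlinarith
    have q2 : d ≤ K * d := by nlinarith
    have q3 : d * d ≤ K * d := by nlinarith
    nlinarith
  have m4 := mul_le_mul_of_nonneg_left m3 hnn
  nlinarith

end Pool.Agent.H394R3
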