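import Pool.Agent.H394R3.Defs

set_option autoImplicit false

/-!
# The Euclidean operator norm of real matrices
-/

namespace Pool.Agent.H394R3

open Matrix
open scoped Matrix.Norms.L2Operator

variable {n : ℕ}

theorem nrm_eq (x : Fin n → ℝ) : nrm x = ‖(WithLp.toLp 2 x : EuclideanSpace ℝ (Fin n))‖ := by
  rw [EuclideanSpace.norm_eq, nrm]
  congr 1
  refine Finset.sum_congr rfl fun i _ => ?_
  simp

theorem nrm_nonneg (x : Fin n → ℝ) : 0 ≤ nrm x := Real.sqrt_nonneg _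

theorem nrm_sq (x : Fin n → ℝ) : nrm x ^ 2 = ∑ i, x i ^ 2 :=
  Real.sq_sqrt (Finset.sum_nonneg fun _ _ => sq_nonneg _)

theorem abs_le_nrm (x : Fin n → ℝ) (i : Fin n) : |x i| ≤ nrm x := by
  rw [nrm]
  apply Real.abs_le_sqrt
  exact Finset.single_le_sum (f := fun i => x i ^ 2) (fun _ _ => sq_nonneg _) (Finset.mem_univ i)

theorem nrm_le_sum (x : Fin n → ℝ) : nrm x ≤ ∑ i, |x i| := by
  rw [nrm]
  apply Real.sqrt_le_iff.2
  refine ⟨Finset.sum_nonneg fun _ _ => abs_nonneg _, ?_⟩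
  calc ∑ i, x i ^ 2 = ∑ i, |x i| ^ 2 := by simp
    _ ≤ (∑ i, |x i|) ^ 2 := Finset.sum_sq_le_sq_sum_of_nonneg fun _ _ => abs_nonneg _

theorem mulVec_le (M : Matrix (Fin n) (Fin n) ℝ) (x : Fin n → ℝ) :
    nrm (M *ᵥ x) ≤ ‖M‖ * nrm x := by
  have := l2_opNorm_mulVec M (WithLp.toLp 2 x)
  rw [nrm_eq, nrm_eq]
  exact this

theorem norm_le_of_forall (M : Matrix (Fin n) (Fin n) ℝ) {c : ℝ} (hc : 0 ≤ c)
    (h : ∀ x : Fin n → ℝ, nrm (M *ᵥ x) ≤ c * nrm x) : ‖M‖ ≤ c := by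
  rw [cstar_norm_def]
  apply ContinuousLinearMap.opNorm_le_bound _ hc
  intro x
  have := h (WithLp.ofLp x)
  rw [nrm_eq, nrm_eq] at this
  exact this

theorem norm_le_sum (M : Matrix (Fin n) (Fin n) ℝ) : ‖M‖ ≤ ∑ i, ∑ j, |M i j| := by
  apply norm_le_of_forall
  · exact Finset.sum_nonneg fun i _ => Finset.sum_nonneg fun j _ => abs_nonneg (M i j)
  · intro x
    refine (nrm_le_sum _).trans ?_
    rw [Finset.sum_mul]
    refine Finset.sum_le_sum fun i _ => ?_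
    rw [Finset.sum_mul]
    have h1 : |∑ j, M i j * x j| ≤ ∑ j, |M i j * x j| := Finset.abs_sum_le_sum_abs _ _
    refine h1.trans (Finset.sum_le_sum fun j _ => ?_)
    rw [abs_mul]
    exact mul_le_mul_of_nonneg_left (abs_le_nrm x j) (abs_nonneg _)

theorem nrm_single (j : Fin n) : nrm (Pi.single j (1 : ℝ)) = 1 := by
  rw [nrm]
  have : ∑ i, (Pi.single j (1 : ℝ) : Fin n → ℝ) i ^ 2 = 1 := by
    rw [Finset.sum_eq_single j]
    · simp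
    · intro b _ hb
      simp [Pi.single_eq_of_ne hb]
    · simp
  rw [this, Real.sqrt_one]

theorem abs_entry_le (M : Matrix (Fin n) (Fin n) ℝ) (i j : Fin n) : |M i j| ≤ ‖M‖ := by
  have h1 := mulVec_le M (Pi.single j (1 : ℝ))
  rw [nrm_single, mul_one] at h1
  have h2 := abs_le_nrm (M *ᵥ (Pi.single j (1 : ℝ))) i
  simp only [mulVec_single_one, col_apply] at h2 h1
  exact h2.trans h1

theorem norm_transpose' (M : Matrix (Fin n) (Fin n) ℝ) : ‖Mᵀ‖ = ‖M‖ := by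
  have := l2_opNorm_conjTranspose M
  rwa [conjTranspose_eq_transpose_of_trivial] at this

theorem one_norm_le : ‖(1 : Matrix (Fin n) (Fin n) ℝ)‖ ≤ 1 := by
  apply norm_le_of_forall _ (by norm_num)
  intro x
  rw [one_mulVec, one_mul]

/-- `‖Mᵀ x‖² ≤ ‖x‖²`-type computations. -/
theorem nrm_sq_dot (x : Fin n → ℝ) : nrm x ^ 2 = x ⬝ᵥ x := by
  rw [nrm_sq, dotProduct]
  refine Finset.sum_congr rfl fun i _ => ?_
  ring

theorem start_norm (M : Matrix (Fin n) (Fin n) ℝ) (hM : ‖M‖ ≤ 1) {K : ℝ} (hK : 1 ≤ K)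
    (B : Matrix (Fin n) (Fin n) ℝ) (hB : B * M = 1) (hBK : ‖B‖ ≤ K) :
    ‖1 - Mᵀ * M‖ ≤ 1 - 1 / (2 * K ^ 2) := by
  have hK0 : 0 < K := by linarith
  have hK2 : 1 ≤ K ^ 2 := one_le_pow₀ hK
  have h1 : 1 / (2 * K ^ 2) ≤ 1 / 2 := by
    apply one_div_le_one_div_of_le (by norm_num); linarith
  have h1' : 0 < 1 / (2 * K ^ 2) := by positivity
  apply norm_le_of_forall _ (by linarith)
  intro x
  have e1 : (1 - Mᵀ * M) *ᵥ x = x - Mᵀ *ᵥ (M *ᵥ x) := by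
    rw [sub_mulVec, one_mulVec, mulVec_mulVec]
  have e2 : nrm (x - Mᵀ *ᵥ (M *ᵥ x)) ^ 2 =
      nrm x ^ 2 - 2 * nrm (M *ᵥ x) ^ 2 + nrm (Mᵀ *ᵥ (M *ᵥ x)) ^ 2 := by
    rw [nrm_sq_dot, nrm_sq_dot, nrm_sq_dot, nrm_sq_dot]
    rw [sub_dotProduct, dotProduct_sub, dotProduct_sub]
    have e3 : x ⬝ᵥ Mᵀ *ᵥ (M *ᵥ x) = M *ᵥ x ⬝ᵥ M *ᵥ x := by
      rw [dotProduct_mulVec, vecMul_transpose]
    have e4 : Mᵀ *ᵥ (M *ᵥ x) ⬝ᵥ x = M *ᵥ x ⬝ᵥ M *ᵥ x := by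
      rw [dotProduct_comm, e3]
    rw [e3, e4]; ring
  have e5 : nrm (Mᵀ *ᵥ (M *ᵥ x)) ≤ nrm (M *ᵥ x) := by
    have := mulVec_le Mᵀ (M *ᵥ x)
    rw [norm_transpose'] at this
    have h2 := nrm_nonneg (M *ᵥ x)
    nlinarith
  have e6 : nrm x ≤ K * nrm (M *ᵥ x) := by
    have h3 := mulVec_le B (M *ᵥ x)
    rw [mulVec_mulVec, hB, one_mulVec] at h3
    exact h3.trans (mul_le_mul_of_nonneg_right hBK (nrm_nonneg _))
  have hx := nrm_nonneg x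
  have hMx := nrm_nonneg (M *ᵥ x)
  have e7 : nrm (Mᵀ *ᵥ (M *ᵥ x)) ^ 2 ≤ nrm (M *ᵥ x) ^ 2 :=
    pow_le_pow_left₀ (nrm_nonneg _) e5 2
  have e8 : nrm x ^ 2 ≤ K ^ 2 * nrm (M *ᵥ x) ^ 2 := by
    have := pow_le_pow_left₀ hx e6 2
    rwa [mul_pow] at this
  have e9 : nrm x ^ 2 / K ^ 2 ≤ nrm (M *ᵥ x) ^ 2 := by
    rw [div_le_iff₀ (by positivity)]; linarith
  rw [e1]
  apply le_of_sq_le_sq
  · rw [e2, mul_pow]
    have e10 : (1 - 1 / (2 * K ^ 2)) ^ 2 = 1 - 1 / K ^ 2 + (1 / (2 * K ^ 2)) ^ 2 := by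
      field_simp; ring
    have e11 : 0 ≤ (1 / (2 * K ^ 2)) ^ 2 * nrm x ^ 2 := by positivity
    have e12 : 1 / K ^ 2 * nrm x ^ 2 = nrm x ^ 2 / K ^ 2 := by ring
    rw [e10]
    nlinarith
  · exact mul_nonneg (by linarith) hx
where
  le_of_sq_le_sq {a b : ℝ} (h : a ^ 2 ≤ b ^ 2) (hb : 0 ≤ b) : a ≤ b := by
    exact abs_le_of_sq_le_sq' h hb |>.2

end Pool.Agent.H394R3
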