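import Pool.Agent.H394R3.Round

set_option autoImplicit false

/-!
# The product of two rounded matrices by packing
-/

namespace Pool.Agent.H394R3

open Finset

/-- the powers of `ζ` (scalar 10) in array 20 -/
def cPow : Cmd :=
  .seq (.asg 19 .zero .zero (.const 1))
  (.loop (.seq (.asg 20 .zero .cur (eS 19)) (.asg 19 .zero .zero (.mul (eS 19) (eS 10)))))

/-- one binary digit of the current digit of the packed numbers (array 22) -/
def stepD : Cmd :=
  .seq (.asg 23 .all .cur (.ite (.mul (eS 16) (.cell 20 .z .m)) (.cell 22 .i .z)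
      (.add (eC 23) (eS 16)) (eC 23)))
  (.seq (.asg 22 .all .zero (.ite (.mul (eS 16) (.cell 20 .z .m)) (.cell 22 .i .z)
      (.sub (.cell 22 .i .z) (.mul (eS 16) (.cell 20 .z .m))) (.cell 22 .i .z)))
    (.asg 16 .zero .zero (.div (eS 16) (.const 2))))

/-- unpack the packed numbers -/
def cUnpack : Cmd :=
  .loop (.seq (.asg 16 .zero .zero (eS 9))
    (.whl (.mul (eS 7) (eS 7)) (.add (eS 16) (eS 16)) stepD))

/-- the product of the arrays 17 and 18, result in array 23 -/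
def cPM : Cmd :=
  .seq cPow
  (.seq (.asg 21 .all .zero (.sum (.mul (.cell 18 .i .k) (.cell 20 .z .k))))
  (.seq (.asg 22 .all .zero (.sum (.add (.mul (.cell 17 .i .k) (.cell 21 .k .z))
      (.mul (eS 8) (.cell 20 .z .k)))))
  (.seq (.asg 23 .all .all (.sub (.const 0) (eS 8))) cUnpack)))

theorem cPow_run {n m : ℕ} {ζ : ℝ} (σ : Mem) (s10 : σ 10 0 0 = ζ) :
    Run n m cPow σ (n * 8 + 4)
      (fun σ' => (∀ a, a ≠ 19 → a ≠ 20 → σ' a = σ a) ∧ ∀ j < n, σ' 20 0 j = ζ ^ j) := by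
  have key : Run n m cPow σ (2 + (n * ((2 + 4) + 1) + 1))
      (fun σ' => (σ' 19 0 0 = ζ ^ n) ∧ (∀ a, a ≠ 19 → a ≠ 20 → σ' a = σ a) ∧
        ∀ j < n, σ' 20 0 j = ζ ^ j) := by
    refine Run.seq (Run.asg ?_ (by simp [Tgt.count, Ex.cost]))
    refine Run.loop (fun k σ' => (σ' 19 0 0 = ζ ^ k) ∧ (∀ a, a ≠ 19 → a ≠ 20 → σ' a = σ a) ∧
        ∀ j < k, σ' 20 0 j = ζ ^ j) ?_ ?_
    · refine ⟨by rw [asg_sca]; simp [Ex.eval], fun a h1 _ => asg_other h1, fun j hj => ?_⟩
      exact absurd hj (Nat.not_lt_zero j)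
    · rintro k hk σ1 ⟨h1, h2, h3⟩
      refine Run.seq (Run.asg ?_ (by simp [Tgt.count, Ex.cost]))
      refine Run.asg ?_ (by simp [Tgt.count, Ex.cost])
      set σ2 := σ1.asg n k 20 .zero .cur (eS 19) with hσ2
      have e1 : σ2 19 = σ1 19 := asg_other (by norm_num)
      have e2 : σ2 10 = σ1 10 := asg_other (by norm_num)
      have e3 : ∀ j, σ2 20 0 j = if j = k then ζ ^ k else σ1 20 0 j := by
        intro j
        simp [hσ2, Mem.asg, Tgt.has, Ex.eval, Ix.val, h1]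
      refine ⟨?_, ?_, ?_⟩
      · rw [asg_sca]
        simp only [Ex.eval, Ix.val, e1, e2, h1, h2 10 (by norm_num) (by norm_num), s10]
        rw [pow_succ]
      · intro a ha hb
        rw [asg_other ha, hσ2, asg_other hb]
        exact h2 a ha hb
      · intro j hj
        rw [asg_other (by norm_num), e3]
        split_ifs with hjk
        · rw [hjk]
        · exact h3 j (by omega)
  exact key.mono (by omega) fun _ h => h.2

/-- the rest of the packed number -/
noncomputable def tail (n : ℕ) (ζ : ℝ) (d : ℕ → ℝ) (k : ℕ) : ℝ := ∑ j ∈ Ico k n, d j * ζ ^ j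

theorem tail_succ {n : ℕ} {ζ : ℝ} {d : ℕ → ℝ} {k : ℕ} (hk : k < n) :
    tail n ζ d k = d k * ζ ^ k + tail n ζ d (k + 1) := by
  unfold tail
  rw [Finset.sum_eq_sum_Ico_succ_bot hk]

theorem tail_nonneg {n : ℕ} {ζ : ℝ} {d : ℕ → ℝ} (hζ : 0 ≤ ζ) (hd : ∀ j < n, 0 ≤ d j) (k : ℕ) :
    0 ≤ tail n ζ d k := by
  apply Finset.sum_nonneg
  intro j hj
  exact mul_nonneg (hd j (Finset.mem_Ico.1 hj).2) (pow_nonneg hζ _)

theorem tail_le {n : ℕ} {ζ D : ℝ} {d : ℕ → ℝ} (hζ : 0 ≤ ζ) (hζ1 : ζ ≤ 1 / 2) (hD : 0 ≤ D)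
    (hd : ∀ j < n, d j ≤ D) : ∀ l k, k + l = n → tail n ζ d k ≤ 2 * D * ζ ^ k := by
  intro l
  induction l with
  | zero =>
    intro k hk
    have : tail n ζ d k = 0 := by
      unfold tail
      rw [Finset.Ico_eq_empty (by omega), Finset.sum_empty]
    rw [this]; positivity
  | succ l ih =>
    intro k hk
    rw [tail_succ (by omega)]
    have h1 := ih (k + 1) (by omega)
    have h2 := hd k (by omega)
    have h3 : 0 ≤ ζ ^ k := pow_nonneg hζ _
    have h4 : ζ ^ (k + 1) = ζ ^ k * ζ := pow_succ _ _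
    rw [h4] at h1
    have h5 : d k * ζ ^ k ≤ D * ζ ^ k := mul_le_mul_of_nonneg_right h2 h3
    have h6 : D * ζ ^ k * ζ ≤ D * ζ ^ k * (1 / 2) := mul_le_mul_of_nonneg_left hζ1 (by positivity)
    nlinarith

theorem tail_lt {n : ℕ} {ζ γ w0 : ℝ} {d : ℕ → ℝ} (hγ : 0 < γ) (hw : γ ≤ w0)
    (hζ : ζ = γ / (4 * w0)) (hd : ∀ j < n, d j ≤ w0) {k : ℕ} (hk : k < n) :
    tail n ζ d (k + 1) < γ * ζ ^ k := by
  have hw0 : 0 < w0 := hγ.trans_le hw
  have hζ0 : 0 < ζ := by rw [hζ]; positivity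
  have hζ1 : ζ ≤ 1 / 2 := by
    rw [hζ, div_le_iff₀ (by positivity)]; linarith
  have h1 := tail_le hζ0.le hζ1 hw0.le hd (n - (k + 1)) (k + 1) (by omega)
  have h2 : w0 * ζ = γ / 4 := by
    rw [hζ]; field_simp
  have h3 : 0 < ζ ^ k := by positivity
  have h4 : 2 * w0 * ζ ^ (k + 1) = 2 * (w0 * ζ) * ζ ^ k := by rw [pow_succ]; ring
  rw [h4, h2] at h1
  nlinarith

/-- the invariant of the loop in `cUnpack` for the binary digits of the `k`-th digit -/
structure InvD (n k : ℕ) (γ ζ c : ℝ) (d : ℕ → ℕ → ℝ) (σ₀ : Mem) (p : ℕ) (σ : Mem) : Prop where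
  w : σ 16 0 0 = γ * 2 ^ p / 2
  pw : ∀ j < n, σ 20 0 j = ζ ^ j
  q : ∀ i < n, σ 22 i 0 = (d i k - (σ 23 i k + c)) * ζ ^ k + tail n ζ (d i) (k + 1)
  lo : ∀ i < n, 0 ≤ d i k - (σ 23 i k + c)
  hi : ∀ i < n, d i k - (σ 23 i k + c) < γ * 2 ^ p
  grid : ∀ i < n, ∃ z : ℤ, d i k - (σ 23 i k + c) = z * γ
  low : ∀ i < n, ∀ j < k, σ 23 i j = d i j - c
  high : ∀ i < n, ∀ j < n, k < j → σ 23 i j = - c
  frame : ∀ a, a ≠ 16 → a ≠ 22 → a ≠ 23 → σ a = σ₀ a

theorem stepD_run {n k : ℕ} {γ ζ c : ℝ} {d : ℕ → ℕ → ℝ} {σ₀ : Mem} (hγ : 0 < γ) (hζ : 0 < ζ)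
    (hk : k < n) (hd : ∀ i < n, ∀ j < n, 0 ≤ d i j)
    (ht : ∀ i < n, tail n ζ (d i) (k + 1) < γ * ζ ^ k) (p : ℕ) (σ : Mem)
    (h : InvD n k γ ζ c d σ₀ (p + 1) σ) :
    Run n k stepD σ (n * 24 + 4) (InvD n k γ ζ c d σ₀ p) := by
  have hw : σ 16 0 0 = γ * 2 ^ p := by rw [h.w, pow_succ]; ring
  have hpk : σ 20 0 k = ζ ^ k := h.pw k hk
  have hζk : 0 < ζ ^ k := by positivity
  have hcond : ∀ i < n, (γ * 2 ^ p * ζ ^ k ≤ σ 22 i 0 ↔ γ * 2 ^ p ≤ d i k - (σ 23 i k + c)) := by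
    intro i hi
    have hq := h.q i hi
    have htn := tail_nonneg hζ.le (fun j hj => hd i hi j hj) (k + 1)
    constructor
    · intro hle
      by_contra hlt
      push Not at hlt
      obtain ⟨z, hz⟩ := h.grid i hi
      rw [hz] at hlt hq
      have h1 : (z : ℝ) < 2 ^ p := by
        by_contra hcon
        push Not at hcon
        nlinarith
      have h2 : z < 2 ^ p := by exact_mod_cast h1
      have h3 : z ≤ 2 ^ p - 1 := by omega
      have h4 : (z : ℝ) ≤ 2 ^ p - 1 := by exact_mod_cast h3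
      have h5 := ht i hi
      have h6 : (z : ℝ) * γ * ζ ^ k ≤ (2 ^ p - 1) * γ * ζ ^ k := by
        apply mul_le_mul_of_nonneg_right _ hζk.le
        exact mul_le_mul_of_nonneg_right h4 hγ.le
      nlinarith
    · intro hle
      rw [hq]
      have := mul_le_mul_of_nonneg_right hle hζk.le
      linarith
  have key : Run n k stepD σ (n * 10 + (n * 12 + 4)) (InvD n k γ ζ c d σ₀ p) := by
    refine Run.seq (Run.asg ?_ (by simp [Tgt.count, Ex.cost]))
    refine Run.seq (Run.asg ?_ (by simp [Tgt.count, Ex.cost]))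
    refine Run.asg ?_ (by simp [Tgt.count, Ex.cost])
    set σ1 := σ.asg n k 23 .all .cur (.ite (.mul (eS 16) (.cell 20 .z .m)) (.cell 22 .i .z)
      (.add (eC 23) (eS 16)) (eC 23)) with hσ1
    set σ2 := σ1.asg n k 22 .all .zero (.ite (.mul (eS 16) (.cell 20 .z .m)) (.cell 22 .i .z)
      (.sub (.cell 22 .i .z) (.mul (eS 16) (.cell 20 .z .m))) (.cell 22 .i .z)) with hσ2
    have e1 : ∀ i < n, ∀ j, σ1 23 i j = if j = k then
        (if γ * 2 ^ p * ζ ^ k ≤ σ 22 i 0 then σ 23 i k + γ * 2 ^ p else σ 23 i k)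
        else σ 23 i j := by
      intro i hi j
      by_cases hjk : j = k
      · subst hjk
        simp [hσ1, Mem.asg, Tgt.has, Ex.eval, Ix.val, hw, hpk, hi]
      · simp [hσ1, Mem.asg, Tgt.has, hjk]
    have e2 : σ1 16 = σ 16 := asg_other (by norm_num)
    have e3 : σ1 20 = σ 20 := asg_other (by norm_num)
    have e4 : σ1 22 = σ 22 := asg_other (by norm_num)
    have e5 : ∀ i < n, σ2 22 i 0 =
        if γ * 2 ^ p * ζ ^ k ≤ σ 22 i 0 then σ 22 i 0 - γ * 2 ^ p * ζ ^ k else σ 22 i 0 := by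
      intro i hi
      rw [hσ2, asg_vec hi]
      simp [Ex.eval, Ix.val, e2, e3, e4, hw, hpk]
    have e6 : σ2 23 = σ1 23 := asg_other (by norm_num)
    have e7 : σ2 16 = σ 16 := by rw [hσ2, asg_other (by norm_num), e2]
    set σ3 := σ2.asg n k 16 .zero .zero (Ex.div (eS 16) (.const 2)) with hσ3
    have e8 : σ3 16 0 0 = γ * 2 ^ p / 2 := by
      rw [hσ3, asg_sca]
      simp [Ex.eval, Ix.val, e7, hw]
    have e9 : σ3 22 = σ2 22 := asg_other (by norm_num)
    have e10 : σ3 23 = σ1 23 := by rw [hσ3, asg_other (by norm_num), e6]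
    have e11 : σ3 20 = σ 20 := by
      rw [hσ3, asg_other (by norm_num), hσ2, asg_other (by norm_num), e3]
    have hpow : (2 : ℝ) ^ (p + 1) = 2 ^ p * 2 := pow_succ _ _
    refine ⟨e8, ?_, ?_, ?_, ?_, ?_, ?_, ?_, ?_⟩
    · intro j hj
      rw [e11]; exact h.pw j hj
    · intro i hi
      rw [e9, e5 i hi, e10, e1 i hi k, if_pos rfl]
      have hq := h.q i hi
      split_ifs with hc
      · rw [hq]; ring
      · exact hq
    · intro i hi
      rw [e10, e1 i hi k, if_pos rfl]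
      have := h.lo i hi
      split_ifs with hc
      · rw [hcond i hi] at hc; linarith
      · exact this
    · intro i hi
      rw [e10, e1 i hi k, if_pos rfl]
      have h2 := h.hi i hi
      rw [hpow] at h2
      split_ifs with hc
      · linarith
      · rw [hcond i hi] at hc; linarith
    · intro i hi
      rw [e10, e1 i hi k, if_pos rfl]
      obtain ⟨z, hz⟩ := h.grid i hi
      split_ifs with hc
      · exact ⟨z - 2 ^ p, by push_cast; linarith⟩
      · exact ⟨z, hz⟩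
    · intro i hi j hj
      rw [e10, e1 i hi j, if_neg (by omega)]
      exact h.low i hi j hj
    · intro i hi j hj hkj
      rw [e10, e1 i hi j, if_neg (by omega)]
      exact h.high i hi j hj hkj
    · intro a h1 h2 h3
      rw [hσ3, asg_other h1, hσ2, asg_other h2, hσ1, asg_other h3]
      exact h.frame a h1 h2 h3
  exact key.mono (by omega) fun _ h => h

theorem cUnpack_run {n m : ℕ} {δ ζ c w0 : ℝ} {Q : ℕ} {d : ℕ → ℕ → ℝ} (hδ : 0 < δ)
    (hw0 : w0 = δ * δ * 2 ^ Q) (hζ : ζ = δ * δ / (4 * w0))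
    (σ : Mem) (s7 : σ 7 0 0 = δ) (s9 : σ 9 0 0 = w0)
    (hpw : ∀ j < n, σ 20 0 j = ζ ^ j) (h22 : ∀ i < n, σ 22 i 0 = tail n ζ (d i) 0)
    (h23 : ∀ i < n, ∀ j < n, σ 23 i j = - c)
    (hd0 : ∀ i < n, ∀ j < n, 0 ≤ d i j) (hd1 : ∀ i < n, ∀ j < n, d i j ≤ w0)
    (hdg : ∀ i < n, ∀ j < n, ∃ z : ℤ, d i j = z * (δ * δ)) :
    Run n m cUnpack σ (n * ((Q + 2) * (n * 24 + 12) + 3) + 1)
      (fun σ' => (∀ a, a ≠ 16 → a ≠ 22 → a ≠ 23 → σ' a = σ a) ∧
        ∀ i < n, ∀ j < n, σ' 23 i j = d i j - c) := by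
  set γ := δ * δ with hγ'
  have hγ : 0 < γ := by positivity
  have hQ : (1 : ℝ) ≤ 2 ^ Q := one_le_pow₀ (by norm_num)
  have hγw : γ ≤ w0 := by rw [hw0]; nlinarith
  have hw00 : 0 < w0 := hγ.trans_le hγw
  have hζ0 : 0 < ζ := by rw [hζ]; positivity
  have key : Run n m cUnpack σ (n * ((2 + (Q + 1 + 1) * (3 + 3 + 1 + (n * 24 + 4))) + 1) + 1)
      (fun σ' => (∀ a, a ≠ 16 → a ≠ 22 → a ≠ 23 → σ' a = σ a) ∧
        (∀ i < n, σ' 22 i 0 = tail n ζ (d i) n) ∧
        (∀ i < n, ∀ j < n, σ' 23 i j = d i j - c) ∧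
        (∀ i < n, ∀ j < n, n ≤ j → σ' 23 i j = - c)) := by
    refine Run.loop (fun k σ' => (∀ a, a ≠ 16 → a ≠ 22 → a ≠ 23 → σ' a = σ a) ∧
        (∀ i < n, σ' 22 i 0 = tail n ζ (d i) k) ∧
        (∀ i < n, ∀ j < k, σ' 23 i j = d i j - c) ∧
        (∀ i < n, ∀ j < n, k ≤ j → σ' 23 i j = - c)) ?_ ?_
    · exact ⟨fun _ _ _ _ => rfl, h22, fun i _ j hj => absurd hj (Nat.not_lt_zero j),
        fun i hi j hj _ => h23 i hi j hj⟩
    · rintro k hk σ1 ⟨f1, f2, f3, f4⟩
      refine Run.seq (Run.asg ?_ (by simp [Tgt.count, Ex.cost]))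
      set σ2 := σ1.asg n k 16 .zero .zero (eS 9) with hσ2
      have g1 : σ2 16 0 0 = w0 := by
        rw [hσ2, asg_sca]
        simp only [Ex.eval, Ix.val]
        rw [f1 9 (by norm_num) (by norm_num) (by norm_num), s9]
      have g2 : ∀ a, a ≠ 16 → a ≠ 22 → a ≠ 23 → σ2 a = σ a := by
        intro a h1 h2 h3
        rw [hσ2, asg_other h1]; exact f1 a h1 h2 h3
      have g3 : σ2 22 = σ1 22 := asg_other (by norm_num)
      have g4 : σ2 23 = σ1 23 := asg_other (by norm_num)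
      have hstart : InvD n k γ ζ c d σ (Q + 1) σ2 := by
        refine ⟨?_, ?_, ?_, ?_, ?_, ?_, ?_, ?_, g2⟩
        · rw [g1, hw0, pow_succ]; ring
        · intro j hj
          rw [g2 20 (by norm_num) (by norm_num) (by norm_num)]; exact hpw j hj
        · intro i hi
          rw [g3, f2 i hi, g4, f4 i hi k hk le_rfl, tail_succ hk]; ring
        · intro i hi
          rw [g4, f4 i hi k hk le_rfl]
          have := hd0 i hi k hk
          linarith
        · intro i hi
          rw [g4, f4 i hi k hk le_rfl]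
          have h1 := hd1 i hi k hk
          have h2 : γ * 2 ^ (Q + 1) = 2 * w0 := by rw [hw0, pow_succ]; ring
          rw [h2]; linarith
        · intro i hi
          rw [g4, f4 i hi k hk le_rfl]
          obtain ⟨z, hz⟩ := hdg i hi k hk
          exact ⟨z, by rw [hz]; ring⟩
        · intro i hi j hj
          rw [g4]; exact f3 i hi j hj
        · intro i hi j hj hkj
          rw [g4]; exact f4 i hi j hj hkj.le
      refine (Run.whl (T := n * 24 + 4) (InvD n k γ ζ c d σ) ?_ (Q + 1) σ2 hstart).mono ?_ ?_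
      · intro p σ3 hI hc
        have e7 : σ3 7 = σ 7 := hI.frame 7 (by norm_num) (by norm_num) (by norm_num)
        simp only [Ex.eval, Ix.val, e7, s7, hI.w] at hc
        rcases p with _ | p
        · simp [hγ'] at hc
        · exact ⟨p, rfl, stepD_run hγ hζ0 hk hd0
            (fun i hi => tail_lt hγ hγw hζ (fun j hj => hd1 i hi j hj) hk) p σ3 hI⟩
      · simp [Ex.cost]
      · rintro σ3 ⟨⟨p, hp, hI⟩, hc⟩
        have e7 : σ3 7 = σ 7 := hI.frame 7 (by norm_num) (by norm_num) (by norm_num)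
        simp only [Ex.eval, Ix.val, e7, s7, hI.w] at hc
        have hp0 : p = 0 := by
          rcases p with _ | p
          · rfl
          · exfalso
            apply hc
            have h2 : (2 : ℝ) ^ (p + 1) = 2 ^ p * 2 := pow_succ _ _
            have h3 : (1 : ℝ) ≤ 2 ^ p := one_le_pow₀ (by norm_num)
            rw [h2]
            nlinarith
        subst hp0
        have hz0 : ∀ i < n, d i k - (σ3 23 i k + c) = 0 := by
          intro i hi
          obtain ⟨z, hz⟩ := hI.grid i hi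
          have h1 := hI.lo i hi
          have h2 := hI.hi i hi
          rw [pow_zero, mul_one, hz] at h2
          rw [hz] at h1
          have h3 : (0 : ℝ) ≤ z := by
            by_contra hcon
            push Not at hcon
            nlinarith
          have h4 : (z : ℝ) < 1 := by
            by_contra hcon
            push Not at hcon
            nlinarith
          have h5 : 0 ≤ z := by exact_mod_cast h3
          have h6 : z < 1 := by exact_mod_cast h4
          have h7 : z = 0 := by omega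
          rw [hz, h7]; simp
        refine ⟨hI.frame, ?_, ?_, ?_⟩
        · intro i hi
          rw [hI.q i hi, hz0 i hi]; ring
        · intro i hi j hj
          rcases Nat.lt_succ_iff_lt_or_eq.1 hj with h1 | rfl
          · exact hI.low i hi j h1
          · have := hz0 i hi
            linarith
        · intro i hi j hj hkj
          exact hI.high i hi j hj (by omega)
  refine key.mono ?_ fun _ h => ⟨h.1, h.2.2.1⟩
  have : (2 + (Q + 1 + 1) * (3 + 3 + 1 + (n * 24 + 4))) + 1 ≤ (Q + 2) * (n * 24 + 12) + 3 := by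
    nlinarith [Nat.zero_le (Q * n), Nat.zero_le Q]
  have h2 := Nat.mul_le_mul_left n this
  omega

theorem cPM_run {n m : ℕ} {H δ ζ c w0 : ℝ} {Q : ℕ} (hδ : 0 < δ)
    (hw0 : w0 = δ * δ * 2 ^ Q) (hQ : 1 ≤ Q) (hζ : ζ = δ * δ / (4 * w0)) (hc : w0 = 2 * c)
    (hcn : n * (H * H) ≤ c)
    (σ : Mem) (s7 : σ 7 0 0 = δ) (s8 : σ 8 0 0 = c) (s9 : σ 9 0 0 = w0) (s10 : σ 10 0 0 = ζ)
    (hU : ∀ i < n, ∀ j < n, |σ 17 i j| ≤ H ∧ ∃ z : ℤ, σ 17 i j = z * δ)
    (hV : ∀ i < n, ∀ j < n, |σ 18 i j| ≤ H ∧ ∃ z : ℤ, σ 18 i j = z * δ) :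
    Run n m cPM σ ((Q + 4) * (n * n * 40 + 40))
      (fun σ' => (∀ a, a < 15 ∨ a = 17 ∨ a = 18 ∨ 23 < a → σ' a = σ a) ∧
        ∀ i < n, ∀ j < n, σ' 23 i j = ∑ k ∈ range n, σ 17 i k * σ 18 k j) := by
  set d : ℕ → ℕ → ℝ := fun i j => ∑ k ∈ range n, σ 17 i k * σ 18 k j + c with hd
  have hsum : ∀ i < n, ∀ j < n, |∑ k ∈ range n, σ 17 i k * σ 18 k j| ≤ c := by
    intro i hi j hj
    refine (Finset.abs_sum_le_sum_abs _ _).trans (le_trans ?_ hcn)
    calc ∑ k ∈ range n, |σ 17 i k * σ 18 k j| ≤ ∑ k ∈ range n, H * H := by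
          refine Finset.sum_le_sum fun k hk => ?_
          rw [abs_mul]
          have hk' := Finset.mem_range.1 hk
          exact mul_le_mul (hU i hi k hk').1 (hV k hk' j hj).1 (abs_nonneg _)
            ((abs_nonneg _).trans (hU i hi k hk').1)
      _ = n * (H * H) := by simp
  have key : Run n m cPM σ ((n * 8 + 4) + ((n * (n * 4 + 2)) + ((n * (n * 8 + 2)) + ((n * n * 4) +
      (n * ((Q + 2) * (n * 24 + 12) + 3) + 1)))))
      (fun σ' => (∀ a, a < 15 ∨ a = 17 ∨ a = 18 ∨ 23 < a → σ' a = σ a) ∧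
        ∀ i < n, ∀ j < n, σ' 23 i j = ∑ k ∈ range n, σ 17 i k * σ 18 k j) := by
    refine Run.seq ((cPow_run σ s10).mono le_rfl ?_)
    rintro σ1 ⟨f1, f2⟩
    refine Run.seq (Run.asg ?_ ?_)
    swap
    · simp only [Tgt.count, Ex.cost]; nlinarith
    refine Run.seq (Run.asg ?_ ?_)
    swap
    · simp only [Tgt.count, Ex.cost]; nlinarith
    refine Run.seq (Run.asg ?_ ?_)
    swap
    · simp [Tgt.count, Ex.cost]
    set σ2 := σ1.asg n m 21 .all .zero (.sum (.mul (.cell 18 .i .k) (.cell 20 .z .k))) with hσ2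
    set σ3 := σ2.asg n m 22 .all .zero (.sum (.add (.mul (.cell 17 .i .k) (.cell 21 .k .z))
      (.mul (eS 8) (.cell 20 .z .k)))) with hσ3
    set σ4 := σ3.asg n m 23 .all .all (.sub (.const 0) (eS 8)) with hσ4
    have fr4 : ∀ a, a ≠ 19 → a ≠ 20 → a ≠ 21 → a ≠ 22 → a ≠ 23 → σ4 a = σ a := by
      intro a h1 h2 h3 h4 h5
      rw [hσ4, asg_other h5, hσ3, asg_other h4, hσ2, asg_other h3]
      exact f1 a h1 h2
    have e20 : ∀ j < n, σ4 20 0 j = ζ ^ j := by
      intro j hj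
      rw [hσ4, asg_other (by norm_num), hσ3, asg_other (by norm_num), hσ2,
        asg_other (by norm_num)]
      exact f2 j hj
    have e21 : ∀ i < n, σ2 21 i 0 = ∑ k ∈ range n, σ 18 i k * ζ ^ k := by
      intro i hi
      rw [hσ2, asg_vec hi]
      simp only [Ex.eval, Ix.val]
      refine Finset.sum_congr rfl fun k hk => ?_
      rw [f1 18 (by norm_num) (by norm_num), f2 k (Finset.mem_range.1 hk)]
    have g17 : σ2 17 = σ 17 := by
      rw [hσ2, asg_other (by norm_num)]; exact f1 17 (by norm_num) (by norm_num)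
    have g8 : σ2 8 = σ 8 := by
      rw [hσ2, asg_other (by norm_num)]; exact f1 8 (by norm_num) (by norm_num)
    have g20 : σ2 20 = σ1 20 := by rw [hσ2, asg_other (by norm_num)]
    have e22 : ∀ i < n, σ4 22 i 0 = tail n ζ (d i) 0 := by
      intro i hi
      rw [hσ4, asg_other (by norm_num), hσ3, asg_vec hi]
      simp only [Ex.eval, Ix.val]
      rw [g17, g8, g20]
      unfold tail
      rw [Nat.Ico_zero_eq_range]
      have h1 : ∀ k ∈ range n, σ 17 i k * σ2 21 k 0 + σ 8 0 0 * σ1 20 0 k =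
          (∑ j ∈ range n, σ 17 i k * σ 18 k j * ζ ^ j) + c * ζ ^ k := by
        intro k hk
        rw [e21 k (Finset.mem_range.1 hk), s8, f2 k (Finset.mem_range.1 hk), Finset.mul_sum]
        congr 1
        refine Finset.sum_congr rfl fun j _ => ?_
        ring
      rw [Finset.sum_congr rfl h1, Finset.sum_add_distrib, Finset.sum_comm,
        ← Finset.sum_add_distrib]
      refine Finset.sum_congr rfl fun j _ => ?_
      rw [hd]
      simp only
      rw [add_mul, Finset.sum_mul]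
    have e23 : ∀ i < n, ∀ j < n, σ4 23 i j = - c := by
      intro i hi j hj
      rw [hσ4, asg_mat hi hj]
      have : σ3 8 = σ 8 := by rw [hσ3, asg_other (by norm_num), g8]
      simp [Ex.eval, Ix.val, this, s8]
    have hc0 : 0 ≤ c := by
      have : 0 < w0 := by rw [hw0]; positivity
      linarith
    refine (cUnpack_run (c := c) (d := d) hδ hw0 hζ σ4 ?_ ?_ e20 e22 e23 ?_ ?_ ?_).mono le_rfl ?_
    · rw [fr4 7 (by norm_num) (by norm_num) (by norm_num) (by norm_num) (by norm_num)]; exact s7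
    · rw [fr4 9 (by norm_num) (by norm_num) (by norm_num) (by norm_num) (by norm_num)]; exact s9
    · intro i hi j hj
      have := hsum i hi j hj
      rw [abs_le] at this
      simp only [hd]; linarith
    · intro i hi j hj
      have := hsum i hi j hj
      rw [abs_le] at this
      simp only [hd]; linarith
    · intro i hi j hj
      have h1 : ∀ k ∈ range n, ∃ z : ℤ, σ 17 i k * σ 18 k j = z * (δ * δ) := by
        intro k hk
        have hk' := Finset.mem_range.1 hk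
        obtain ⟨z1, hz1⟩ := (hU i hi k hk').2
        obtain ⟨z2, hz2⟩ := (hV k hk' j hj).2
        exact ⟨z1 * z2, by rw [hz1, hz2]; push_cast; ring⟩
      choose! z hz using h1
      obtain ⟨Q', rfl⟩ : ∃ Q', Q = Q' + 1 := ⟨Q - 1, by omega⟩
      refine ⟨∑ k ∈ range n, z k + 2 ^ Q', ?_⟩
      simp only [hd]
      rw [Finset.sum_congr rfl hz]
      have h2 : c = δ * δ * 2 ^ Q' := by
        rw [pow_succ] at hw0; linarith
      rw [h2]
      push_cast
      rw [add_mul, Finset.sum_mul]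
      ring
    · rintro σ5 ⟨h1, h2⟩
      refine ⟨fun a ha => ?_, fun i hi j hj => ?_⟩
      · rw [h1 a (by omega) (by omega) (by omega)]
        exact fr4 a (by omega) (by omega) (by omega) (by omega) (by omega)
      · rw [h2 i hi j hj]
        simp [hd]
  refine key.mono ?_ fun _ h => h
  have h1 : n ≤ n * n + 1 := by nlinarith [Nat.zero_le n]
  have h2 : Q * n ≤ Q * (n * n) + Q := by nlinarith
  nlinarith [Nat.zero_le (Q * (n * n)), Nat.zero_le Q, Nat.zero_le (n * n)]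

end Pool.Agent.H394R3
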