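import Pool.Agent.H394R3.Mul
import Pool.Agent.H394R3.Newton

set_option autoImplicit false

/-!
# The program for linear systems, and its verification
-/

namespace Pool.Agent.H394R3

open Matrix
open scoped Matrix.Norms.L2Operator

/-- the array as a matrix -/
def toM (n : ℕ) (f : ℕ → ℕ → ℝ) : Matrix (Fin n) (Fin n) ℝ := fun i j => f i j

theorem toM_mul {n : ℕ} {f g h : ℕ → ℕ → ℝ}
    (e : ∀ i < n, ∀ j < n, f i j = ∑ k ∈ Finset.range n, g i k * h k j) :
    toM n f = toM n g * toM n h := by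
  ext i j
  rw [Matrix.mul_apply]
  simp only [toM]
  rw [e i i.2 j j.2, Finset.sum_range]

theorem toM_rd {n : ℕ} {H δ : ℝ} {f g : ℕ → ℕ → ℝ}
    (e : ∀ i < n, ∀ j < n, Rounded H δ (f i j) (g i j)) : RdM H δ (toM n f) (toM n g) :=
  fun i j => ⟨(e i i.2 j j.2).1, (e i i.2 j j.2).2.1⟩

theorem toM_congr {n : ℕ} {f g : ℕ → ℕ → ℝ} (e : ∀ i < n, ∀ j < n, f i j = g i j) :
    toM n f = toM n g := by
  ext i j
  exact e i i.2 j j.2

/-- one step of Newton's iteration: `X := X (2 - A X)`, `A` the array 12 and `X` the array 13 -/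
def cStep : Cmd :=
  .seq (cMul 12 13)
  (.seq (.asg 14 .all .all (.sub (.mul (.const 2) (.eq .i .j)) (eC 23)))
  (.seq (cMul 13 14) (.asg 13 .all .all (eC 23))))

theorem cStep_run {n m p r : ℕ} (σ : Mem) (h : Par n p r σ) :
    Run n m cStep σ (2 * mulCost n p r + n * n * 10)
      (fun σ' => (∀ a, a < 13 ∨ 23 < a → σ' a = σ a) ∧
        StepRel (2 ^ r) (dl r) (toM n (σ 12)) (toM n (σ 13)) (toM n (σ' 13))) := by
  have key : Run n m cStep σ (mulCost n p r + (n * n * 6 + (mulCost n p r + n * n * 2)))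
      (fun σ' => (∀ a, a < 13 ∨ 23 < a → σ' a = σ a) ∧
        StepRel (2 ^ r) (dl r) (toM n (σ 12)) (toM n (σ 13)) (toM n (σ' 13))) := by
    refine Run.seq ((cMul_run (by norm_num) (by norm_num) σ h).mono le_rfl ?_)
    rintro σ1 ⟨f1, f2, f3, f4⟩
    refine Run.seq (Run.asg ?_ (by simp [Tgt.count, Ex.cost]))
    set σ2 := σ1.asg n m 14 .all .all (.sub (.mul (.const 2) (.eq .i .j)) (eC 23)) with hσ2
    have h2 : Par n p r σ2 := h.congr fun a ha hb => by
      rw [hσ2, asg_other (by omega)]; exact f1 a (by omega)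
    refine Run.seq ((cMul_run (by norm_num) (by norm_num) σ2 h2).mono le_rfl ?_)
    rintro σ3 ⟨g1, g2, g3, g4⟩
    refine Run.asg ?_ (by simp [Tgt.count, Ex.cost])
    have e13 : σ2 13 = σ 13 := by rw [hσ2, asg_other (by norm_num)]; exact f1 13 (by norm_num)
    refine ⟨?_, ?_⟩
    · intro a ha
      rw [asg_other (by omega), g1 a (by omega), hσ2, asg_other (by omega)]
      exact f1 a (by omega)
    · refine ⟨toM n (σ1 17), toM n (σ1 18), toM n (σ3 17), toM n (σ3 18), toM_rd f2, toM_rd f3,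
        ?_, ?_, ?_⟩
      · have := toM_rd g2
        rwa [e13] at this
      · have h3 := toM_rd g3
        have h4 : toM n (σ2 14) = 2 - toM n (σ1 17) * toM n (σ1 18) := by
          rw [← toM_mul f4]
          ext i j
          simp only [toM, hσ2, asg_mat i.2 j.2, Ex.eval, Ix.val, Matrix.sub_apply]
          congr 1
          by_cases hij : i = j
          · subst hij
            simp [Matrix.ofNat_apply]
          · have : (i : ℕ) ≠ j := fun h => hij (Fin.ext h)
            simp [Matrix.ofNat_apply, hij, this]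
        rwa [h4] at h3
      · have h5 : toM n (Mem.asg n m σ3 13 .all .all (eC 23) 13) = toM n (σ3 23) :=
          toM_congr fun i hi j hj => by
            rw [asg_mat hi hj]; simp [Ex.eval, Ix.val]
        rw [h5]
        exact toM_mul g4
  exact key.mono (by omega) fun _ h => h

/-- Newton's iteration: as many steps as there are halvings from `1` to `β` -/
def cNewton : Cmd :=
  .seq (.asg 24 .zero .zero (.const 1))
    (.whl (eS 5) (eS 24) (.seq (.asg 24 .zero .zero (.div (eS 24) (.const 2))) cStep))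

/-- the invariant of Newton's iteration after `j` steps, `j + q = r` -/
structure InvN (n p r : ℕ) (g η : ℝ) (Good : Prop) (σ₀ : Mem) (q : ℕ) (σ : Mem) : Prop where
  par : Par n p r σ
  frame : ∀ a, a < 13 ∨ 24 < a → σ a = σ₀ a
  prog : ∃ j, j + q = r ∧ σ 24 0 0 = 1 / 2 ^ j ∧
    (Good → ‖1 - toM n (σ 13) * toM n (σ₀ 12)‖ ≤ rho g η j)

theorem cNewton_run {n m p r : ℕ} {g η K : ℝ} {B : Matrix (Fin n) (Fin n) ℝ} {Good : Prop}
    (σ : Mem) (h : Par n p r σ)
    (hgood : Good → ‖toM n (σ 12)‖ ≤ 1 ∧ B * toM n (σ 12) = 1 ∧ ‖B‖ ≤ K ∧ 1 ≤ K ∧ 8 * K ≤ 2 ^ r ∧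
      n * n * dl r ≤ 1 ∧ 0 < g ∧ g ≤ 1 / 2 ∧ 0 ≤ η ∧ η ≤ g / 4 ∧
      20 * K ^ 2 * (n * n * dl r) ≤ η ∧ ‖1 - toM n (σ 13) * toM n (σ 12)‖ ≤ 1 - g) :
    Run n m cNewton σ ((r + 2) * (2 * mulCost n p r + n * n * 10 + 10))
      (fun σ' => (∀ a, a < 13 ∨ 24 < a → σ' a = σ a) ∧
        (Good → ‖1 - toM n (σ' 13) * toM n (σ 12)‖ ≤ rho g η r)) := by
  have key : Run n m cNewton σ (2 + (r + 1) * (1 + 1 + 1 + (4 + (2 * mulCost n p r + n * n * 10))))
      (fun σ' => (∃ q ≤ r, InvN n p r g η Good σ q σ') ∧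
        ¬ (eS 5).eval n m σ' 0 0 0 < (eS 24).eval n m σ' 0 0 0) := by
    refine Run.seq (Run.asg ?_ (by simp [Tgt.count, Ex.cost]))
    refine Run.whl (T := 4 + (2 * mulCost n p r + n * n * 10)) (InvN n p r g η Good σ) ?_ r _ ?_
    · intro q σ1 hI hc
      obtain ⟨j, hj, h24, hres⟩ := hI.prog
      simp only [Ex.eval, Ix.val, hI.par.s5, h24] at hc
      have hjr : j < r := by
        by_contra hcon
        push Not at hcon
        have h1 : (2 : ℝ) ^ r ≤ 2 ^ j := pow_le_pow_right₀ (by norm_num) hcon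
        have h2 : (1 : ℝ) / 2 ^ j ≤ 1 / 2 ^ r := one_div_le_one_div_of_le (by positivity) h1
        linarith
      obtain ⟨q', rfl⟩ : ∃ q', q = q' + 1 := ⟨q - 1, by omega⟩
      refine ⟨q', rfl, ?_⟩
      refine Run.seq (Run.asg ?_ (by simp [Tgt.count, Ex.cost]))
      set σ2 := σ1.asg n m 24 .zero .zero (.div (eS 24) (.const 2)) with hσ2
      have h2 : Par n p r σ2 := hI.par.congr fun a ha hb => by rw [hσ2, asg_other (by omega)]
      have e24 : σ2 24 0 0 = 1 / 2 ^ (j + 1) := by
        rw [hσ2, asg_sca]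
        simp only [Ex.eval, Ix.val, h24, pow_succ]
        push_cast
        field_simp
      have e12 : σ2 12 = σ 12 := by
        rw [hσ2, asg_other (by norm_num)]; exact hI.frame 12 (by norm_num)
      have e13 : σ2 13 = σ1 13 := by rw [hσ2, asg_other (by norm_num)]
      refine (cStep_run σ2 h2).mono le_rfl ?_
      rintro σ3 ⟨k1, k2⟩
      refine ⟨h2.congr fun a ha hb => k1 a (by omega), ?_, j + 1, by omega, ?_, ?_⟩
      · intro a ha
        rw [k1 a (by omega), hσ2, asg_other (by omega)]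
        exact hI.frame a ha
      · rw [k1 24 (by omega)]; exact e24
      · intro hG
        obtain ⟨g1, g2, g3, g4, g5, g6, g7, g8, g9, g10, g11, g12⟩ := hgood hG
        have hr := hres hG
        rw [e12, e13] at k2
        have h3 := step_bound g1 g2 g3 g4 g5 (dl_pos r).le g6
          (hr.trans (rho_le_one g7 g8 g9 g10 j)) k2
        refine h3.trans ?_
        simp only [rho]
        exact add_le_add (pow_le_pow_left₀ (norm_nonneg _) hr 2) g11
    · refine ⟨h.congr fun a ha hb => asg_other (by omega), fun a ha => asg_other (by omega),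
        0, by omega, ?_, ?_⟩
      · rw [asg_sca]; simp [Ex.eval]
      · intro hG
        obtain ⟨_, _, _, _, _, _, _, _, _, _, _, g12⟩ := hgood hG
        rw [asg_other (by norm_num)]
        simpa [rho] using g12
  refine key.mono ?_ ?_
  · nlinarith [Nat.zero_le (r * mulCost n p r), Nat.zero_le (mulCost n p r),
      Nat.zero_le (r * (n * n)), Nat.zero_le (n * n)]
  · rintro σ' ⟨⟨q, _, hI⟩, hc⟩
    refine ⟨hI.frame, fun hG => ?_⟩
    obtain ⟨j, hj, h24, hres⟩ := hI.prog
    have hjr : j = r := by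
      by_contra hcon
      apply hc
      simp only [Ex.eval, Ix.val, hI.par.s5, h24]
      apply one_div_lt_one_div_of_lt (by positivity)
      exact pow_lt_pow_right₀ (by norm_num) (by omega)
    rw [← hjr]
    exact hres hG

/-- absolute value -/
def eAbs (x : Ex) : Ex := .ite x (.const 0) (.sub (.const 0) x) x

theorem eAbs_eval (n m : ℕ) (σ : Mem) (x : Ex) (i j k : ℕ) :
    (eAbs x).eval n m σ i j k = |x.eval n m σ i j k| := by
  simp only [eAbs, Ex.eval, Nat.cast_zero, zero_sub]
  split_ifs with h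
  · rw [abs_of_nonpos h]
  · rw [abs_of_pos (not_le.1 h)]

/-- the sums of the absolute values of the entries of the rows of array 23 minus the identity -/
def cRes : Cmd := .asg 22 .all .zero (.sum (eAbs (.sub (.cell 23 .i .k) (.eq .i .k))))

theorem res_eq {n m : ℕ} (σ : Mem) :
    ∑ i ∈ Finset.range n, (σ.asg n m 22 .all .zero
      (.sum (eAbs (.sub (.cell 23 .i .k) (.eq .i .k))))) 22 i 0 = S1 (toM n (σ 23) - 1) := by
  unfold S1
  rw [Finset.sum_range]
  refine Finset.sum_congr rfl fun i _ => ?_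
  rw [asg_vec i.2]
  simp only [Ex.eval, eAbs_eval, Ix.val]
  rw [Finset.sum_range]
  refine Finset.sum_congr rfl fun j _ => ?_
  congr 1
  simp only [Matrix.sub_apply, toM]
  congr 1
  by_cases hij : i = j
  · subst hij; simp
  · have : (i : ℕ) ≠ j := fun h => hij (Fin.ext h)
    simp [Matrix.one_apply, hij, this]

/-- compute (a bound for) the residuals; the result is the scalar 25 -/
def cCheck : Cmd :=
  .seq (cMul 13 12)
  (.seq (.asg 13 .all .all (eC 17))
  (.seq cRes
  (.seq (.asg 25 .zero .zero (.sum (.cell 22 .k .z)))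
  (.seq (cMul 12 13)
  (.seq cRes
    (.asg 25 .zero .zero (.add (.add (eS 25) (.sum (.cell 22 .k .z)))
      (.mul (.const 3) (.mul (.mul (eS 4) (.mul (eS 4) (eS 4))) (.mul (eS 5) (eS 5)))))))))))

theorem cCheck_run {n m p r : ℕ} (σ : Mem) (h : Par n p r σ) :
    Run n m cCheck σ (2 * mulCost n p r + n * n * 40 + 60)
      (fun σ' => (∀ a, a < 13 ∨ 25 < a → σ' a = σ a) ∧
        CheckRel (2 ^ r) (dl r) (toM n (σ 12)) (toM n (σ 13)) (toM n (σ' 13)) (σ' 25 0 0)
          ((2 ^ p) ^ 3 * (1 / 2 ^ r) ^ 2)) := by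
  have c1 : Tgt.count n .all * Tgt.count n .zero *
      ((Ex.sum (eAbs (.sub (.cell 23 .i .k) (.eq .i .k)))).cost n + 1) ≤ n * n * 17 + 2 * n := by
    simp only [Tgt.count, Ex.cost, eAbs]
    nlinarith
  have key : Run n m cCheck σ (mulCost n p r + (n * n * 2 + ((n * n * 17 + 2 * n) + ((2 * n + 2) +
      (mulCost n p r + ((n * n * 17 + 2 * n) + (2 * n + 20)))))))
      (fun σ' => (∀ a, a < 13 ∨ 25 < a → σ' a = σ a) ∧
        CheckRel (2 ^ r) (dl r) (toM n (σ 12)) (toM n (σ 13)) (toM n (σ' 13)) (σ' 25 0 0)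
          ((2 ^ p) ^ 3 * (1 / 2 ^ r) ^ 2)) := by
    refine Run.seq ((cMul_run (by norm_num) (by norm_num) σ h).mono le_rfl ?_)
    rintro σ1 ⟨f1, f2, f3, f4⟩
    refine Run.seq (Run.asg ?_ (by simp [Tgt.count, Ex.cost]))
    set σ2 := σ1.asg n m 13 .all .all (eC 17) with hσ2
    refine Run.seq (Run.asg ?_ c1)
    set σ3 := σ2.asg n m 22 .all .zero
      (.sum (eAbs (.sub (.cell 23 .i .k) (.eq .i .k)))) with hσ3
    refine Run.seq (Run.asg ?_ ?_)
    swap
    · simp only [Tgt.count, Ex.cost]; omega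
    set σ4 := σ3.asg n m 25 .zero .zero (.sum (.cell 22 .k .z)) with hσ4
    have fr4 : ∀ a, a < 13 → σ4 a = σ a := by
      intro a ha
      rw [hσ4, asg_other (by omega), hσ3, asg_other (by omega), hσ2, asg_other (by omega)]
      exact f1 a (by omega)
    have fr4' : ∀ a, 25 < a → σ4 a = σ a := by
      intro a ha
      rw [hσ4, asg_other (by omega), hσ3, asg_other (by omega), hσ2, asg_other (by omega)]
      exact f1 a (by omega)
    have h4 : Par n p r σ4 := h.congr fun a ha hb => fr4 a (by omega)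
    have e25 : σ4 25 0 0 = S1 (toM n (σ1 23) - 1) := by
      rw [hσ4, asg_sca]
      simp only [Ex.eval, Ix.val]
      rw [hσ3, res_eq]
      rw [hσ2, asg_other (by norm_num)]
    have e13 : toM n (σ4 13) = toM n (σ1 17) := by
      rw [hσ4, asg_other (by norm_num), hσ3, asg_other (by norm_num)]
      exact toM_congr fun i hi j hj => by rw [hσ2, asg_mat hi hj]; simp [Ex.eval, Ix.val]
    refine Run.seq ((cMul_run (by norm_num) (by norm_num) σ4 h4).mono le_rfl ?_)
    rintro σ5 ⟨g1, g2, g3, g4⟩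
    refine Run.seq (Run.asg ?_ c1)
    set σ6 := σ5.asg n m 22 .all .zero
      (.sum (eAbs (.sub (.cell 23 .i .k) (.eq .i .k)))) with hσ6
    refine Run.asg ?_ ?_
    swap
    · simp only [Tgt.count, Ex.cost]; omega
    refine ⟨?_, ?_⟩
    · intro a ha
      rw [asg_other (by omega), hσ6, asg_other (by omega), g1 a (by omega)]
      rcases ha with ha | ha
      · exact fr4 a ha
      · exact fr4' a ha
    · refine ⟨toM n (σ1 18), toM n (σ5 17), toM n (σ5 18), ?_, ?_, ?_, ?_, ?_⟩
      · rw [asg_other (by norm_num), hσ6, asg_other (by norm_num), g1 13 (by norm_num), e13]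
        exact toM_rd f2
      · exact toM_rd f3
      · have := toM_rd g2
        rwa [fr4 12 (by norm_num)] at this
      · rw [asg_other (by norm_num), hσ6, asg_other (by norm_num), g1 13 (by norm_num)]
        exact toM_rd g3
      · have e1 : toM n (Mem.asg n m σ6 25 .zero .zero (.add (.add (eS 25) (.sum (.cell 22 .k .z)))
            (.mul (.const 3) (.mul (.mul (eS 4) (.mul (eS 4) (eS 4))) (.mul (eS 5) (eS 5))))) 13) =
            toM n (σ1 17) := by
          rw [asg_other (by norm_num), hσ6, asg_other (by norm_num), g1 13 (by norm_num), e13]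
        rw [e1, asg_sca, ← toM_mul f4, ← toM_mul g4]
        simp only [Ex.eval, Ix.val]
        rw [hσ6, res_eq]
        have e2 : Mem.asg n m σ5 22 .all .zero
            (.sum (eAbs (.sub (.cell 23 .i .k) (.eq .i .k)))) 25 = σ5 25 := asg_other (by norm_num)
        have e3 : Mem.asg n m σ5 22 .all .zero
            (.sum (eAbs (.sub (.cell 23 .i .k) (.eq .i .k)))) 4 = σ5 4 := asg_other (by norm_num)
        have e4 : Mem.asg n m σ5 22 .all .zero
            (.sum (eAbs (.sub (.cell 23 .i .k) (.eq .i .k)))) 5 = σ5 5 := asg_other (by norm_num)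
        rw [e2, e3, e4, g1 25 (by norm_num), e25, g1 4 (by norm_num), g1 5 (by norm_num),
          h4.s4, h4.s5]
        push_cast
        ring
  refine key.mono ?_ fun _ h => h
  nlinarith

end Pool.Agent.H394R3
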