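import Pool.Agent.H394R3.Run

set_option autoImplicit false

/-!
# Rounding the entries of a matrix by comparisons
-/

namespace Pool.Agent.H394R3

/-- the entry of array `a` in the current row and column -/
abbrev eC (a : ℕ) : Ex := .cell a .i .j
/-- the scalar stored in array `a` -/
abbrev eS (a : ℕ) : Ex := .cell a .z .z

/-- clamp the value of `x` to the interval `[-H, H]`, `H` the scalar 6 -/
def eClamp (x : Ex) : Ex :=
  .ite x (eS 6) (.ite (.sub (.const 0) (eS 6)) x x (.sub (.const 0) (eS 6))) (eS 6)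

/-- One step of the extraction of the binary digits of the entries of array 15 -/
def stepRC (dst : ℕ) : Cmd :=
  .seq (.asg dst .all .all (.ite (eS 16) (eC 15) (.add (eC dst) (eS 16)) (eC dst)))
  (.seq (.asg 15 .all .all (.ite (eS 16) (eC 15) (.sub (eC 15) (eS 16)) (eC 15)))
    (.asg 16 .zero .zero (.div (eS 16) (.const 2))))

/-- Round the entries of array `src` (clamped to `[-H, H]`) down to multiples of the scalar 7,
result in array `dst`. -/
def cRC (src dst : ℕ) : Cmd :=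
  .seq (.asg 15 .all .all (.add (eClamp (eC src)) (eS 6)))
  (.seq (.asg dst .all .all (.sub (.const 0) (eS 6)))
  (.seq (.asg 16 .zero .zero (.add (eS 6) (eS 6)))
    (.whl (eS 7) (.add (eS 16) (eS 16)) (stepRC dst))))

/-- clamping -/
noncomputable def clamp (H x : ℝ) : ℝ := if x ≤ H then (if 0 - H ≤ x then x else 0 - H) else H

/-- `y` is a rounded value of `x`. -/
def Rounded (H δ x y : ℝ) : Prop :=
  |y| ≤ H ∧ (|x| ≤ H → |y - x| ≤ δ) ∧ ∃ z : ℤ, y = z * δ

theorem clamp_abs {H x : ℝ} (hH : 0 ≤ H) : |clamp H x| ≤ H := by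
  unfold clamp
  split_ifs with h1 h2
  · rw [abs_le]; constructor <;> linarith
  · rw [abs_le]; constructor <;> linarith
  · rw [abs_of_nonneg hH]

theorem clamp_eq {H x : ℝ} (h : |x| ≤ H) : clamp H x = x := by
  rw [abs_le] at h
  unfold clamp
  rw [if_pos h.2, if_pos (by linarith)]

/-- the invariant of the loop in `cRC` -/
structure InvRC (n dst : ℕ) (H δ : ℝ) (F : ℕ → ℕ → ℝ) (σ₀ : Mem) (p : ℕ) (σ : Mem) : Prop where
  w : σ 16 0 0 = δ * 2 ^ p / 2
  lo : ∀ i < n, ∀ j < n, 0 ≤ σ 15 i j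
  hi : ∀ i < n, ∀ j < n, σ 15 i j < δ * 2 ^ p
  sum : ∀ i < n, ∀ j < n, σ 15 i j + σ dst i j = F i j
  nn : ∀ i < n, ∀ j < n, - H ≤ σ dst i j
  grid : ∀ i < n, ∀ j < n, ∃ z : ℤ, σ dst i j = z * δ
  frame : ∀ a, a ≠ 15 → a ≠ 16 → a ≠ dst → σ a = σ₀ a

theorem stepRC_run {n m dst : ℕ} {H δ : ℝ} {F : ℕ → ℕ → ℝ} {σ₀ : Mem} (h15 : dst ≠ 15)
    (h16 : dst ≠ 16) (hδ : 0 < δ) (p : ℕ) (σ : Mem) (h : InvRC n dst H δ F σ₀ (p + 1) σ) :
    Run n m (stepRC dst) σ (n * n * 20 + 10) (InvRC n dst H δ F σ₀ p) := by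
  have hw : σ 16 0 0 = δ * 2 ^ p := by rw [h.w, pow_succ]; ring
  have hp : (0 : ℝ) < 2 ^ p := by positivity
  have hwp : 0 < δ * 2 ^ p := by positivity
  have c1 : Tgt.count n .all * Tgt.count n .all *
      ((Ex.ite (eS 16) (eC 15) (.add (eC dst) (eS 16)) (eC dst)).cost n + 1) ≤ n * n * 8 := by
    simp [Tgt.count, Ex.cost]
  have c2 : Tgt.count n .all * Tgt.count n .all *
      ((Ex.ite (eS 16) (eC 15) (.sub (eC 15) (eS 16)) (eC 15)).cost n + 1) ≤ n * n * 8 := by
    simp [Tgt.count, Ex.cost]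
  have c3 : Tgt.count n .zero * Tgt.count n .zero *
      ((Ex.div (eS 16) (.const 2)).cost n + 1) ≤ 4 := by
    simp [Tgt.count, Ex.cost]
  have key : Run n m (stepRC dst) σ (n * n * 8 + (n * n * 8 + 4)) (InvRC n dst H δ F σ₀ p) := by
    refine Run.seq (Run.asg ?_ c1)
    refine Run.seq (Run.asg ?_ c2)
    refine Run.asg ?_ c3
    set σ1 := σ.asg n m dst .all .all (Ex.ite (eS 16) (eC 15) (.add (eC dst) (eS 16)) (eC dst))
      with hσ1
    set σ2 := σ1.asg n m 15 .all .all (Ex.ite (eS 16) (eC 15) (.sub (eC 15) (eS 16)) (eC 15))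
      with hσ2
    have e1 : ∀ i < n, ∀ j < n, σ1 dst i j =
        if δ * 2 ^ p ≤ σ 15 i j then σ dst i j + δ * 2 ^ p else σ dst i j := by
      intro i hi j hj
      rw [hσ1, asg_mat hi hj]
      simp [Ex.eval, Ix.val, hw]
    have e2 : σ1 15 = σ 15 := asg_other (Ne.symm h15)
    have e3 : σ1 16 = σ 16 := asg_other (Ne.symm h16)
    have e4 : ∀ i < n, ∀ j < n, σ2 15 i j =
        if δ * 2 ^ p ≤ σ 15 i j then σ 15 i j - δ * 2 ^ p else σ 15 i j := by
      intro i hi j hj
      rw [hσ2, asg_mat hi hj]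
      simp [Ex.eval, Ix.val, hw, e2, e3]
    have e5 : σ2 dst = σ1 dst := asg_other h15
    have e6 : σ2 16 = σ 16 := by rw [hσ2, asg_other (by norm_num), e3]
    set σ3 := σ2.asg n m 16 .zero .zero (Ex.div (eS 16) (.const 2)) with hσ3
    have e7 : σ3 16 0 0 = δ * 2 ^ p / 2 := by
      rw [hσ3, asg_sca]
      simp [Ex.eval, Ix.val, e6, hw]
    have e8 : σ3 15 = σ2 15 := asg_other (by norm_num)
    have e9 : σ3 dst = σ1 dst := by rw [hσ3, asg_other h16, e5]
    have hpow : (2 : ℝ) ^ (p + 1) = 2 ^ p * 2 := pow_succ _ _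
    refine ⟨e7, ?_, ?_, ?_, ?_, ?_, ?_⟩
    · intro i hi j hj
      rw [e8, e4 i hi j hj]
      have := h.lo i hi j hj
      split_ifs with hc
      · linarith
      · exact this
    · intro i hi j hj
      rw [e8, e4 i hi j hj]
      have h2 := h.hi i hi j hj
      rw [hpow] at h2
      split_ifs with hc
      · linarith
      · linarith
    · intro i hi j hj
      rw [e8, e4 i hi j hj, e9, e1 i hi j hj]
      have := h.sum i hi j hj
      split_ifs <;> linarith
    · intro i hi j hj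
      rw [e9, e1 i hi j hj]
      have := h.nn i hi j hj
      split_ifs <;> linarith
    · intro i hi j hj
      rw [e9, e1 i hi j hj]
      obtain ⟨z, hz⟩ := h.grid i hi j hj
      split_ifs
      · exact ⟨z + 2 ^ p, by rw [hz]; push_cast; ring⟩
      · exact ⟨z, hz⟩
    · intro a h1 h2 h3
      rw [hσ3, asg_other h2, hσ2, asg_other h1, hσ1, asg_other h3]
      exact h.frame a h1 h2 h3
  exact key.mono (by nlinarith) fun _ h => h

theorem cRC_run {n m src dst : ℕ} (h15 : dst ≠ 15) (h16 : dst ≠ 16) (h6 : dst ≠ 6) (h7 : dst ≠ 7)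
    {H δ : ℝ} {q : ℕ} (hδ : 0 < δ) (hH : 2 * H = δ * 2 ^ q) (hq : 1 ≤ q) (σ : Mem)
    (s6 : σ 6 0 0 = H) (s7 : σ 7 0 0 = δ) :
    Run n m (cRC src dst) σ ((q + 3) * (n * n * 24 + 20))
      (fun σ' => (∀ a, a ≠ 15 → a ≠ 16 → a ≠ dst → σ' a = σ a) ∧
        ∀ i < n, ∀ j < n, Rounded H δ (σ src i j) (σ' dst i j)) := by
  have hH0 : 0 < H := by
    have : 0 < δ * 2 ^ q := by positivity
    linarith
  have c1 : Tgt.count n .all * Tgt.count n .all *
      ((Ex.add (eClamp (eC src)) (eS 6)).cost n + 1) ≤ n * n * 20 := by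
    simp only [Tgt.count, Ex.cost, eClamp]
    nlinarith
  have c2 : Tgt.count n .all * Tgt.count n .all *
      ((Ex.sub (.const 0) (eS 6)).cost n + 1) ≤ n * n * 4 := by
    simp [Tgt.count, Ex.cost]
  have c3 : Tgt.count n .zero * Tgt.count n .zero *
      ((Ex.add (eS 6) (eS 6)).cost n + 1) ≤ 4 := by
    simp [Tgt.count, Ex.cost]
  set F : ℕ → ℕ → ℝ := fun i j => clamp H (σ src i j) with hF
  have hFabs : ∀ i j, |F i j| ≤ H := fun i j => clamp_abs hH0.le
  have key : Run n m (cRC src dst) σ (n * n * 20 + (n * n * 4 + (4 +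
      (q + 1 + 1) * ((eS 7).cost n + (Ex.add (eS 16) (eS 16)).cost n + 1 + (n * n * 20 + 10)))))
      (fun σ' => (∃ p ≤ q + 1, InvRC n dst H δ F σ p σ') ∧
        ¬ (eS 7).eval n m σ' 0 0 0 < (Ex.add (eS 16) (eS 16)).eval n m σ' 0 0 0) := by
    refine Run.seq (Run.asg ?_ c1)
    refine Run.seq (Run.asg ?_ c2)
    refine Run.seq (Run.asg ?_ c3)
    refine Run.whl (InvRC n dst H δ F σ) ?_ (q + 1) _ ?_
    · intro p σ' hI hc
      have hw := hI.w
      have e7 : σ' 7 = σ 7 := hI.frame 7 (by norm_num) (by norm_num) (Ne.symm h7)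
      simp only [Ex.eval, Ix.val, eS, e7, s7, hw] at hc
      rcases p with _ | p
      · simp at hc
      · exact ⟨p, rfl, stepRC_run h15 h16 hδ p σ' hI⟩
    · set σ1 := σ.asg n m 15 .all .all (Ex.add (eClamp (eC src)) (eS 6)) with hσ1
      set σ2 := σ1.asg n m dst .all .all (Ex.sub (.const 0) (eS 6)) with hσ2
      set σ3 := σ2.asg n m 16 .zero .zero (Ex.add (eS 6) (eS 6)) with hσ3
      have e1 : ∀ i < n, ∀ j < n, σ1 15 i j = F i j + H := by
        intro i hi j hj
        rw [hσ1, asg_mat hi hj]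
        simp [Ex.eval, Ix.val, eClamp, s6, hF, clamp]
      have e2 : σ1 6 = σ 6 := asg_other (by norm_num)
      have e3 : ∀ i < n, ∀ j < n, σ2 dst i j = - H := by
        intro i hi j hj
        rw [hσ2, asg_mat hi hj]
        simp [Ex.eval, Ix.val, e2, s6]
      have e4 : σ2 6 = σ 6 := by rw [hσ2, asg_other (Ne.symm h6), e2]
      have e5 : σ3 16 0 0 = H + H := by
        rw [hσ3, asg_sca]
        simp [Ex.eval, Ix.val, e4, s6]
      have e6 : σ3 15 = σ1 15 := by rw [hσ3, asg_other (by norm_num), hσ2, asg_other (Ne.symm h15)]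
      have e7 : σ3 dst = σ2 dst := asg_other h16
      have hpow : δ * 2 ^ (q + 1) = 4 * H := by
        rw [pow_succ]; linarith
      refine ⟨?_, ?_, ?_, ?_, ?_, ?_, ?_⟩
      · rw [e5]; linarith
      · intro i hi j hj
        rw [e6, e1 i hi j hj]
        have := hFabs i j
        rw [abs_le] at this
        linarith
      · intro i hi j hj
        rw [e6, e1 i hi j hj, hpow]
        have := hFabs i j
        rw [abs_le] at this
        linarith
      · intro i hi j hj
        rw [e6, e1 i hi j hj, e7, e3 i hi j hj]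
        ring
      · intro i hi j hj
        rw [e7, e3 i hi j hj]
      · intro i hi j hj
        rw [e7, e3 i hi j hj]
        obtain ⟨q', rfl⟩ : ∃ q', q = q' + 1 := ⟨q - 1, by omega⟩
        refine ⟨-(2 ^ q'), ?_⟩
        have : H = δ * 2 ^ q' := by
          rw [pow_succ] at hH; linarith
        rw [this]; push_cast; ring
      · intro a h1 h2 h3
        rw [hσ3, asg_other h2, hσ2, asg_other h3, hσ1, asg_other h1]
  refine key.mono ?_ ?_
  · simp only [Ex.cost, eS]
    nlinarith [Nat.zero_le (q * (n * n)), Nat.zero_le q, Nat.zero_le (n * n)]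
  · rintro σ' ⟨⟨p, hp, hI⟩, hc⟩
    refine ⟨hI.frame, fun i hi j hj => ?_⟩
    have hw := hI.w
    have e7 : σ' 7 = σ 7 := hI.frame 7 (by norm_num) (by norm_num) (Ne.symm h7)
    simp only [Ex.eval, Ix.val, eS, e7, s7, hw] at hc
    have hp0 : p = 0 := by
      rcases p with _ | p
      · rfl
      · exfalso
        apply hc
        have h2 : (2 : ℝ) ^ (p + 1) = 2 ^ p * 2 := pow_succ _ _
        have h3 : (1 : ℝ) ≤ 2 ^ p := one_le_pow₀ (by norm_num)
        rw [h2]
        nlinarith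
    subst hp0
    have h1 := hI.lo i hi j hj
    have h2 := hI.hi i hi j hj
    have h3 := hI.sum i hi j hj
    have h4 := hI.nn i hi j hj
    have h5 := hFabs i j
    rw [abs_le] at h5
    rw [pow_zero, mul_one] at h2
    refine ⟨?_, ?_, hI.grid i hi j hj⟩
    · rw [abs_le]; constructor <;> linarith
    · intro hx
      have h6 : F i j = σ src i j := clamp_eq hx
      rw [abs_le]; constructor <;> linarith

end Pool.Agent.H394R3
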