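import Pool.Agent.H394R3.Lang

set_option autoImplicit false

/-!
# Rules for the verification of programs
-/

namespace Pool.Agent.H394R3

/-- From `σ` the command `c` terminates after at most `T` steps in a memory with the property `Q`. -/
def Run (n m : ℕ) (c : Cmd) (σ : Mem) (T : ℕ) (Q : Mem → Prop) : Prop :=
  ∃ σ' t, Exec n m c σ σ' t ∧ t ≤ T ∧ Q σ'

theorem Run.mono {n m : ℕ} {c : Cmd} {σ : Mem} {T T' : ℕ} {Q Q' : Mem → Prop}
    (h : Run n m c σ T Q) (hT : T ≤ T') (hQ : ∀ σ, Q σ → Q' σ) : Run n m c σ T' Q' := by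
  obtain ⟨σ', t, h1, h2, h3⟩ := h
  exact ⟨σ', t, h1, h2.trans hT, hQ _ h3⟩

theorem Run.asg {n m : ℕ} {a : ℕ} {r c : Tgt} {e : Ex} {σ : Mem} {T : ℕ} {Q : Mem → Prop}
    (hQ : Q (σ.asg n m a r c e)) (hT : r.count n * c.count n * (e.cost n + 1) ≤ T) :
    Run n m (.asg a r c e) σ T Q :=
  ⟨_, _, Exec.asg _ _ _ _ _ _, hT, hQ⟩

theorem Run.seq {n m : ℕ} {c d : Cmd} {σ : Mem} {T T' : ℕ} {Q : Mem → Prop}
    (h : Run n m c σ T (fun σ' => Run n m d σ' T' Q)) : Run n m (.seq c d) σ (T + T') Q := by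
  obtain ⟨σ', t, h1, h2, σ'', t', h3, h4, h5⟩ := h
  exact ⟨σ'', t + t', Exec.seq h1 h3, by omega, h5⟩

/-- while loops: `I p` holds when `p` is a bound for the number of the remaining iterations. -/
theorem Run.whl {n m : ℕ} {x y : Ex} {c : Cmd} {T : ℕ} (I : ℕ → Mem → Prop)
    (h : ∀ p σ, I p σ → x.eval n m σ 0 0 0 < y.eval n m σ 0 0 0 →
      ∃ q, p = q + 1 ∧ Run n m c σ T (I q)) :
    ∀ p σ, I p σ → Run n m (.whl x y c) σ ((p + 1) * (x.cost n + y.cost n + 1 + T))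
      (fun σ' => (∃ q ≤ p, I q σ') ∧ ¬ x.eval n m σ' 0 0 0 < y.eval n m σ' 0 0 0) := by
  intro p
  induction p with
  | zero =>
    intro σ hI
    by_cases hc : x.eval n m σ 0 0 0 < y.eval n m σ 0 0 0
    · obtain ⟨q, hq, _⟩ := h 0 σ hI hc
      omega
    · exact ⟨σ, _, Exec.whlF hc, by nlinarith, ⟨0, le_rfl, hI⟩, hc⟩
  | succ p ih =>
    intro σ hI
    by_cases hc : x.eval n m σ 0 0 0 < y.eval n m σ 0 0 0
    · obtain ⟨q, hq, σ', t, h1, h2, h3⟩ := h (p + 1) σ hI hc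
      obtain rfl : q = p := by omega
      obtain ⟨σ'', t', h4, h5, ⟨q', hq', h6⟩, h7⟩ := ih σ' h3
      refine ⟨σ'', _, Exec.whlT hc h1 h4, ?_, ⟨q', by omega, h6⟩, h7⟩
      calc x.cost n + y.cost n + 1 + t + t' ≤ x.cost n + y.cost n + 1 + T +
            (q + 1) * (x.cost n + y.cost n + 1 + T) := by omega
        _ = (q + 1 + 1) * (x.cost n + y.cost n + 1 + T) := by ring
    · refine ⟨σ, _, Exec.whlF hc, ?_, ⟨p + 1, le_rfl, hI⟩, hc⟩
      calc x.cost n + y.cost n + 1 ≤ 1 * (x.cost n + y.cost n + 1 + T) := by omega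
        _ ≤ (p + 1 + 1) * (x.cost n + y.cost n + 1 + T) := by
          apply Nat.mul_le_mul_right; omega

/-- counting loops -/
theorem Run.loop {n m : ℕ} {c : Cmd} {T : ℕ} (I : ℕ → Mem → Prop) {σ : Mem} (h0 : I 0 σ)
    (h : ∀ k < n, ∀ σ, I k σ → Run n k c σ T (I (k + 1))) :
    Run n m (.loop c) σ (n * (T + 1) + 1) (I n) := by
  classical
  have key : ∀ k ≤ n, ∃ (s : ℕ → Mem) (t : ℕ → ℕ), s 0 = σ ∧
      (∀ l < k, Exec n l c (s l) (s (l + 1)) (t l) ∧ t l ≤ T) ∧ I k (s k) := by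
    intro k
    induction k with
    | zero =>
      intro _
      exact ⟨fun _ => σ, fun _ => 0, rfl, fun l hl => absurd hl (Nat.not_lt_zero l), h0⟩
    | succ k ih =>
      intro hk
      obtain ⟨s, t, e0, e1, e2⟩ := ih (by omega)
      obtain ⟨σ', t', h1, h2, h3⟩ := h k (by omega) _ e2
      refine ⟨Function.update s (k + 1) σ', Function.update t k t', ?_, ?_, ?_⟩
      · rw [Function.update_of_ne (by omega)]; exact e0
      · intro l hl
        rcases Nat.lt_succ_iff_lt_or_eq.1 hl with h4 | rfl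
        · rw [Function.update_of_ne (by omega), Function.update_of_ne (by omega),
            Function.update_of_ne (by omega)]
          exact e1 l h4
        · rw [Function.update_of_ne (by omega), Function.update_self, Function.update_self]
          exact ⟨h1, h2⟩
      · rw [Function.update_self]; exact h3
  obtain ⟨s, t, e0, e1, e2⟩ := key n le_rfl
  refine ⟨s n, ∑ k ∈ Finset.range n, (t k + 1) + 1, ?_, ?_, e2⟩
  · rw [← e0]
    exact Exec.loop s t fun k hk => (e1 k hk).1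
  · have : ∑ k ∈ Finset.range n, (t k + 1) ≤ ∑ k ∈ Finset.range n, (T + 1) :=
      Finset.sum_le_sum fun k hk => Nat.succ_le_succ (e1 k (Finset.mem_range.1 hk)).2
    simp only [Finset.sum_const, Finset.card_range, smul_eq_mul] at this
    omega

theorem asg_other {n m : ℕ} {σ : Mem} {a : ℕ} {r c : Tgt} {e : Ex} {a' : ℕ} (h : a' ≠ a) :
    σ.asg n m a r c e a' = σ a' := by
  funext x y
  simp [Mem.asg, h]

theorem asg_sca {n m : ℕ} {σ : Mem} {a : ℕ} {e : Ex} :
    σ.asg n m a .zero .zero e a 0 0 = e.eval n m σ 0 0 0 := by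
  simp [Mem.asg, Tgt.has]

theorem asg_mat {n m : ℕ} {σ : Mem} {a : ℕ} {e : Ex} {i j : ℕ} (hi : i < n) (hj : j < n) :
    σ.asg n m a .all .all e a i j = e.eval n m σ i j 0 := by
  simp [Mem.asg, Tgt.has, hi, hj]

theorem asg_vec {n m : ℕ} {σ : Mem} {a : ℕ} {e : Ex} {i : ℕ} (hi : i < n) :
    σ.asg n m a .all .zero e a i 0 = e.eval n m σ i 0 0 := by
  simp [Mem.asg, Tgt.has, hi]

end Pool.Agent.H394R3
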