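import Pool.Agent.H394R3.Prog

set_option autoImplicit false

/-!
# Solving linear systems in `n ^ 2` polylog operations in exact arithmetic
-/

namespace Pool.Agent.H394R3

open Matrix
open scoped Matrix.Norms.L2Operator

/-- Initialisation: a power of two `≥ n` (scalar 4), the sum of the absolute values of the entries of
the array 0 (scalar 11), the normalised matrix (array 12), `β = 1` and a number larger than `ε`
(scalar 25). -/
def cInit : Cmd :=
  .seq (.asg 4 .zero .zero (.const 1))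
  (.seq (.whl (eS 4) (.sum (.const 1)) (.asg 4 .zero .zero (.add (eS 4) (eS 4))))
  (.seq (.asg 22 .all .zero (.sum (eAbs (.cell 0 .i .k))))
  (.seq (.asg 11 .zero .zero (.sum (.cell 22 .k .z)))
  (.seq (.asg 12 .all .all (.div (eC 0) (eS 11)))
  (.seq (.asg 5 .zero .zero (.const 1))
    (.asg 25 .zero .zero (.add (eS 2) (.const 1))))))))

/-- one attempt, with half of the previous `β` -/
def cIter : Cmd :=
  .seq cPar (.seq (.asg 13 .all .all (.cell 12 .j .i)) (.seq cNewton cCheck))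

/-- The program: it reads the matrix `A` in array 0, the vector `b` in the column 0 of array 1 and
the number `ε` in array 2, and writes the solution in the column 0 of array 3. -/
def cSolve : Cmd :=
  .seq cInit
  (.seq (.whl (eS 2) (eS 25) cIter)
    (.asg 3 .all .zero (.div (.sum (.mul (.cell 13 .i .k) (.cell 1 .k .z))) (eS 11))))

theorem cInit_run {n m Λ : ℕ} (hΛ : n ≤ 2 ^ Λ) (σ : Mem) :
    Run n m cInit σ ((Λ + 1) * (2 * n + 8) + n * n * 16 + n * 4 + 20)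
      (fun σ' => ∃ p ≤ Λ, n ≤ 2 ^ p ∧ σ' 4 0 0 = 2 ^ p ∧ (∀ a, a < 4 → σ' a = σ a) ∧
        σ' 11 0 0 = S1 (toM n (σ 0)) ∧ toM n (σ' 12) = (S1 (toM n (σ 0)))⁻¹ • toM n (σ 0) ∧
        σ' 5 0 0 = 1 ∧ σ' 25 0 0 = σ 2 0 0 + 1) := by
  have key : Run n m cInit σ (2 + ((Λ + 1) * (1 + (n * 2 + 1) + 1 + 4) + ((n * n * 12 + n * 2) +
      ((n * 2 + 2) + (n * n * 4 + (2 + 4))))))
      (fun σ' => ∃ p ≤ Λ, n ≤ 2 ^ p ∧ σ' 4 0 0 = 2 ^ p ∧ (∀ a, a < 4 → σ' a = σ a) ∧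
        σ' 11 0 0 = S1 (toM n (σ 0)) ∧ toM n (σ' 12) = (S1 (toM n (σ 0)))⁻¹ • toM n (σ 0) ∧
        σ' 5 0 0 = 1 ∧ σ' 25 0 0 = σ 2 0 0 + 1) := by
    refine Run.seq (Run.asg ?_ (by simp [Tgt.count, Ex.cost]))
    set σ1 := σ.asg n m 4 .zero .zero (.const 1) with hσ1
    refine Run.seq ((Run.whl (T := 4) (fun q σ' => ∃ j, j + q = Λ ∧ σ' 4 0 0 = 2 ^ j ∧
      ∀ a, a ≠ 4 → σ' a = σ a) ?_ Λ σ1 ?_).mono ?_ ?_)
    · rintro q σ2 ⟨j, hj, h4, hfr⟩ hc
      simp only [Ex.eval, Ix.val, h4, Nat.cast_one, Finset.sum_const, Finset.card_range,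
        nsmul_eq_mul, mul_one] at hc
      have hc' : 2 ^ j < n := by exact_mod_cast hc
      have hjΛ : j < Λ := by
        by_contra hcon
        push Not at hcon
        have := Nat.pow_le_pow_right (by norm_num : 0 < 2) hcon
        omega
      refine ⟨q - 1, by omega, Run.asg ⟨j + 1, by omega, ?_, ?_⟩ (by simp [Tgt.count, Ex.cost])⟩
      · rw [asg_sca]
        simp only [Ex.eval, Ix.val, h4, pow_succ]
        ring
      · intro a ha
        rw [asg_other ha]; exact hfr a ha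
    · refine ⟨0, by omega, ?_, ?_⟩
      · rw [hσ1, asg_sca]; simp [Ex.eval]
      · intro a ha
        rw [hσ1, asg_other ha]
    · simp [Ex.cost]
    · rintro σ2 ⟨⟨q, hq, j, hj, h4, hfr⟩, hc⟩
      simp only [Ex.eval, Ix.val, h4, Nat.cast_one, Finset.sum_const, Finset.card_range,
        nsmul_eq_mul, mul_one, not_lt] at hc
      have hc' : n ≤ 2 ^ j := by exact_mod_cast hc
      refine Run.seq (Run.asg ?_ ?_)
      swap
      · simp only [Tgt.count, Ex.cost, eAbs]; nlinarith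
      refine Run.seq (Run.asg ?_ ?_)
      swap
      · simp only [Tgt.count, Ex.cost]; omega
      refine Run.seq (Run.asg ?_ (by simp [Tgt.count, Ex.cost]))
      refine Run.seq (Run.asg ?_ (by simp [Tgt.count, Ex.cost]))
      refine Run.asg ?_ (by simp [Tgt.count, Ex.cost])
      set σ3 := σ2.asg n m 22 .all .zero (.sum (eAbs (.cell 0 .i .k))) with hσ3
      set σ4 := σ3.asg n m 11 .zero .zero (.sum (.cell 22 .k .z)) with hσ4
      set σ5 := σ4.asg n m 12 .all .all (.div (eC 0) (eS 11)) with hσ5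
      set σ6 := σ5.asg n m 5 .zero .zero (.const 1) with hσ6
      have e11 : σ4 11 0 0 = S1 (toM n (σ 0)) := by
        rw [hσ4, asg_sca]
        simp only [Ex.eval, Ix.val]
        rw [Finset.sum_range]
        unfold S1
        refine Finset.sum_congr rfl fun i _ => ?_
        rw [hσ3, asg_vec i.2]
        simp only [Ex.eval, eAbs_eval, Ix.val]
        rw [Finset.sum_range]
        refine Finset.sum_congr rfl fun k _ => ?_
        rw [hfr 0 (by norm_num)]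
        rfl
      refine ⟨j, by omega, hc', ?_, ?_, ?_, ?_, ?_, ?_⟩
      · rw [asg_other (by norm_num), hσ6, asg_other (by norm_num), hσ5, asg_other (by norm_num),
          hσ4, asg_other (by norm_num), hσ3, asg_other (by norm_num)]
        exact h4
      · intro a ha
        rw [asg_other (by omega), hσ6, asg_other (by omega), hσ5, asg_other (by omega),
          hσ4, asg_other (by omega), hσ3, asg_other (by omega)]
        exact hfr a (by omega)
      · rw [asg_other (by norm_num), hσ6, asg_other (by norm_num), hσ5, asg_other (by norm_num)]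
        exact e11
      · ext i k
        rw [asg_other (by norm_num), hσ6, asg_other (by norm_num), hσ5]
        simp only [toM, asg_mat i.2 k.2, Ex.eval, Ix.val, e11, Matrix.smul_apply, smul_eq_mul]
        rw [hσ4, asg_other (by norm_num), hσ3, asg_other (by norm_num), hfr 0 (by norm_num)]
        rw [div_eq_inv_mul]
      · rw [asg_other (by norm_num), hσ6, asg_sca]
        simp [Ex.eval]
      · rw [asg_sca]
        simp only [Ex.eval, Ix.val, Nat.cast_one]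
        rw [hσ6, asg_other (by norm_num), hσ5, asg_other (by norm_num),
          hσ4, asg_other (by norm_num), hσ3, asg_other (by norm_num), hfr 2 (by norm_num)]
  refine key.mono ?_ fun _ h => h
  nlinarith

/-- cost of one attempt -/
def iterCost (n p r : ℕ) : ℕ :=
  40 + (n * n * 2 + ((r + 2) * (2 * mulCost n p r + n * n * 10 + 10) +
    (2 * mulCost n p r + n * n * 40 + 60)))

/-- One attempt. -/
theorem cIter_run {n m p r : ℕ} {g η K : ℝ} {B : Matrix (Fin n) (Fin n) ℝ} {Good : Prop}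
    (σ : Mem) (hp : n ≤ 2 ^ p) (h4 : σ 4 0 0 = 2 ^ p) (h5 : σ 5 0 0 = 1 / 2 ^ r)
    (hgood : Good → ‖toM n (σ 12)‖ ≤ 1 ∧ B * toM n (σ 12) = 1 ∧ ‖B‖ ≤ K ∧ 1 ≤ K ∧
      8 * K ≤ 2 ^ (r + 1) ∧ n * n * dl (r + 1) ≤ 1 ∧ g = 1 / (2 * K ^ 2) ∧ 0 ≤ η ∧ η ≤ g / 4 ∧
      20 * K ^ 2 * (n * n * dl (r + 1)) ≤ η) :
    Run n m cIter σ (iterCost n p (r + 1))
      (fun σ' => (∀ a, a < 4 ∨ a = 11 ∨ a = 12 → σ' a = σ a) ∧ σ' 4 0 0 = 2 ^ p ∧
        σ' 5 0 0 = 1 / 2 ^ (r + 1) ∧ ∃ X : Matrix (Fin n) (Fin n) ℝ,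
        (Good → ‖1 - X * toM n (σ 12)‖ ≤ rho g η (r + 1)) ∧
        CheckRel (2 ^ (r + 1)) (dl (r + 1)) (toM n (σ 12)) X (toM n (σ' 13)) (σ' 25 0 0)
          ((2 ^ p) ^ 3 * (1 / 2 ^ (r + 1)) ^ 2)) := by
  unfold iterCost
  refine Run.seq ((cPar_run σ hp h4 h5).mono le_rfl ?_)
  rintro σ1 ⟨f1, f2⟩
  refine Run.seq (Run.asg ?_ (by simp [Tgt.count, Ex.cost]))
  set σ2 := σ1.asg n m 13 .all .all (.cell 12 .j .i) with hσ2
  have h2 : Par n p (r + 1) σ2 := f1.congr fun a _ _ => by rw [hσ2, asg_other (by omega)]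
  have e12 : σ2 12 = σ 12 := by rw [hσ2, asg_other (by norm_num)]; exact f2 12 (by norm_num)
  have e13 : toM n (σ2 13) = (toM n (σ 12))ᵀ := by
    ext i j
    simp only [toM, hσ2, asg_mat i.2 j.2, Ex.eval, Ix.val, Matrix.transpose_apply]
    rw [f2 12 (by norm_num)]
  refine Run.seq ((cNewton_run (g := g) (η := η) (K := K) (B := B) (Good := Good) σ2 h2 ?_).mono
    le_rfl ?_)
  · intro hG
    obtain ⟨g1, g2, g3, g4, g5, g6, g7, g8, g9, g10⟩ := hgood hG
    rw [e12, e13]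
    have hK2 : 1 ≤ K ^ 2 := one_le_pow₀ g4
    refine ⟨g1, g2, g3, g4, g5, g6, ?_, ?_, g8, g9, g10, ?_⟩
    · rw [g7]; positivity
    · rw [g7]
      apply one_div_le_one_div_of_le (by norm_num); linarith
    · rw [g7]
      exact start_norm _ g1 g4 B g2 g3
  · rintro σ3 ⟨k1, k2⟩
    have h3 : Par n p (r + 1) σ3 := h2.congr fun a _ _ => k1 a (by omega)
    refine (cCheck_run σ3 h3).mono le_rfl ?_
    rintro σ4 ⟨l1, l2⟩
    have e12' : σ3 12 = σ 12 := by rw [k1 12 (by norm_num), e12]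
    refine ⟨?_, ?_, ?_, toM n (σ3 13), ?_, ?_⟩
    · intro a ha
      rw [l1 a (by omega), k1 a (by omega), hσ2, asg_other (by omega)]
      exact f2 a (by omega)
    · rw [l1 4 (by norm_num)]; exact h3.s4
    · rw [l1 5 (by norm_num)]; exact h3.s5
    · intro hG
      have := k2 hG
      rwa [e12] at this
    · rwa [e12'] at l2

/-- The estimates for the last attempt. -/
theorem final_bound {n p Λ : ℕ} {ε ρ : ℝ} (hn : n ≤ 2 ^ Λ) (hp : p ≤ Λ) (hε : 1 ≤ ε * 2 ^ Λ)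
    (hρ : ρ ≤ 1 / 2 ^ (4 * Λ + 11) + 2 * (20 * (2 ^ Λ) ^ 2 * (n * n * dl (12 * Λ + 10)))) :
    n * n * (2 * 2 ^ Λ * ρ + 10 * 2 ^ Λ * (n * n * dl (12 * Λ + 10))) +
      3 * ((2 ^ p) ^ 3 * (1 / 2 ^ (12 * Λ + 10)) ^ 2) ≤ ε := by
  set y : ℝ := 2 ^ Λ with hy
  have hy1 : 1 ≤ y := one_le_pow₀ (by norm_num)
  have hy0 : 0 < y := by positivity
  have hn' : (n : ℝ) ≤ y := by rw [hy]; exact_mod_cast hn
  have hp' : (2 : ℝ) ^ p ≤ y := pow_le_pow_right₀ (by norm_num) hp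
  have e1 : (2 : ℝ) ^ (4 * Λ + 11) = y ^ 4 * 2048 := by
    rw [pow_add, mul_comm 4 Λ, pow_mul, ← hy]; norm_num
  have e2 : (2 : ℝ) ^ (12 * Λ + 10) = y ^ 12 * 1024 := by
    rw [pow_add, mul_comm 12 Λ, pow_mul, ← hy]; norm_num
  have e3 : dl (12 * Λ + 10) = 1 / (y ^ 36 * 1073741824) := by
    unfold dl
    congr 1
    rw [show 3 * (12 * Λ + 10) = Λ * 36 + 30 by ring, pow_add, pow_mul, ← hy]; norm_num
  rw [e3] at hρ ⊢
  rw [e1] at hρ
  rw [e2]
  have hn0 : (0 : ℝ) ≤ n := Nat.cast_nonneg n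
  have hnn : (n : ℝ) * n ≤ y ^ 2 := by nlinarith
  have hεy : 1 / y ≤ ε := by rw [div_le_iff₀ hy0]; exact hε
  set D : ℝ := 1 / (y ^ 36 * 1073741824) with hD
  have hD0 : 0 < D := by positivity
  have hDy : ∀ k : ℕ, k ≤ 35 → y ^ k * D ≤ 1 / y / 1073741824 := by
    intro k hk
    rw [hD, mul_one_div, div_div, div_le_div_iff₀ (by positivity) (by positivity)]
    have : y ^ k * y ≤ y ^ 36 := by
      rw [← pow_succ]; exact pow_le_pow_right₀ hy1 (by omega)
    nlinarith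
  have hnD : (n : ℝ) * n * D ≤ y ^ 2 * D := mul_le_mul_of_nonneg_right hnn hD0.le
  have hρ' : ρ ≤ 1 / (y ^ 4 * 2048) + 40 * (y ^ 4 * D) := by
    refine hρ.trans ?_
    have : 2 * (20 * y ^ 2 * (n * n * D)) ≤ 40 * (y ^ 4 * D) := by
      have h1 : y ^ 2 * (n * n * D) ≤ y ^ 2 * (y ^ 2 * D) :=
        mul_le_mul_of_nonneg_left hnD (by positivity)
      nlinarith
    linarith
  have t1 : (2 : ℝ) * y * ρ + 10 * y * (n * n * D) ≤
      1 / (y ^ 3 * 1024) + 80 * (y ^ 5 * D) + 10 * (y ^ 3 * D) := by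
    have h1 : 2 * y * ρ ≤ 2 * y * (1 / (y ^ 4 * 2048) + 40 * (y ^ 4 * D)) :=
      mul_le_mul_of_nonneg_left hρ' (by positivity)
    have h2 : 2 * y * (1 / (y ^ 4 * 2048) + 40 * (y ^ 4 * D)) =
        1 / (y ^ 3 * 1024) + 80 * (y ^ 5 * D) := by
      field_simp; ring
    have h3 : 10 * y * (n * n * D) ≤ 10 * y * (y ^ 2 * D) :=
      mul_le_mul_of_nonneg_left hnD (by positivity)
    nlinarith
  have t2 : (n : ℝ) * n * (2 * y * ρ + 10 * y * (n * n * D)) ≤
      1 / y / 1024 + 80 * (y ^ 7 * D) + 10 * (y ^ 5 * D) := by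
    have hpos : 0 ≤ 1 / (y ^ 3 * 1024) + 80 * (y ^ 5 * D) + 10 * (y ^ 3 * D) := by positivity
    have h1 : (n : ℝ) * n * (2 * y * ρ + 10 * y * (n * n * D)) ≤
        n * n * (1 / (y ^ 3 * 1024) + 80 * (y ^ 5 * D) + 10 * (y ^ 3 * D)) :=
      mul_le_mul_of_nonneg_left t1 (by positivity)
    have h2 : (n : ℝ) * n * (1 / (y ^ 3 * 1024) + 80 * (y ^ 5 * D) + 10 * (y ^ 3 * D)) ≤
        y ^ 2 * (1 / (y ^ 3 * 1024) + 80 * (y ^ 5 * D) + 10 * (y ^ 3 * D)) :=
      mul_le_mul_of_nonneg_right hnn hpos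
    have h3 : y ^ 2 * (1 / (y ^ 3 * 1024) + 80 * (y ^ 5 * D) + 10 * (y ^ 3 * D)) =
        1 / y / 1024 + 80 * (y ^ 7 * D) + 10 * (y ^ 5 * D) := by
      field_simp
    linarith
  have t3 : ((2 : ℝ) ^ p) ^ 3 * (1 / (y ^ 12 * 1024)) ^ 2 ≤ 1 / y / 1048576 := by
    have h1 : ((2 : ℝ) ^ p) ^ 3 ≤ y ^ 3 := pow_le_pow_left₀ (by positivity) hp' 3
    have h2 : ((2 : ℝ) ^ p) ^ 3 * (1 / (y ^ 12 * 1024)) ^ 2 ≤
        y ^ 3 * (1 / (y ^ 12 * 1024)) ^ 2 := mul_le_mul_of_nonneg_right h1 (by positivity)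
    refine h2.trans ?_
    have h3 : y ^ 3 * (1 / (y ^ 12 * 1024)) ^ 2 = 1 / y ^ 21 / 1048576 := by
      field_simp; norm_num
    rw [h3]
    apply div_le_div_of_nonneg_right _ (by norm_num)
    apply one_div_le_one_div_of_le hy0
    calc y = y ^ 1 := (pow_one y).symm
      _ ≤ y ^ 21 := pow_le_pow_right₀ hy1 (by norm_num)
  have t4 := hDy 7 (by norm_num)
  have t5 := hDy 5 (by norm_num)
  have hyi : 0 < 1 / y := by positivity
  linarith

/-- The invariant of the main loop: `r` attempts have been made. -/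
structure InvM (n p L : ℕ) (ε : ℝ) (σ₀ : Mem) (q : ℕ) (σ : Mem) : Prop where
  prog : ∃ r, r + q = L ∧ σ 5 0 0 = 1 / 2 ^ r ∧ (r = 0 → ε < σ 25 0 0) ∧
    (r ≠ 0 → ‖1 - toM n (σ 13) * toM n (σ₀ 12)‖ ≤ σ 25 0 0 ∧
      ‖1 - toM n (σ₀ 12) * toM n (σ 13)‖ ≤ σ 25 0 0) ∧
    (L ≤ r → σ 25 0 0 ≤ ε)
  s4 : σ 4 0 0 = 2 ^ p
  frame : ∀ a, a < 4 ∨ a = 11 ∨ a = 12 → σ a = σ₀ a

/-- The program solves every invertible linear system to high accuracy. The contents of the arrays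
other than 0, 1, 2 do not matter. -/
theorem solve_run_gen {n : ℕ} (hn : 1 ≤ n) (A : Matrix (Fin n) (Fin n) ℝ) (hA : IsUnit A.det)
    (b : Fin n → ℝ) {ε : ℝ} (Λ : ℕ) (hΛ : n ≤ 2 ^ Λ)
    (hK : S1 A * ‖A⁻¹‖ ≤ 2 ^ Λ) (hεΛ : 1 ≤ ε * 2 ^ Λ)
    (σ0 : Mem) (hA0 : toM n (σ0 0) = A) (hb0 : ∀ i : Fin n, σ0 1 i 0 = b i)
    (hε0 : σ0 2 0 0 = ε) :
    Run n 0 cSolve σ0 (10 ^ 7 * (n ^ 2 * (Λ + 1) ^ 3))
      (fun σ => nrm (A *ᵥ outputVec n σ - b) ≤ ε * nrm b ∧
        nrm (outputVec n σ - A⁻¹ *ᵥ b) ≤ ε * nrm (A⁻¹ *ᵥ b)) := by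
  set L := 12 * Λ + 10 with hL
  set N := S1 A with hN
  have hne : A ≠ 0 := by
    rintro rfl
    have : Nonempty (Fin n) := ⟨⟨0, hn⟩⟩
    simp [Matrix.det_zero] at hA
  have hN0 : 0 < N := by
    have h1 : 0 < ‖A‖ := norm_pos_iff.2 hne
    exact h1.trans_le (norm_le_S1 A)
  set A' : Matrix (Fin n) (Fin n) ℝ := N⁻¹ • A with hA'
  set B : Matrix (Fin n) (Fin n) ℝ := N • A⁻¹ with hB
  have hBA : B * A' = 1 := by
    rw [hB, hA', Matrix.smul_mul, Matrix.mul_smul, smul_smul, mul_inv_cancel₀ hN0.ne', one_smul,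
      Matrix.nonsing_inv_mul A hA]
  have hBn : ‖B‖ ≤ 2 ^ Λ := by
    rw [hB, norm_smul, Real.norm_of_nonneg hN0.le]; exact hK
  have hA'n : ‖A'‖ ≤ 1 := by
    rw [hA', norm_smul, Real.norm_of_nonneg (by positivity)]
    have := norm_le_S1 A
    rw [inv_mul_le_iff₀ hN0]; linarith
  set K : ℝ := 2 ^ Λ with hKd
  have hK1 : 1 ≤ K := one_le_pow₀ (by norm_num)
  have hLs : 8 * K ≤ 2 ^ L := by
    rw [hL, hKd, pow_add]
    have : (2 : ℝ) ^ Λ ≤ 2 ^ (12 * Λ) := pow_le_pow_right₀ (by norm_num) (by omega)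
    have h2 : (2 : ℝ) ^ 10 = 1024 := by norm_num
    rw [h2]; nlinarith
  have hnK : (n : ℝ) ≤ K := by rw [hKd]; exact_mod_cast hΛ
  have hdl : dl L = 1 / (K ^ 36 * 1073741824) := by
    unfold dl
    congr 1
    rw [hL, hKd, show 3 * (12 * Λ + 10) = Λ * 36 + 30 by ring, pow_add, pow_mul]; norm_num
  have hn0 : (0 : ℝ) ≤ n := Nat.cast_nonneg n
  have hnn : (n : ℝ) * n ≤ K ^ 2 := by nlinarith
  have hKdl : ∀ k : ℕ, k ≤ 36 → K ^ k * dl L ≤ 1 / 1073741824 := by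
    intro k hk
    rw [hdl, mul_one_div, div_le_div_iff₀ (by positivity) (by norm_num)]
    have : K ^ k ≤ K ^ 36 := pow_le_pow_right₀ hK1 hk
    nlinarith
  have hnndl : (n : ℝ) * n * dl L ≤ K ^ 2 * dl L := mul_le_mul_of_nonneg_right hnn (dl_pos L).le
  set g : ℝ := 1 / (2 * K ^ 2) with hg
  set η : ℝ := 20 * K ^ 2 * (n * n * dl L) with hη
  have hη0 : 0 ≤ η := by have := dl_pos L; positivity
  have hηg : η ≤ g / 4 := by
    have h1 : η ≤ 20 * (K ^ 4 * dl L) := by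
      rw [hη]
      have := mul_le_mul_of_nonneg_left hnndl (by positivity : (0 : ℝ) ≤ 20 * K ^ 2)
      calc 20 * K ^ 2 * (n * n * dl L) ≤ 20 * K ^ 2 * (K ^ 2 * dl L) := this
        _ = 20 * (K ^ 4 * dl L) := by ring
    have h2 : g / 4 = 1 / (8 * K ^ 2) := by rw [hg]; field_simp; norm_num
    rw [h2, le_div_iff₀ (by positivity)]
    have h3 := hKdl 6 (by norm_num)
    calc η * (8 * K ^ 2) ≤ 20 * (K ^ 4 * dl L) * (8 * K ^ 2) :=
          mul_le_mul_of_nonneg_right h1 (by positivity)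
      _ = 160 * (K ^ 6 * dl L) := by ring
      _ ≤ 1 := by linarith
  have hndl1 : (n : ℝ) * n * dl L ≤ 1 := by
    have := hKdl 2 (by norm_num)
    linarith
  have hphase : 1 / 2 ≤ g * (5 / 4) ^ (8 * Λ) := by
    have h1 : K ^ 2 ≤ (5 / 4) ^ (8 * Λ) := by
      rw [hKd, pow_mul, ← pow_mul, mul_comm Λ 2, pow_mul]
      exact pow_le_pow_left₀ (by norm_num) (by norm_num) Λ
    rw [hg]
    have : 1 / (2 * K ^ 2) * K ^ 2 = 1 / 2 := by field_simp
    rw [← this]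
    exact mul_le_mul_of_nonneg_left h1 (by positivity)
  have hg0 : 0 < g := by positivity
  have hg1 : g ≤ 1 / 2 := by
    rw [hg]
    apply one_div_le_one_div_of_le (by norm_num)
    have : 1 ≤ K ^ 2 := one_le_pow₀ hK1
    linarith
  have hρL : rho g η L ≤ 1 / 2 ^ (4 * Λ + 11) + 2 * η := by
    have := (rho_phase2 hg0 hg1 hη0 hηg hphase (4 * Λ + 10)).2
    rwa [show 8 * Λ + (4 * Λ + 10) = L by rw [hL]; ring] at this
  -- the run
  have key : Run n 0 cSolve σ0 (((Λ + 1) * (2 * n + 8) + n * n * 16 + n * 4 + 20) +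
      ((L + 1) * (1 + 1 + 1 + iterCost n Λ L) + (n * n * 4 + n * 4)))
      (fun σ => nrm (A *ᵥ outputVec n σ - b) ≤ ε * nrm b ∧
        nrm (outputVec n σ - A⁻¹ *ᵥ b) ≤ ε * nrm (A⁻¹ *ᵥ b)) := by
    refine Run.seq ((cInit_run hΛ σ0).mono le_rfl ?_)
    rintro σ1 ⟨p, hp, hnp, i4, ifr, i11, i12, i5, i25⟩
    rw [hA0, ← hN] at i11 i12
    rw [← hA'] at i12
    have i2 : σ1 2 0 0 = ε := by
      rw [ifr 2 (by norm_num)]; exact hε0
    refine Run.seq ((Run.whl (T := iterCost n Λ L) (InvM n p L ε σ1) ?_ L σ1 ?_).mono ?_ ?_)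
    · rintro q σ2 ⟨⟨r, hr, h5, h6, h7, h8⟩, h4, hfr⟩ hc
      simp only [Ex.eval, Ix.val] at hc
      rw [hfr 2 (by norm_num), i2] at hc
      have hrL : r < L := by
        by_contra hcon
        push Not at hcon
        have := h8 hcon
        linarith
      obtain ⟨q', rfl⟩ : ∃ q', q = q' + 1 := ⟨q - 1, by omega⟩
      refine ⟨q', rfl, ?_⟩
      have e12 : toM n (σ2 12) = A' := by rw [hfr 12 (by norm_num)]; exact i12
      refine (cIter_run (g := g) (η := η) (K := K) (B := B) (Good := r + 1 = L) σ2 hnp h4 h5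
        ?_).mono ?_ ?_
      · intro hG
        rw [hG, e12]
        exact ⟨hA'n, hBA, hBn, hK1, hLs, hndl1, rfl, hη0, hηg, le_rfl⟩
      · -- monotonicity of the cost
        unfold iterCost mulCost
        gcongr
        · omega
        · omega
        · omega
      · rintro σ3 ⟨k1, k2, k3, X, k4, k5⟩
        rw [e12] at k4 k5
        have hfr3 : ∀ a, a < 4 ∨ a = 11 ∨ a = 12 → σ3 a = σ1 a := fun a ha => by
          rw [k1 a ha, hfr a ha]
        refine ⟨⟨r + 1, by omega, k3, fun h => by omega, fun _ => ?_, fun hLr => ?_⟩, k2, hfr3⟩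
        · rw [i12]
          refine check_sound hA'n (one_le_pow₀ (by norm_num)) (dl_pos _).le ?_ k5
          have h1 : (2 : ℝ) ^ (r + 1) * dl (r + 1) = (1 / 2 ^ (r + 1)) ^ 2 := by
            unfold dl
            rw [mul_comm 3 (r + 1), pow_mul]
            have hz : (2 : ℝ) ^ (r + 1) ≠ 0 := by positivity
            generalize (2 : ℝ) ^ (r + 1) = z at hz
            field_simp
          rw [h1]
          apply mul_le_mul_of_nonneg_right _ (by positivity)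
          have : (n : ℝ) ≤ 2 ^ p := by exact_mod_cast hnp
          exact pow_le_pow_left₀ hn0 this 3
        · have hrL' : r + 1 = L := by omega
          rw [hrL'] at k4 k5
          have h1 := check_complete (K := K) hA'n hBA hBn hK1 hLs (dl_pos _).le hndl1
            (rho_le_one hg0 hg1 hη0 hηg L) (k4 rfl) k5
          exact h1.trans (final_bound hΛ hp hεΛ hρL)
    · refine ⟨⟨0, by omega, ?_, fun _ => ?_, fun h => absurd rfl h, fun h => by omega⟩, i4,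
        fun _ _ => rfl⟩
      · rw [i5]; simp
      · rw [i25]
        rw [hε0]; linarith
    · simp [Ex.cost]
    · rintro σ2 ⟨⟨q, hq, ⟨r, hr, h5, h6, h7, h8⟩, h4, hfr⟩, hc⟩
      simp only [Ex.eval, Ix.val, not_lt] at hc
      rw [hfr 2 (by norm_num), i2] at hc
      refine Run.asg ?_ ?_
      swap
      · simp only [Tgt.count, Ex.cost]; nlinarith
      have hr0 : r ≠ 0 := by
        intro h
        have := h6 h
        linarith
      obtain ⟨h9, h10⟩ := h7 hr0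
      rw [i12] at h9 h10
      set X := toM n (σ2 13) with hX
      have hout : outputVec n (σ2.asg n 0 3 .all .zero
          (.div (.sum (.mul (.cell 13 .i .k) (.cell 1 .k .z))) (eS 11))) = N⁻¹ • (X *ᵥ b) := by
        funext i
        simp only [outputVec, asg_vec i.2, Ex.eval, Ix.val, Pi.smul_apply, smul_eq_mul]
        rw [hfr 11 (by norm_num), i11, div_eq_inv_mul]
        congr 1
        rw [Finset.sum_range]
        simp only [Matrix.mulVec, dotProduct]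
        refine Finset.sum_congr rfl fun k _ => ?_
        rw [hfr 1 (by norm_num), ifr 1 (by norm_num)]
        simp only [Ix.val, hX, toM]
        rw [hb0 k]
      rw [hout]
      constructor
      · have e1 : A *ᵥ (N⁻¹ • (X *ᵥ b)) - b = -((1 - A' * X) *ᵥ b) := by
          rw [Matrix.sub_mulVec, Matrix.one_mulVec, hA', Matrix.smul_mul, Matrix.smul_mulVec,
            Matrix.mulVec_smul, Matrix.mulVec_mulVec]
          abel
        rw [e1]
        have e2 : nrm (-((1 - A' * X) *ᵥ b)) = nrm ((1 - A' * X) *ᵥ b) := by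
          simp [nrm]
        rw [e2]
        refine (mulVec_le _ _).trans (mul_le_mul_of_nonneg_right ?_ (nrm_nonneg _))
        linarith
      · have e1 : N⁻¹ • (X *ᵥ b) - A⁻¹ *ᵥ b = -((1 - X * A') *ᵥ (A⁻¹ *ᵥ b)) := by
          rw [Matrix.sub_mulVec, Matrix.one_mulVec, hA', Matrix.mul_smul, Matrix.smul_mulVec,
            Matrix.mulVec_mulVec, Matrix.mul_assoc, Matrix.mul_nonsing_inv A hA, Matrix.mul_one]
          abel
        rw [e1]
        have e2 : nrm (-((1 - X * A') *ᵥ (A⁻¹ *ᵥ b))) = nrm ((1 - X * A') *ᵥ (A⁻¹ *ᵥ b)) := by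
          simp [nrm]
        rw [e2]
        refine (mulVec_le _ _).trans (mul_le_mul_of_nonneg_right ?_ (nrm_nonneg _))
        linarith
  refine key.mono ?_ fun _ h => h
  -- the total cost
  have hn2 : n ≤ n ^ 2 := by nlinarith
  have hn3 : 1 ≤ n ^ 2 := Nat.one_le_pow _ _ hn
  have hmc : mulCost n Λ L ≤ 18128 * ((Λ + 1) * n ^ 2) := by
    unfold mulCost
    have h1 : Λ + 16 * L + 13 ≤ 206 * (Λ + 1) := by rw [hL]; omega
    have h2 : n * n * 48 + 40 ≤ 88 * n ^ 2 := by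
      have h0 : n * n = n ^ 2 := by ring
      omega
    calc (Λ + 16 * L + 13) * (n * n * 48 + 40) ≤ (206 * (Λ + 1)) * (88 * n ^ 2) :=
          Nat.mul_le_mul h1 h2
      _ = 18128 * ((Λ + 1) * n ^ 2) := by ring
  have hic : iterCost n Λ L ≤ 480000 * ((Λ + 1) ^ 2 * n ^ 2) := by
    unfold iterCost
    set M := (Λ + 1) * n ^ 2 with hM
    have hM1 : n ^ 2 ≤ M := by rw [hM]; nlinarith
    have hM2 : M ≤ (Λ + 1) ^ 2 * n ^ 2 := by rw [hM, sq]; nlinarith [Nat.zero_le (Λ * (Λ + 1) * n ^ 2)]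
    have h3 : 2 * mulCost n Λ L + n * n * 10 + 10 ≤ 36276 * M := by nlinarith
    have h4 : (L + 2) * (2 * mulCost n Λ L + n * n * 10 + 10) ≤ (12 * (Λ + 1)) * (36276 * M) :=
      Nat.mul_le_mul (by rw [hL]; omega) h3
    have h5 : (12 * (Λ + 1)) * (36276 * M) = 435312 * ((Λ + 1) ^ 2 * n ^ 2) := by
      rw [hM]; ring
    nlinarith
  have hfin : (L + 1) * (1 + 1 + 1 + iterCost n Λ L) ≤
      (12 * (Λ + 1)) * (480003 * ((Λ + 1) ^ 2 * n ^ 2)) := by
    apply Nat.mul_le_mul (by rw [hL]; omega)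
    have : 1 ≤ (Λ + 1) ^ 2 * n ^ 2 := Nat.one_le_iff_ne_zero.2 (by positivity)
    omega
  have h6 : (12 * (Λ + 1)) * (480003 * ((Λ + 1) ^ 2 * n ^ 2)) =
      5760036 * (n ^ 2 * (Λ + 1) ^ 3) := by ring
  have h7 : Λ + 1 ≤ (Λ + 1) ^ 3 := Nat.le_self_pow (by norm_num) _
  have h8 : n ^ 2 ≤ n ^ 2 * (Λ + 1) ^ 3 := Nat.le_mul_of_pos_right _ (by positivity)
  have h9 : (Λ + 1) * (2 * n + 8) ≤ 10 * (n ^ 2 * (Λ + 1) ^ 3) := by
    calc (Λ + 1) * (2 * n + 8) ≤ (Λ + 1) ^ 3 * (10 * n ^ 2) :=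
          Nat.mul_le_mul h7 (by nlinarith)
      _ = 10 * (n ^ 2 * (Λ + 1) ^ 3) := by ring
  have h10 : n * n = n ^ 2 := by ring
  rw [h10]
  omega

theorem solve_run {n : ℕ} (hn : 1 ≤ n) (A : Matrix (Fin n) (Fin n) ℝ) (hA : IsUnit A.det)
    (b : Fin n → ℝ) {ε : ℝ} (Λ : ℕ) (hΛ : n ≤ 2 ^ Λ)
    (hK : S1 A * ‖A⁻¹‖ ≤ 2 ^ Λ) (hεΛ : 1 ≤ ε * 2 ^ Λ) :
    Run n 0 cSolve (inputMem A b ε) (10 ^ 7 * (n ^ 2 * (Λ + 1) ^ 3))
      (fun σ => nrm (A *ᵥ outputVec n σ - b) ≤ ε * nrm b ∧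
        nrm (outputVec n σ - A⁻¹ *ᵥ b) ≤ ε * nrm (A⁻¹ *ᵥ b)) := by
  refine solve_run_gen hn A hA b Λ hΛ hK hεΛ _ ?_ ?_ ?_
  · ext i j
    simp [toM, inputMem]
  · intro i
    simp [inputMem]
  · simp [inputMem]

end Pool.Agent.H394R3
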